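import Pool.Agent.Lib.MP_688fd0_co.SQ5.H64.Win

/-!
MP_688fd0_co, type C2 (helper22): a region of a graph realises a diagram.

`Real E Rg lo up d`: inside the set `Rg` the ends `lo s`, `up s` are joined by `E`-paths as in the diagram `d`, and every
vertex of `Rg` is joined to an end (no closed loop). `Real.stack`: regions on top of each other.
-/

set_option autoImplicit false

namespace Pool.Agent.Lib.MP_688fd0_co.SQ5.H22

open Function Equiv
open Pool.Agent.Lib.MP_688fd0_co.SQ5.H64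

variable {V S : Type*}

/-- Connected by `E` inside `Rg`. -/
def Cn (E : V → V → Prop) (Rg : Set V) : V → V → Prop :=
  Relation.ReflTransGen fun x y => E x y ∧ x ∈ Rg ∧ y ∈ Rg

theorem Cn.rfl' {E : V → V → Prop} {Rg : Set V} (x : V) : Cn E Rg x x := Relation.ReflTransGen.refl

theorem Cn.of {E : V → V → Prop} {Rg : Set V} {x y : V} (h : E x y) (hx : x ∈ Rg) (hy : y ∈ Rg) : Cn E Rg x y :=
  Relation.ReflTransGen.single ⟨h, hx, hy⟩

theorem Cn.trans' {E : V → V → Prop} {Rg : Set V} {x y z : V} (h : Cn E Rg x y) (h' : Cn E Rg y z) : Cn E Rg x z :=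
  Relation.ReflTransGen.trans h h'

theorem Cn.symm' {E : V → V → Prop} (hE : ∀ x y, E x y → E y x) {Rg : Set V} {x y : V} (h : Cn E Rg x y) :
    Cn E Rg y x := by
  induction h with
  | refl => exact Cn.rfl' _
  | tail _ hs ih => exact (Cn.of (hE _ _ hs.1) hs.2.2 hs.2.1).trans' ih

theorem Cn.mono {E E' : V → V → Prop} {Rg Rg' : Set V} (hR : Rg ⊆ Rg')
    (hE : ∀ x y, x ∈ Rg → y ∈ Rg → E x y → E' x y) {x y : V} (h : Cn E Rg x y) : Cn E' Rg' x y := by
  induction h with
  | refl => exact Cn.rfl' _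
  | tail _ hs ih => exact ih.trans' (Cn.of (hE _ _ hs.2.1 hs.2.2 hs.1) (hR hs.2.1) (hR hs.2.2))

/-- The vertex of an end. -/
def pt (lo up : S → V) (p : S × Bool) : V := if p.2 = true then up p.1 else lo p.1

theorem pt_lo (lo up : S → V) (s : S) : pt lo up (s, false) = lo s := by simp [pt]

theorem pt_up (lo up : S → V) (s : S) : pt lo up (s, true) = up s := by simp [pt]

/-- The region `Rg` with lower ends `lo`, upper ends `up` realises the diagram `d`. -/
structure Real (E : V → V → Prop) (Rg : Set V) (lo up : S → V) (d : S × Bool → S × Bool) : Prop where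
  mlo : ∀ s, lo s ∈ Rg
  mup : ∀ s, up s ∈ Rg
  con : ∀ p, Cn E Rg (pt lo up p) (pt lo up (d p))
  all : ∀ v ∈ Rg, ∃ p, Cn E Rg v (pt lo up p)

theorem Real.mono {E E' : V → V → Prop} {Rg : Set V} {lo up : S → V} {d : S × Bool → S × Bool}
    (h : Real E Rg lo up d) (hE : ∀ x y, x ∈ Rg → y ∈ Rg → E x y → E' x y) : Real E' Rg lo up d where
  mlo := h.mlo
  mup := h.mup
  con p := (h.con p).mono subset_rfl hE
  all v hv := by
    obtain ⟨p, hp⟩ := h.all v hv
    exact ⟨p, hp.mono subset_rfl hE⟩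

/-- The vertex of a point of the two level picture. -/
def pos (lo₁ up₁ lo₂ up₂ : S → V) (q : (S × Bool) × Bool) : V :=
  if q.2 = true then pt lo₂ up₂ q.1 else pt lo₁ up₁ q.1

/-- STACK. -/
theorem Real.stack [Finite S] {E : V → V → Prop} (hE : ∀ x y, E x y → E y x) {R₁ R₂ : Set V}
    {lo₁ up₁ lo₂ up₂ : S → V} {d e : S × Bool → S × Bool} (hd : IsPair d) (he : IsPair e)
    (h₁ : Real E R₁ lo₁ up₁ d) (h₂ : Real E R₂ lo₂ up₂ e) (hg : ∀ s, E (up₁ s) (lo₂ s)) (hn : NoLoop d e) :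
    Real E (R₁ ∪ R₂) lo₁ up₂ (stk d e) := by
  have m₁ : ∀ p, pt lo₁ up₁ p ∈ R₁ := by
    rintro ⟨s, _ | _⟩
    · rw [pt_lo]; exact h₁.mlo s
    · rw [pt_up]; exact h₁.mup s
  have m₂ : ∀ p, pt lo₂ up₂ p ∈ R₂ := by
    rintro ⟨s, _ | _⟩
    · rw [pt_lo]; exact h₂.mlo s
    · rw [pt_up]; exact h₂.mup s
  have hout : ∀ p, pos lo₁ up₁ lo₂ up₂ (out p) = pt lo₁ up₂ p := by
    rintro ⟨s, _ | _⟩ <;> simp [pos, out, pt]
  have key : ∀ x y, Con (lvl d e) glu x y →
      Cn E (R₁ ∪ R₂) (pos lo₁ up₁ lo₂ up₂ x) (pos lo₁ up₁ lo₂ up₂ y) := by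
    intro x y h
    induction h with
    | refl => exact Cn.rfl' _
    | tail _ hs ih =>
      rename_i b c _
      refine ih.trans' ?_
      rcases hs with hs | hs
      · subst hs
        rcases b with ⟨q, _ | _⟩
        · have := (h₁.con q).mono (Rg' := R₁ ∪ R₂) Set.subset_union_left (fun x y _ _ h => h)
          simpa [pos, lvl] using this
        · have := (h₂.con q).mono (Rg' := R₁ ∪ R₂) Set.subset_union_right (fun x y _ _ h => h)
          simpa [pos, lvl] using this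
      · subst hs
        rcases b with ⟨⟨s, _ | _⟩, _ | _⟩
        · exact Cn.rfl' _
        · have := Cn.of (hE _ _ (hg s)) (Rg := R₁ ∪ R₂) (Or.inr (h₂.mlo s)) (Or.inl (h₁.mup s))
          simpa [pos, glu, pt] using this
        · have := Cn.of (hg s) (Rg := R₁ ∪ R₂) (Or.inl (h₁.mup s)) (Or.inr (h₂.mlo s))
          simpa [pos, glu, pt] using this
        · exact Cn.rfl' _
  have hall : ∀ q, ∃ p, Cn E (R₁ ∪ R₂) (pos lo₁ up₁ lo₂ up₂ q) (pt lo₁ up₂ p) := by
    intro q
    obtain ⟨p, hp⟩ := hn q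
    refine ⟨p, Cn.symm' hE ?_⟩
    have := key _ _ hp
    rwa [hout] at this
  refine ⟨fun s => Or.inl (h₁.mlo s), fun s => Or.inr (h₂.mup s), fun p => ?_, ?_⟩
  · have := key _ _ (con_out_stk hd he p)
    rwa [hout, hout] at this
  · rintro v (hv | hv)
    · obtain ⟨p, hp⟩ := h₁.all v hv
      obtain ⟨q, hq⟩ := hall (p, false)
      refine ⟨q, (hp.mono Set.subset_union_left (fun x y _ _ h => h)).trans' ?_⟩
      simpa [pos] using hq
    · obtain ⟨p, hp⟩ := h₂.all v hv
      obtain ⟨q, hq⟩ := hall (p, true)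
      refine ⟨q, (hp.mono Set.subset_union_right (fun x y _ _ h => h)).trans' ?_⟩
      simpa [pos] using hq

/-- How to prove that a region realises `win j k σ`. -/
theorem Real.of_win [DecidableEq S] {E : V → V → Prop} (hE : ∀ x y, E x y → E y x) {Rg : Set V} {lo up : S → V}
    {j k : S} (hjk : j ≠ k) (σ : Perm S) (mlo : ∀ s, lo s ∈ Rg) (mup : ∀ s, up s ∈ Rg)
    (hl : Cn E Rg (lo j) (lo k)) (hu : Cn E Rg (up (σ j)) (up (σ k)))
    (hs : ∀ s, s ≠ j → s ≠ k → Cn E Rg (lo s) (up (σ s)))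
    (hall : ∀ v ∈ Rg, (∃ s, Cn E Rg v (lo s)) ∨ ∃ s, Cn E Rg v (up s)) :
    Real E Rg lo up (win j k σ) := by
  refine ⟨mlo, mup, ?_, ?_⟩
  · rintro ⟨s, _ | _⟩
    · by_cases h1 : s = j
      · subst h1
        rw [win_low_left, pt_lo, pt_lo]
        exact hl
      · by_cases h2 : s = k
        · subst h2
          rw [win_low_right hjk, pt_lo, pt_lo]
          exact Cn.symm' hE hl
        · rw [win_low h1 h2, pt_lo, pt_up]
          exact hs s h1 h2
    · obtain ⟨s, rfl⟩ := σ.surjective s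
      by_cases h1 : s = j
      · subst h1
        rw [win_up_left, pt_up, pt_up]
        exact hu
      · by_cases h2 : s = k
        · subst h2
          rw [win_up_right hjk, pt_up, pt_up]
          exact Cn.symm' hE hu
        · rw [win_up h1 h2, pt_lo, pt_up]
          exact Cn.symm' hE (hs s h1 h2)
  · intro v hv
    rcases hall v hv with ⟨s, h⟩ | ⟨s, h⟩
    · exact ⟨(s, false), by rw [pt_lo]; exact h⟩
    · exact ⟨(s, true), by rw [pt_up]; exact h⟩

/-- How to prove that a region realises the identity. -/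
theorem Real.of_idd {E : V → V → Prop} (hE : ∀ x y, E x y → E y x) {Rg : Set V} {lo up : S → V}
    (mlo : ∀ s, lo s ∈ Rg) (mup : ∀ s, up s ∈ Rg) (hs : ∀ s, Cn E Rg (lo s) (up s))
    (hall : ∀ v ∈ Rg, ∃ s, Cn E Rg v (lo s)) : Real E Rg lo up idd := by
  refine ⟨mlo, mup, ?_, ?_⟩
  · rintro ⟨s, _ | _⟩
    · simpa [pt, idd] using hs s
    · simpa [pt, idd] using Cn.symm' hE (hs s)
  · intro v hv
    obtain ⟨s, h⟩ := hall v hv
    exact ⟨(s, false), by rw [pt_lo]; exact h⟩

end Pool.Agent.Lib.MP_688fd0_co.SQ5.H22
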