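import Pool.Agent.Lib.MP_688fd0_co.SQ5.H22.Real

/-!
MP_688fd0_co, type C2 (helper22): the T-gadget of a bundle of aligned walls, finding 4274.

`C : Chart V S`: the strands `S` in the blocks `m` (lines of one level): `C.Z m s 0, .., C.Z m s (C.h m s)` is the line of the
strand `s` in block `m` (from the wall white to the wall black). A `Trail`: the hole `B` is at the strand `ω m` in block `m`; the
hole `A` enters block `m` at the vertex `j m` of the line `α m` (sea edge) and leaves it at the vertex `i m` of the line `a m`.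
`Trail.Ok`: the edges of the changed 2-factor `E` in the blocks `n0 .. n`. RESULT (`Trail.Ok.real`): the blocks `n0 .. n`
realise `win (ω n0) (ω (n0 + 1)) σ` with upper pair `{α n, ω n}`.
-/

set_option autoImplicit false

namespace Pool.Agent.Lib.MP_688fd0_co.SQ5.H22

open Function Equiv
open Pool.Agent.Lib.MP_688fd0_co.SQ5.H64

variable {V S : Type*}

/-- The lines of the strands. -/
structure Chart (V S : Type*) where
  Z : ℕ → S → ℕ → V
  h : ℕ → S → ℕ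

/-- The vertices of block `m`. -/
def Chart.blk (C : Chart V S) (m : ℕ) : Set V := {v | ∃ s r, r ≤ C.h m s ∧ v = C.Z m s r}

theorem Chart.mem (C : Chart V S) {m : ℕ} {s : S} {r : ℕ} (h : r ≤ C.h m s) : C.Z m s r ∈ C.blk m := ⟨s, r, h, rfl⟩

/-- The vertices of the blocks `n0 .. n`. -/
def Chart.reg (C : Chart V S) (n0 n : ℕ) : Set V := {v | ∃ m, n0 ≤ m ∧ m ≤ n ∧ v ∈ C.blk m}

theorem Chart.reg_self (C : Chart V S) (n0 : ℕ) : C.reg n0 n0 = C.blk n0 := by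
  ext v
  constructor
  · rintro ⟨m, h1, h2, h3⟩
    have : m = n0 := le_antisymm h2 h1
    rwa [← this]
  · intro h
    exact ⟨n0, le_rfl, le_rfl, h⟩

theorem Chart.reg_succ (C : Chart V S) {n0 n : ℕ} (h : n0 ≤ n + 1) : C.reg n0 (n + 1) = C.reg n0 n ∪ C.blk (n + 1) := by
  ext v
  constructor
  · rintro ⟨m, h1, h2, h3⟩
    rcases Nat.lt_or_ge m (n + 1) with h4 | h4
    · exact Or.inl ⟨m, h1, by omega, h3⟩
    · have : m = n + 1 := by omega
      exact Or.inr (this ▸ h3)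
  · rintro (⟨m, h1, h2, h3⟩ | h3)
    · exact ⟨m, h1, by omega, h3⟩
    · exact ⟨n + 1, h, le_rfl, h3⟩

theorem seg {C : Chart V S} {E : V → V → Prop} {m : ℕ} {s : S} (r : ℕ) : ∀ r' : ℕ, r ≤ r' → r' ≤ C.h m s →
    (∀ t, r ≤ t → t < r' → E (C.Z m s t) (C.Z m s (t + 1))) → Cn E (C.blk m) (C.Z m s r) (C.Z m s r') := by
  intro r'
  induction r' with
  | zero =>
    intro h1 _ _
    have : r = 0 := by omega
    subst this
    exact Cn.rfl' _
  | succ r' ih =>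
    intro h1 h2 h3
    rcases Nat.lt_or_ge r (r' + 1) with h4 | h4
    · refine (ih (by omega) (by omega) (fun t h5 h6 => h3 t h5 (by omega))).trans' ?_
      exact Cn.of (h3 r' (by omega) (by omega)) (C.mem (by omega)) (C.mem h2)
    · have : r = r' + 1 := by omega
      subst this
      exact Cn.rfl' _

/-- The data of a trail. -/
structure Trail (S : Type*) where
  ω : ℕ → S
  α : ℕ → S
  a : ℕ → S
  i : ℕ → ℕ
  j : ℕ → ℕ

/-- The removed edges of the lines: between the vertices `r`, `r + 1` of the line of `s` in block `m`. -/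
def Trail.Cut (T : Trail S) (C : Chart V S) (n0 n m : ℕ) (s : S) (r : ℕ) : Prop :=
  (m = n0 ∧ s = T.ω n0 ∧ r = 0) ∨ (n0 < m ∧ s = T.α m ∧ r = T.j m) ∨
    (n0 < m ∧ m < n ∧ T.j m + 1 = C.h m (T.α m) ∧ s = T.a m ∧ r = 0)

/-- The edges of the new 2-factor `E`, and the wall indices `κ` (flow direction `f`). -/
structure Trail.Ok (T : Trail S) (C : Chart V S) (E : V → V → Prop) (n0 n : ℕ) (κ : ℕ → S → ℤ) (f : ℕ → ℤ) : Prop where
  sym : ∀ x y, E x y → E y x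
  lt : n0 < n
  a0 : T.a n0 = T.ω n0
  i0 : T.i n0 = 1
  line : ∀ m s r, n0 ≤ m → m ≤ n → r < C.h m s → ¬ T.Cut C n0 n m s r → E (C.Z m s r) (C.Z m s (r + 1))
  gate : ∀ m s, n0 ≤ m → m < n → s ≠ T.ω (m + 1) → E (C.Z m s (C.h m s)) (C.Z (m + 1) s 0)
  sea : ∀ m, n0 ≤ m → m < n → E (C.Z m (T.a m) (T.i m)) (C.Z (m + 1) (T.α (m + 1)) (T.j (m + 1)))
  wall : ∀ m, n0 ≤ m → m < n → E (C.Z m (T.ω m) 0) (C.Z m (T.ω (m + 1)) (C.h m (T.ω (m + 1))))
  stp : ∀ m, n0 < m → m < n → (T.j m + 1 < C.h m (T.α m) ∧ T.a m = T.α m ∧ T.i m = T.j m + 1) ∨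
    (T.j m + 1 = C.h m (T.α m) ∧ T.i m = 1 ∧ E (C.Z m (T.a m) 0) (C.Z m (T.α m) (C.h m (T.α m))) ∧
      T.a m ≠ T.ω m ∧ T.ω (m + 1) ≠ T.α m ∧ κ m (T.α m) = κ m (T.a m) - f m)
  end1 : T.j n + 1 = C.h n (T.α n)
  end2 : E (C.Z n (T.ω n) 0) (C.Z n (T.α n) (C.h n (T.α n)))
  end3 : κ n (T.α n) = κ n (T.ω n) - f n
  jpos : ∀ m, n0 < m → m ≤ n → 1 ≤ T.j m ∧ T.j m < C.h m (T.α m)
  ipos : ∀ m, n0 ≤ m → m < n → 1 ≤ T.i m ∧ T.i m ≤ C.h m (T.a m)
  kap : ∀ m s, κ (m + 1) s = κ m s + f m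
  kom : ∀ m, n0 ≤ m → m < n → κ m (T.ω (m + 1)) = κ m (T.ω m) - f m
  kse : ∀ m, n0 ≤ m → m < n →
    (f (m + 1) = f m ∧ κ (m + 1) (T.α (m + 1)) = κ (m + 1) (T.a m) - f (m + 1)) ∨
    (f (m + 1) = - f m ∧ κ (m + 1) (T.α (m + 1)) = κ (m + 1) (T.a m))
  f0 : ∀ m, f m ≠ 0
  /-- the sea edges join different strands -/
  ne : ∀ m, n0 ≤ m → m < n → T.α (m + 1) ≠ T.a m

variable [DecidableEq S]

/-- The strand fed by the sea. -/
def Trail.o (T : Trail S) (m : ℕ) : S := if T.a m = T.ω (m + 1) then T.ω m else T.a m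

/-- The strand which leads to the sea. -/
def Trail.g (T : Trail S) (m : ℕ) : S := if T.α m = T.ω m then T.ω (m + 1) else T.α m

/-- The lower ends of an inner block. -/
def Trail.lo (T : Trail S) (C : Chart V S) (m : ℕ) (s : S) : V :=
  if s = T.ω m then C.Z m (T.α m) (T.j m) else C.Z m s 0

/-- The upper ends of an inner block. -/
def Trail.up (T : Trail S) (C : Chart V S) (m : ℕ) (s : S) : V :=
  if s = T.ω (m + 1) then C.Z m (T.a m) (T.i m) else C.Z m s (C.h m s)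

namespace Trail.Ok

variable {T : Trail S} {C : Chart V S} {E : V → V → Prop} {n0 n : ℕ} {κ : ℕ → S → ℤ} {f : ℕ → ℤ}

omit [DecidableEq S] in
theorem ω_ne (H : T.Ok C E n0 n κ f) {m : ℕ} (h1 : n0 ≤ m) (h2 : m < n) : T.ω (m + 1) ≠ T.ω m := by
  intro h
  have := H.kom m h1 h2
  rw [h] at this
  have := H.f0 m
  omega

theorem lo_mem (H : T.Ok C E n0 n κ f) {m : ℕ} (h1 : n0 < m) (h2 : m ≤ n) (s : S) : T.lo C m s ∈ C.blk m := by
  unfold Trail.lo
  split_ifs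
  · exact C.mem (H.jpos m h1 h2).2.le
  · exact C.mem (Nat.zero_le _)

theorem up_mem (H : T.Ok C E n0 n κ f) {m : ℕ} (h1 : n0 ≤ m) (h2 : m < n) (s : S) : T.up C m s ∈ C.blk m := by
  unfold Trail.up
  split_ifs
  · exact C.mem (H.ipos m h1 h2).2
  · exact C.mem le_rfl

theorem lo_self (T : Trail S) (C : Chart V S) (m : ℕ) : T.lo C m (T.ω m) = C.Z m (T.α m) (T.j m) := by
  simp [Trail.lo]

theorem lo_of_ne {m : ℕ} {s : S} (h : s ≠ T.ω m) : T.lo C m s = C.Z m s 0 := by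
  simp [Trail.lo, h]

theorem up_self (T : Trail S) (C : Chart V S) (m : ℕ) : T.up C m (T.ω (m + 1)) = C.Z m (T.a m) (T.i m) := by
  simp [Trail.up]

theorem up_of_ne {m : ℕ} {s : S} (h : s ≠ T.ω (m + 1)) : T.up C m s = C.Z m s (C.h m s) := by
  simp [Trail.up, h]

omit [DecidableEq S] in
/-- A line without cut. -/
theorem uncut (H : T.Ok C E n0 n κ f) {m : ℕ} (h1 : n0 ≤ m) (h2 : m ≤ n) {s : S} {r r' : ℕ} (h3 : r ≤ r')
    (h4 : r' ≤ C.h m s) (h5 : ∀ t, r ≤ t → t < r' → ¬ T.Cut C n0 n m s t) :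
    Cn E (C.blk m) (C.Z m s r) (C.Z m s r') :=
  seg r r' h3 h4 fun t h6 h7 => H.line m s t h1 h2 (by omega) (h5 t h6 h7)

omit [DecidableEq S] in
/-- The wall edge of the hole `B`. -/
theorem cwall (H : T.Ok C E n0 n κ f) {m : ℕ} (h1 : n0 ≤ m) (h2 : m < n) :
    Cn E (C.blk m) (C.Z m (T.ω (m + 1)) (C.h m (T.ω (m + 1)))) (C.Z m (T.ω m) 0) :=
  Cn.of (H.sym _ _ (H.wall m h1 h2)) (C.mem le_rfl) (C.mem (Nat.zero_le _))

/-! ### The first block -/

theorem first (H : T.Ok C E n0 n κ f) :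
    Real E (C.blk n0) (fun s => C.Z n0 s 0) (T.up C n0) (win (T.ω n0) (T.ω (n0 + 1)) 1) := by
  have hlt := H.lt
  have hne := (H.ω_ne le_rfl hlt).symm
  have cut : ∀ s r, T.Cut C n0 n n0 s r → s = T.ω n0 ∧ r = 0 := by
    rintro s r (⟨_, h1, h2⟩ | ⟨h1, _⟩ | ⟨h1, _⟩)
    · exact ⟨h1, h2⟩
    · omega
    · omega
  have hx : ∀ r r', 1 ≤ r → r ≤ r' → r' ≤ C.h n0 (T.ω n0) → Cn E (C.blk n0) (C.Z n0 (T.ω n0) r) (C.Z n0 (T.ω n0) r') :=
    fun r r' h1 h2 h3 => H.uncut le_rfl hlt.le h2 h3 fun t h4 _ h6 => by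
      have := (cut _ _ h6).2
      omega
  have hs : ∀ s, s ≠ T.ω n0 → ∀ r r', r ≤ r' → r' ≤ C.h n0 s → Cn E (C.blk n0) (C.Z n0 s r) (C.Z n0 s r') :=
    fun s h1 r r' h2 h3 => H.uncut le_rfl hlt.le h2 h3 fun t _ _ h6 => h1 (cut _ _ h6).1
  have hip : 1 ≤ C.h n0 (T.ω n0) := by
    have := H.ipos n0 le_rfl hlt
    rw [H.a0, H.i0] at this
    exact this.2
  refine Real.of_win H.sym hne 1 (fun s => C.mem (Nat.zero_le _)) (fun s => H.up_mem le_rfl hlt s) ?_ ?_ ?_ ?_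
  · refine Cn.symm' H.sym ((hs _ hne.symm 0 _ (Nat.zero_le _) le_rfl).trans' ?_)
    exact H.cwall le_rfl hlt
  · rw [Perm.one_apply, Perm.one_apply, up_self, up_of_ne hne, H.a0, H.i0]
    exact Cn.symm' H.sym (hx 1 _ le_rfl hip le_rfl)
  · intro s h1 h2
    rw [Perm.one_apply, up_of_ne h2]
    exact hs s h1 0 _ (Nat.zero_le _) le_rfl
  · rintro v ⟨s, r, hr, rfl⟩
    by_cases h1 : s = T.ω n0
    · subst h1
      rcases Nat.eq_zero_or_pos r with h2 | h2
      · subst h2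
        exact Or.inl ⟨T.ω n0, Cn.rfl' _⟩
      · refine Or.inr ⟨T.ω n0, ?_⟩
        rw [up_of_ne hne]
        exact hx r _ h2 hr le_rfl
    · exact Or.inl ⟨s, Cn.symm' H.sym (hs s h1 0 r (Nat.zero_le _) hr)⟩

/-! ### The last block -/

theorem last (H : T.Ok C E n0 n κ f) :
    Real E (C.blk n) (T.lo C n) (fun s => C.Z n s (C.h n s)) (win (T.ω n) (T.α n) 1) := by
  have hlt := H.lt
  have e1 := H.end1
  have e3 := H.end3
  have hf := H.f0 n
  have hj := H.jpos n hlt le_rfl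
  have hne : T.ω n ≠ T.α n := by
    intro h
    rw [← h] at e3
    omega
  have cut : ∀ s r, T.Cut C n0 n n s r → s = T.α n ∧ r = T.j n := by
    rintro s r (⟨h1, _⟩ | ⟨_, h1, h2⟩ | ⟨_, h1, _⟩)
    · omega
    · exact ⟨h1, h2⟩
    · omega
  have hs : ∀ s, s ≠ T.α n → ∀ r r', r ≤ r' → r' ≤ C.h n s → Cn E (C.blk n) (C.Z n s r) (C.Z n s r') :=
    fun s h1 r r' h2 h3 => H.uncut hlt.le le_rfl h2 h3 fun t _ _ h6 => h1 (cut _ _ h6).1
  have hα : ∀ r r', r ≤ r' → r' ≤ T.j n → Cn E (C.blk n) (C.Z n (T.α n) r) (C.Z n (T.α n) r') :=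
    fun r r' h2 h3 => H.uncut hlt.le le_rfl h2 (by omega) fun t _ h5 h6 => by
      have := (cut _ _ h6).2
      omega
  refine Real.of_win H.sym hne 1 (fun s => H.lo_mem hlt le_rfl s) (fun s => C.mem le_rfl) ?_ ?_ ?_ ?_
  · rw [lo_self, lo_of_ne hne.symm]
    exact Cn.symm' H.sym (hα 0 _ (Nat.zero_le _) le_rfl)
  · rw [Perm.one_apply, Perm.one_apply]
    refine Cn.symm' H.sym (Cn.trans' ?_ (hs _ hne 0 _ (Nat.zero_le _) le_rfl))
    exact Cn.of (H.sym _ _ H.end2) (C.mem le_rfl) (C.mem (Nat.zero_le _))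
  · intro s h1 h2
    rw [Perm.one_apply, lo_of_ne h1]
    exact hs s h2 0 _ (Nat.zero_le _) le_rfl
  · rintro v ⟨s, r, hr, rfl⟩
    by_cases h1 : s = T.α n
    · subst h1
      rcases Nat.lt_or_ge (T.j n) r with h2 | h2
      · have : r = C.h n (T.α n) := by omega
        subst this
        exact Or.inr ⟨T.α n, Cn.rfl' _⟩
      · refine Or.inl ⟨T.ω n, ?_⟩
        rw [lo_self]
        exact hα r _ h2 le_rfl
    · exact Or.inr ⟨s, hs s h1 r _ hr le_rfl⟩

/-! ### The inner blocks -/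

/-- Block without wall step of `A`. -/
theorem midN (H : T.Ok C E n0 n κ f) {m : ℕ} (h1 : n0 < m) (h2 : m < n) (hj : T.j m + 1 < C.h m (T.α m))
    (ha : T.a m = T.α m) (hi : T.i m = T.j m + 1) :
    Real E (C.blk m) (T.lo C m) (T.up C m) (win (T.ω m) (T.g m) (swap (T.ω m) (T.ω (m + 1)))) ∧
      swap (T.ω m) (T.ω (m + 1)) (T.g m) = T.o m ∧ T.g m ≠ T.ω m := by
  have hw : T.ω (m + 1) ≠ T.ω m := H.ω_ne h1.le h2
  have cut : ∀ s r, T.Cut C n0 n m s r → s = T.α m ∧ r = T.j m := by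
    rintro s r (⟨h3, _⟩ | ⟨_, h3, h4⟩ | ⟨_, _, h3, _⟩)
    · omega
    · exact ⟨h3, h4⟩
    · omega
  have hs : ∀ s, s ≠ T.α m → ∀ r r', r ≤ r' → r' ≤ C.h m s → Cn E (C.blk m) (C.Z m s r) (C.Z m s r') :=
    fun s h1' r r' h2' h3 => H.uncut h1.le h2.le h2' h3 fun t _ _ h6 => h1' (cut _ _ h6).1
  have hα : ∀ r r', r ≤ r' → r' ≤ T.j m → Cn E (C.blk m) (C.Z m (T.α m) r) (C.Z m (T.α m) r') :=
    fun r r' h2' h3 => H.uncut h1.le h2.le h2' (by omega) fun t _ h5 h6 => by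
      have := (cut _ _ h6).2
      omega
  have hα' : ∀ r r', T.j m < r → r ≤ r' → r' ≤ C.h m (T.α m) → Cn E (C.blk m) (C.Z m (T.α m) r) (C.Z m (T.α m) r') :=
    fun r r' h0 h2' h3 => H.uncut h1.le h2.le h2' h3 fun t h5 _ h6 => by
      have := (cut _ _ h6).2
      omega
  have hall : ∀ v ∈ C.blk m, (∃ s, Cn E (C.blk m) v (T.lo C m s)) ∨ ∃ s, Cn E (C.blk m) v (T.up C m s) := by
    rintro v ⟨s, r, hr, rfl⟩
    by_cases h3 : s = T.α m
    · subst h3
      rcases Nat.lt_or_ge (T.j m) r with h4 | h4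
      · refine Or.inr ⟨T.ω (m + 1), ?_⟩
        rw [up_self, ha, hi]
        exact Cn.symm' H.sym (hα' _ r (by omega) (by omega) hr)
      · refine Or.inl ⟨T.ω m, ?_⟩
        rw [lo_self]
        exact hα r _ h4 le_rfl
    · by_cases h4 : s = T.ω (m + 1)
      · refine Or.inl ⟨s, ?_⟩
        rw [lo_of_ne (by rw [h4]; exact hw)]
        exact Cn.symm' H.sym (hs s h3 0 r (Nat.zero_le _) hr)
      · refine Or.inr ⟨s, ?_⟩
        rw [up_of_ne h4]
        exact hs s h3 r _ hr le_rfl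
  by_cases hαω : T.α m = T.ω m
  · have hg : T.g m = T.ω (m + 1) := by simp [Trail.g, hαω]
    have ho : T.o m = T.ω m := by
      have : T.a m ≠ T.ω (m + 1) := by rw [ha, hαω]; exact hw.symm
      simp only [Trail.o, if_neg this]
      rw [ha, hαω]
    have hωα : T.ω (m + 1) ≠ T.α m := by rw [hαω]; exact hw
    rw [hg, ho]
    refine ⟨Real.of_win H.sym hw.symm _ (fun s => H.lo_mem h1 h2.le s) (fun s => H.up_mem h1.le h2 s) ?_ ?_ ?_ hall,
      swap_apply_right _ _, hw⟩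
    · rw [lo_self, lo_of_ne hw]
      refine Cn.symm' H.sym ((hs _ hωα 0 _ (Nat.zero_le _) le_rfl).trans' ((H.cwall h1.le h2).trans' ?_))
      rw [← hαω]
      exact hα 0 _ (Nat.zero_le _) le_rfl
    · rw [swap_apply_left, swap_apply_right, up_self, up_of_ne hw.symm, ha, hi, ← hαω]
      exact hα' _ _ (by omega) (by omega) le_rfl
    · intro s h3 h4
      rw [swap_apply_of_ne_of_ne h3 h4, lo_of_ne h3, up_of_ne h4]
      exact hs s (by rw [hαω]; exact h3) 0 _ (Nat.zero_le _) le_rfl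
  · have hg : T.g m = T.α m := by simp [Trail.g, hαω]
    rw [hg]
    refine ⟨Real.of_win H.sym (Ne.symm hαω) _ (fun s => H.lo_mem h1 h2.le s) (fun s => H.up_mem h1.le h2 s) ?_ ?_ ?_ hall,
      ?_, hαω⟩
    · rw [lo_self, lo_of_ne hαω]
      exact Cn.symm' H.sym (hα 0 _ (Nat.zero_le _) le_rfl)
    · rw [swap_apply_left, up_self, ha, hi]
      by_cases h3 : T.α m = T.ω (m + 1)
      · rw [h3, swap_apply_right, up_of_ne hw.symm, ← h3]
        refine (hα' _ _ (by omega) (by omega) le_rfl).trans' ?_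
        have h4 := H.cwall h1.le h2
        rw [← h3] at h4
        exact h4.trans' (hs _ (Ne.symm hαω) 0 _ (Nat.zero_le _) le_rfl)
      · rw [swap_apply_of_ne_of_ne hαω h3, up_of_ne h3]
        exact hα' _ _ (by omega) (by omega) le_rfl
    · intro s h3 h4
      rw [lo_of_ne h3]
      by_cases h5 : s = T.ω (m + 1)
      · subst h5
        rw [swap_apply_right, up_of_ne hw.symm]
        exact (hs _ h4 0 _ (Nat.zero_le _) le_rfl).trans' ((H.cwall h1.le h2).trans'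
          (hs _ (Ne.symm hαω) 0 _ (Nat.zero_le _) le_rfl))
      · rw [swap_apply_of_ne_of_ne h3 h5, up_of_ne h5]
        exact hs s h4 0 _ (Nat.zero_le _) le_rfl
    · by_cases h3 : T.α m = T.ω (m + 1)
      · rw [h3, swap_apply_right]
        simp [Trail.o, ha, h3]
      · rw [swap_apply_of_ne_of_ne hαω h3]
        simp [Trail.o, ha, h3]

/-- Block with wall step of `A`. -/
theorem midW (H : T.Ok C E n0 n κ f) {m : ℕ} (h1 : n0 < m) (h2 : m < n) (hj : T.j m + 1 = C.h m (T.α m))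
    (hi : T.i m = 1) (hE : E (C.Z m (T.a m) 0) (C.Z m (T.α m) (C.h m (T.α m)))) (haω : T.a m ≠ T.ω m)
    (hωα : T.ω (m + 1) ≠ T.α m) (hk : κ m (T.α m) = κ m (T.a m) - f m) :
    ∃ τ : Perm S, τ (T.ω m) = T.ω (m + 1) ∧ τ (T.g m) = T.o m ∧ T.g m ≠ T.ω m ∧
      (∀ s, s ≠ T.ω m → s ≠ T.ω (m + 1) → s ≠ T.α m → s ≠ T.a m → τ s = s) ∧
      Real E (C.blk m) (T.lo C m) (T.up C m) (win (T.ω m) (T.g m) τ) := by
  have hw : T.ω (m + 1) ≠ T.ω m := H.ω_ne h1.le h2
  have hf := H.f0 m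
  have hko := H.kom m h1.le h2
  have hip := H.ipos m h1.le h2
  have haα : T.a m ≠ T.α m := by
    intro h
    rw [h] at hk
    omega
  have cut : ∀ s r, T.Cut C n0 n m s r → (s = T.α m ∧ r = T.j m) ∨ (s = T.a m ∧ r = 0) := by
    rintro s r (⟨h3, _⟩ | ⟨_, h3, h4⟩ | ⟨_, _, _, h3, h4⟩)
    · omega
    · exact Or.inl ⟨h3, h4⟩
    · exact Or.inr ⟨h3, h4⟩
  have hs : ∀ s, s ≠ T.α m → s ≠ T.a m → ∀ r r', r ≤ r' → r' ≤ C.h m s →
      Cn E (C.blk m) (C.Z m s r) (C.Z m s r') :=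
    fun s h1' h1'' r r' h2' h3 => H.uncut h1.le h2.le h2' h3 fun t _ _ h6 => by
      rcases cut _ _ h6 with h7 | h7
      · exact h1' h7.1
      · exact h1'' h7.1
  have hα : ∀ r r', r ≤ r' → r' ≤ T.j m → Cn E (C.blk m) (C.Z m (T.α m) r) (C.Z m (T.α m) r') :=
    fun r r' h2' h3 => H.uncut h1.le h2.le h2' (by omega) fun t _ h5 h6 => by
      rcases cut _ _ h6 with h7 | h7
      · have := h7.2
        omega
      · exact haα h7.1.symm
  have hβ : ∀ r r', 1 ≤ r → r ≤ r' → r' ≤ C.h m (T.a m) → Cn E (C.blk m) (C.Z m (T.a m) r) (C.Z m (T.a m) r') :=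
    fun r r' h0 h2' h3 => H.uncut h1.le h2.le h2' h3 fun t h5 _ h6 => by
      rcases cut _ _ h6 with h7 | h7
      · exact haα h7.1
      · have := h7.2
        omega
  have hwa : Cn E (C.blk m) (C.Z m (T.a m) 0) (C.Z m (T.α m) (C.h m (T.α m))) :=
    Cn.of hE (C.mem (Nat.zero_le _)) (C.mem le_rfl)
  have hupα : T.up C m (T.α m) = C.Z m (T.α m) (C.h m (T.α m)) := up_of_ne (Ne.symm hωα)
  have hall : ∀ v ∈ C.blk m, (∃ s, Cn E (C.blk m) v (T.lo C m s)) ∨ ∃ s, Cn E (C.blk m) v (T.up C m s) := by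
    rintro v ⟨s, r, hr, rfl⟩
    by_cases h3 : s = T.α m
    · subst h3
      rcases Nat.lt_or_ge (T.j m) r with h4 | h4
      · have h5 : r = C.h m (T.α m) := by omega
        refine Or.inr ⟨T.α m, ?_⟩
        rw [hupα, h5]
        exact Cn.rfl' _
      · refine Or.inl ⟨T.ω m, ?_⟩
        rw [lo_self]
        exact hα r _ h4 le_rfl
    · by_cases h4 : s = T.a m
      · subst h4
        rcases Nat.eq_zero_or_pos r with h5 | h5
        · subst h5
          refine Or.inr ⟨T.α m, ?_⟩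
          rw [hupα]
          exact hwa
        · refine Or.inr ⟨T.ω (m + 1), ?_⟩
          rw [up_self, hi]
          exact Cn.symm' H.sym (hβ 1 r le_rfl h5 hr)
      · by_cases h5 : s = T.ω (m + 1)
        · refine Or.inl ⟨s, ?_⟩
          rw [lo_of_ne (by rw [h5]; exact hw)]
          exact Cn.symm' H.sym (hs s h3 h4 0 r (Nat.zero_le _) hr)
        · refine Or.inr ⟨s, ?_⟩
          rw [up_of_ne h5]
          exact hs s h3 h4 r _ hr le_rfl
  have hi1 : 1 ≤ C.h m (T.a m) := by omega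
  by_cases hαω : T.α m = T.ω m
  · have hg : T.g m = T.ω (m + 1) := by simp [Trail.g, hαω]
    have haω' : T.a m ≠ T.ω (m + 1) := by
      intro h
      rw [← h] at hko
      rw [hαω] at hk
      omega
    have ho : T.o m = T.a m := by simp [Trail.o, haω']
    rw [hg, ho]
    have t1 : (swap (T.ω m) (T.a m) * swap (T.ω m) (T.ω (m + 1))) (T.ω m) = T.ω (m + 1) := by
      rw [Perm.mul_apply, swap_apply_left, swap_apply_of_ne_of_ne hw haω'.symm]
    have t2 : (swap (T.ω m) (T.a m) * swap (T.ω m) (T.ω (m + 1))) (T.ω (m + 1)) = T.a m := by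
      rw [Perm.mul_apply, swap_apply_right, swap_apply_left]
    refine ⟨swap (T.ω m) (T.a m) * swap (T.ω m) (T.ω (m + 1)), t1, t2, hw, fun s a1 a2 _ a4 => by
        rw [Perm.mul_apply, swap_apply_of_ne_of_ne a1 a2, swap_apply_of_ne_of_ne a1 a4],
      Real.of_win H.sym hw.symm _ (fun s => H.lo_mem h1 h2.le s) (fun s => H.up_mem h1.le h2 s) ?_ ?_ ?_ hall⟩
    · rw [lo_self, lo_of_ne hw]
      refine Cn.symm' H.sym ((hs _ hωα haω'.symm 0 _ (Nat.zero_le _) le_rfl).trans' ((H.cwall h1.le h2).trans' ?_))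
      rw [← hαω]
      exact hα 0 _ (Nat.zero_le _) le_rfl
    · rw [t1, t2, up_self, up_of_ne haω', hi]
      exact hβ 1 _ le_rfl hi1 le_rfl
    · intro s h3 h4
      rw [lo_of_ne h3]
      by_cases h5 : s = T.a m
      · have t3 : (swap (T.ω m) (T.a m) * swap (T.ω m) (T.ω (m + 1))) s = T.α m := by
          rw [Perm.mul_apply, swap_apply_of_ne_of_ne h3 h4, h5, swap_apply_right, hαω]
        rw [t3, hupα, h5]
        exact hwa
      · rw [Perm.mul_apply, swap_apply_of_ne_of_ne h3 h4, swap_apply_of_ne_of_ne h3 h5, up_of_ne h4]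
        exact hs s (by rw [hαω]; exact h3) h5 0 _ (Nat.zero_le _) le_rfl
  · have hg : T.g m = T.α m := by simp [Trail.g, hαω]
    rw [hg]
    have t1 : (swap (T.ω m) (T.ω (m + 1)) * swap (T.α m) (T.a m)) (T.ω m) = T.ω (m + 1) := by
      rw [Perm.mul_apply, swap_apply_of_ne_of_ne (Ne.symm hαω) haω.symm, swap_apply_left]
    have t2 : (swap (T.ω m) (T.ω (m + 1)) * swap (T.α m) (T.a m)) (T.α m) = T.o m := by
      rw [Perm.mul_apply, swap_apply_left]
      by_cases h3 : T.a m = T.ω (m + 1)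
      · rw [h3, swap_apply_right]
        simp [Trail.o, h3]
      · rw [swap_apply_of_ne_of_ne haω h3]
        simp [Trail.o, h3]
    refine ⟨swap (T.ω m) (T.ω (m + 1)) * swap (T.α m) (T.a m), t1, t2, hαω, fun s a1 a2 a3 a4 => by
        rw [Perm.mul_apply, swap_apply_of_ne_of_ne a3 a4, swap_apply_of_ne_of_ne a1 a2],
      Real.of_win H.sym (Ne.symm hαω) _ (fun s => H.lo_mem h1 h2.le s) (fun s => H.up_mem h1.le h2 s) ?_ ?_ ?_ hall⟩
    · rw [lo_self, lo_of_ne hαω]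
      exact Cn.symm' H.sym (hα 0 _ (Nat.zero_le _) le_rfl)
    · rw [t1, t2, up_self, hi]
      by_cases h3 : T.a m = T.ω (m + 1)
      · have ho : T.o m = T.ω m := by simp [Trail.o, h3]
        rw [ho, up_of_ne hw.symm]
        refine (hβ 1 _ le_rfl hi1 le_rfl).trans' ?_
        have h4 := H.cwall h1.le h2
        rw [← h3] at h4
        exact h4.trans' (hs _ (Ne.symm hαω) haω.symm 0 _ (Nat.zero_le _) le_rfl)
      · have ho : T.o m = T.a m := by simp [Trail.o, h3]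
        rw [ho, up_of_ne h3]
        exact hβ 1 _ le_rfl hi1 le_rfl
    · intro s h3 h4
      rw [lo_of_ne h3]
      by_cases h5 : s = T.a m
      · have t3 : (swap (T.ω m) (T.ω (m + 1)) * swap (T.α m) (T.a m)) s = T.α m := by
          rw [Perm.mul_apply, h5, swap_apply_right, swap_apply_of_ne_of_ne hαω (Ne.symm hωα)]
        rw [t3, hupα, h5]
        exact hwa
      · rw [Perm.mul_apply, swap_apply_of_ne_of_ne h4 h5]
        by_cases h6 : s = T.ω (m + 1)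
        · subst h6
          rw [swap_apply_right, up_of_ne hw.symm]
          exact (hs _ h4 h5 0 _ (Nat.zero_le _) le_rfl).trans' ((H.cwall h1.le h2).trans'
            (hs _ (Ne.symm hαω) haω.symm 0 _ (Nat.zero_le _) le_rfl))
        · rw [swap_apply_of_ne_of_ne h3 h6, up_of_ne h6]
          exact hs s h4 h5 0 _ (Nat.zero_le _) le_rfl

theorem mid (H : T.Ok C E n0 n κ f) {m : ℕ} (h1 : n0 < m) (h2 : m < n) :
    ∃ τ : Perm S, τ (T.ω m) = T.ω (m + 1) ∧ τ (T.g m) = T.o m ∧ T.g m ≠ T.ω m ∧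
      (∀ s, s ≠ T.ω m → s ≠ T.ω (m + 1) → s ≠ T.α m → s ≠ T.a m → τ s = s) ∧
      Real E (C.blk m) (T.lo C m) (T.up C m) (win (T.ω m) (T.g m) τ) := by
  rcases H.stp m h1 h2 with ⟨h3, h4, h5⟩ | ⟨h3, h4, h5, h6, h7, h8⟩
  · obtain ⟨h6, h7, h8⟩ := H.midN h1 h2 h3 h4 h5
    exact ⟨_, swap_apply_left _ _, h7, h8, fun s a1 a2 _ _ => swap_apply_of_ne_of_ne a1 a2, h6⟩
  · exact H.midW h1 h2 h3 h4 h5 h6 h7 h8

/-! ### No loops -/

theorem o_ne (H : T.Ok C E n0 n κ f) {m : ℕ} (h1 : n0 ≤ m) (h2 : m + 1 < n) : T.g (m + 1) ≠ T.o m := by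
  have e1 := H.kse m h1 (by omega)
  have e2 := H.kom m h1 (by omega)
  have e3 := H.kom (m + 1) (by omega) h2
  have e4 := H.ne m h1 (by omega)
  have f1 := H.f0 m
  have f2 := H.f0 (m + 1)
  have k1 := H.kap m (T.ω m)
  have k2 := H.kap m (T.ω (m + 1))
  intro h
  unfold Trail.g Trail.o at h
  split_ifs at h with h3 h4 h4
  · exact e4 (h3.trans h4.symm)
  · rw [h] at e3
    rw [h3] at e1
    rcases e1 with ⟨e5, e6⟩ | ⟨e5, e6⟩ <;> omega
  · rw [h4] at e1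
    rw [h] at e1
    rcases e1 with ⟨e5, e6⟩ | ⟨e5, e6⟩ <;> omega
  · exact e4 h

theorem o_ne_last (H : T.Ok C E n0 n κ f) {m : ℕ} (h1 : n0 ≤ m) (h2 : m + 1 = n) : T.α n ≠ T.o m := by
  subst h2
  have e1 := H.kse m h1 (by omega)
  have e2 := H.kom m h1 (by omega)
  have e3 := H.end3
  have e4 := H.ne m h1 (by omega)
  have f1 := H.f0 m
  have f2 := H.f0 (m + 1)
  have k1 := H.kap m (T.ω m)
  have k2 := H.kap m (T.ω (m + 1))
  intro h
  unfold Trail.o at h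
  split_ifs at h with h4
  · rw [h4] at e1
    rw [h] at e1
    rcases e1 with ⟨e5, e6⟩ | ⟨e5, e6⟩ <;> omega
  · exact e4 h

/-! ### The stack -/

theorem glue (H : T.Ok C E n0 n κ f) {m : ℕ} (h1 : n0 ≤ m) (h2 : m < n) (s : S) :
    E (T.up C m s) (T.lo C (m + 1) s) := by
  by_cases h : s = T.ω (m + 1)
  · subst h
    rw [up_self, lo_self]
    exact H.sea m h1 h2
  · rw [up_of_ne h, lo_of_ne h]
    exact H.gate m s h1 h2 h

/-- A set which contains all strands of the trail. -/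
structure Sup (T : Trail S) (A : Set S) (n0 n : ℕ) : Prop where
  ω : ∀ m, n0 ≤ m → m ≤ n → T.ω m ∈ A
  α : ∀ m, n0 < m → m ≤ n → T.α m ∈ A
  a : ∀ m, n0 ≤ m → m < n → T.a m ∈ A

theorem part [Finite S] (H : T.Ok C E n0 n κ f) {A : Set S} (hA : Sup T A n0 n) : ∀ d : ℕ, n0 + d < n → ∃ σ : Perm S,
    (∀ s, s ∉ A → σ s = s) ∧ σ (T.ω n0) = T.o (n0 + d) ∧ σ (T.ω (n0 + 1)) = T.ω (n0 + d + 1) ∧
    Real E (C.reg n0 (n0 + d)) (fun s => C.Z n0 s 0) (T.up C (n0 + d)) (win (T.ω n0) (T.ω (n0 + 1)) σ) := by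
  have hne : T.ω n0 ≠ T.ω (n0 + 1) := (H.ω_ne le_rfl H.lt).symm
  have neA : ∀ {s t : S}, s ∉ A → t ∈ A → s ≠ t := fun hs ht h => hs (h ▸ ht)
  have ho : ∀ m, n0 ≤ m → m < n → T.o m ∈ A := by
    intro m h1 h2
    unfold Trail.o
    split_ifs
    · exact hA.ω m h1 h2.le
    · exact hA.a m h1 h2
  have hgA : ∀ m, n0 < m → m < n → T.g m ∈ A := by
    intro m h1 h2
    unfold Trail.g
    split_ifs
    · exact hA.ω (m + 1) (by omega) h2
    · exact hA.α m h1 h2.le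
  intro d
  induction d with
  | zero =>
    intro _
    refine ⟨1, fun s _ => rfl, ?_, rfl, ?_⟩
    · rw [Perm.one_apply]
      change _ = T.o n0
      rw [Trail.o, H.a0, if_neg hne]
    · change Real E (C.reg n0 n0) _ (T.up C n0) _
      rw [C.reg_self]
      exact H.first
  | succ d ih =>
    intro hd
    obtain ⟨σ, s0, s1, s2, s3⟩ := ih (by omega)
    obtain ⟨τ, t1, t2, t3, t0, t4⟩ := H.mid (m := n0 + d + 1) (by omega) (by omega)
    have h1 : T.g (n0 + d + 1) ≠ σ (T.ω n0) := by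
      rw [s1]
      exact H.o_ne (by omega) (by omega)
    have h2 : T.g (n0 + d + 1) ≠ σ (T.ω (n0 + 1)) := by
      rw [s2]
      exact t3
    have h3 : σ (T.ω n0) ≠ σ (T.ω (n0 + 1)) := fun h => hne (σ.injective h)
    have h5 : ∀ s, s ∉ A → (τ * swap (σ (T.ω n0)) (T.g (n0 + d + 1)) * σ) s = s := by
      intro s hs
      have e1 : s ≠ σ (T.ω n0) := neA hs (s1 ▸ ho _ (by omega) (by omega))
      have e2 : s ≠ T.g (n0 + d + 1) := neA hs (hgA (n0 + d + 1) (by omega) hd)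
      rw [Perm.mul_apply, s0 s hs, Perm.mul_apply, swap_apply_of_ne_of_ne e1 e2]
      exact t0 s (neA hs (hA.ω (n0 + d + 1) (by omega) (by omega))) (neA hs (hA.ω (n0 + d + 1 + 1) (by omega) hd))
        (neA hs (hA.α (n0 + d + 1) (by omega) (by omega))) (neA hs (hA.a (n0 + d + 1) (by omega) hd))
    rw [← s2] at t1 t4
    refine ⟨τ * swap (σ (T.ω n0)) (T.g (n0 + d + 1)) * σ, h5, ?_, ?_, ?_⟩
    · rw [Perm.mul_apply, Perm.mul_apply, swap_apply_left, t2]
      rfl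
    · rw [Perm.mul_apply, Perm.mul_apply, swap_apply_of_ne_of_ne h3.symm h2.symm, t1]
      rfl
    · rw [← stk_win hne h1 h2]
      change Real E (C.reg n0 (n0 + d + 1)) _ (T.up C (n0 + d + 1)) _
      rw [C.reg_succ (by omega)]
      exact Real.stack H.sym (win_pair hne σ) (win_pair h2.symm τ) s3 t4 (fun s => H.glue (by omega) (by omega) s)
        (noLoop_win hne h1 h2)

/-- THE T-GADGET. -/
theorem real [Finite S] (H : T.Ok C E n0 n κ f) {A : Set S} (hA : Sup T A n0 n) : ∃ σ : Perm S,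
    (∀ s, s ∉ A → σ s = s) ∧ σ (T.ω n0) = T.α n ∧ σ (T.ω (n0 + 1)) = T.ω n ∧
    Real E (C.reg n0 n) (fun s => C.Z n0 s 0) (fun s => C.Z n s (C.h n s)) (win (T.ω n0) (T.ω (n0 + 1)) σ) := by
  have hlt := H.lt
  obtain ⟨d, hd⟩ : ∃ d, n = n0 + d + 1 := ⟨n - n0 - 1, by omega⟩
  have hne : T.ω n0 ≠ T.ω (n0 + 1) := (H.ω_ne le_rfl H.lt).symm
  have neA : ∀ {s t : S}, s ∉ A → t ∈ A → s ≠ t := fun hs ht h => hs (h ▸ ht)
  obtain ⟨σ, s0, s1, s2, s3⟩ := H.part hA d (by omega)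
  have t4 := H.last
  have e3 := H.end3
  have f2 := H.f0 n
  have h0 : T.α n ≠ T.ω n := by
    intro h
    rw [h] at e3
    omega
  have h1 : T.α n ≠ σ (T.ω n0) := by
    rw [s1]
    exact H.o_ne_last (by omega) hd.symm
  have h2 : T.α n ≠ σ (T.ω (n0 + 1)) := by
    rw [s2, ← hd]
    exact h0
  have h3 : σ (T.ω n0) ≠ σ (T.ω (n0 + 1)) := fun h => hne (σ.injective h)
  have h4 : T.ω n = σ (T.ω (n0 + 1)) := by rw [s2, hd]
  have h6 : σ (T.ω n0) ∈ A := by
    by_contra hc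
    have h7 := σ.injective (s0 _ hc)
    rw [h7] at hc
    exact hc (hA.ω n0 le_rfl hlt.le)
  rw [h4] at t4
  refine ⟨1 * swap (σ (T.ω n0)) (T.α n) * σ, fun s hs => ?_, ?_, ?_, ?_⟩
  · rw [one_mul, Perm.mul_apply, s0 s hs, swap_apply_of_ne_of_ne (neA hs h6) (neA hs (hA.α n hlt le_rfl))]
  · rw [one_mul, Perm.mul_apply, swap_apply_left]
  · rw [one_mul, Perm.mul_apply, swap_apply_of_ne_of_ne h3.symm h2.symm, h4]
  · rw [← stk_win hne h1 h2]
    have h5 : C.reg n0 n = C.reg n0 (n0 + d) ∪ C.blk n := by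
      rw [hd]
      exact C.reg_succ (by omega)
    rw [h5]
    refine Real.stack H.sym (win_pair hne σ) (win_pair h2.symm 1) s3 t4 (fun s => ?_) (noLoop_win hne h1 h2)
    have := H.glue (m := n0 + d) (by omega) (by omega) s
    rwa [← hd] at this

end Trail.Ok

end Pool.Agent.Lib.MP_688fd0_co.SQ5.H22
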