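import Pool.Agent.Lib.MP_688fd0_co.SQ5.H22.Hfp
import Pool.Agent.Lib.MP_688fd0_co.SQ5.H22.Trail

/-!
MP_688fd0_co, type C2 (helper22): the T-gadget in the Cayley graph of three involutive letters.

`Rn T P C E`: `P` is a perfect matching and `C` an injective chart of the strands of the complement of `P` in the blocks
`0 .. E`. `Gd`: the trail of the two holes from the rung at block `n0` to the cup at block `n`. RESULTS: path families of the
blocks `n0 .. n`, for the unchanged matching (`Rn.idd`) and for the gadget (`Gd.pfam`).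
-/

set_option autoImplicit false

namespace Pool.Agent.Lib.MP_688fd0_co.SQ5.H22

open Function Equiv
open Pool.Agent.Lib.MP_688fd0_co.OSF Pool.Agent.Lib.MP_688fd0_co.SQ2 Pool.Agent.Lib.MP_688fd0_co.SQ3
open Pool.Agent.Lib.MP_688fd0_co.SQ5.H64 Pool.Agent.Lib.MP_688fd0_co.SQ5.H95

universe u v

variable {Q : Type u} [Group Q] {B : Lb.{u, v} Q} {S : Type*}

/-- The strands of the complement of a matching in the blocks `0 .. E`. -/
structure Rn (T : Tri B) (P : Q → Q) (C : Chart Q S) (E : ℕ) : Prop where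
  mch : T.Mch P
  hpos : ∀ m s, m ≤ E → 1 ≤ C.h m s
  inj : ∀ m s r m' s' r', m ≤ E → m' ≤ E → r ≤ C.h m s → r' ≤ C.h m' s' → C.Z m s r = C.Z m' s' r' →
    m = m' ∧ s = s' ∧ r = r'
  line : ∀ m s r, m ≤ E → r < C.h m s → T.Adj (C.Z m s r) (C.Z m s (r + 1)) ∧ P (C.Z m s r) ≠ C.Z m s (r + 1)
  gate : ∀ m s, m < E → T.Adj (C.Z m s (C.h m s)) (C.Z (m + 1) s 0) ∧ P (C.Z m s (C.h m s)) ≠ C.Z (m + 1) s 0

/-- The outer vertices of the ports of the blocks `n0 .. n`. -/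
def prt (C : Chart Q S) (n0 n : ℕ) (p : S × Bool) : Q :=
  if p.2 = true then C.Z (n + 1) p.1 0 else C.Z (n0 - 1) p.1 (C.h (n0 - 1) p.1)

namespace Rn

variable {T : Tri B} {P : Q → Q} {C : Chart Q S} {E : ℕ}

/-- A changed matching on the blocks `n0 .. n`. -/
structure In (C : Chart Q S) (n0 n : ℕ) (N : Q → Q → Prop) : Prop where
  reg : ∀ x y, N x y → x ∈ C.reg n0 n

/-- The neighbours of a vertex of the run. -/
theorem nbr (H : Rn T P C E) {n0 n m : ℕ} {s : S} {r : ℕ} (h0 : 1 ≤ n0) (hn : n < E) (h1 : n0 ≤ m) (h2 : m ≤ n)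
    (hr : r ≤ C.h m s) {y : Q} (hy : T.Adj (C.Z m s r) y) (hy' : y ∉ C.reg n0 n) :
    y = P (C.Z m s r) ∨ (m = n0 ∧ r = 0 ∧ y = C.Z (n0 - 1) s (C.h (n0 - 1) s)) ∨
      (m = n ∧ r = C.h m s ∧ y = C.Z (n + 1) s 0) := by
  -- the next vertex
  have hnx : ∃ z, T.Adj (C.Z m s r) z ∧ z ≠ P (C.Z m s r) ∧
      ((r < C.h m s ∧ z = C.Z m s (r + 1)) ∨ (r = C.h m s ∧ z = C.Z (m + 1) s 0)) := by
    rcases Nat.lt_or_ge r (C.h m s) with h | h
    · obtain ⟨a1, a2⟩ := H.line m s r (by omega) h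
      exact ⟨_, a1, a2.symm, Or.inl ⟨h, rfl⟩⟩
    · have h' : r = C.h m s := le_antisymm hr h
      obtain ⟨a1, a2⟩ := H.gate m s (by omega)
      rw [← h'] at a1 a2
      exact ⟨_, a1, a2.symm, Or.inr ⟨h', rfl⟩⟩
  have hpv : ∃ z, T.Adj (C.Z m s r) z ∧ z ≠ P (C.Z m s r) ∧
      ((1 ≤ r ∧ z = C.Z m s (r - 1)) ∨ (r = 0 ∧ z = C.Z (m - 1) s (C.h (m - 1) s))) := by
    rcases Nat.eq_zero_or_pos r with h | h
    · subst h
      obtain ⟨a1, a2⟩ := H.gate (m - 1) s (by omega)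
      rw [show m - 1 + 1 = m by omega] at a1 a2
      refine ⟨_, a1.symm, ?_, Or.inr ⟨rfl, rfl⟩⟩
      intro h
      apply a2
      have h3 := congrArg P h
      rwa [H.mch.inv] at h3
    · obtain ⟨a1, a2⟩ := H.line m s (r - 1) (by omega) (by omega)
      rw [show r - 1 + 1 = r by omega] at a1 a2
      refine ⟨_, a1.symm, ?_, Or.inl ⟨h, rfl⟩⟩
      intro h
      apply a2
      have h3 := congrArg P h
      rwa [H.mch.inv] at h3
  obtain ⟨z₁, b1, b2, b3⟩ := hnx
  obtain ⟨z₂, c1, c2, c3⟩ := hpv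
  have hne : z₁ ≠ z₂ := by
    intro h
    rcases b3 with ⟨b4, b5⟩ | ⟨b4, b5⟩ <;> rcases c3 with ⟨c4, c5⟩ | ⟨c4, c5⟩ <;> rw [b5, c5] at h
    · have := (H.inj _ _ _ _ _ _ (by omega) (by omega) (by omega) (by omega) h).2.2
      omega
    · have := (H.inj _ _ _ _ _ _ (by omega) (by omega) (by omega) le_rfl h).1
      omega
    · have := (H.inj _ _ _ _ _ _ (by omega) (by omega) (Nat.zero_le _) (by omega) h).1
      omega
    · have := (H.inj _ _ _ _ _ _ (by omega) (by omega) (Nat.zero_le _) le_rfl h).1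
      omega
  rcases Tri.Adj.three (H.mch.adj (C.Z m s r)) b1 c1 b2.symm c2.symm hne hy with h | h | h
  · exact Or.inl h
  · subst h
    rcases b3 with ⟨b4, b5⟩ | ⟨b4, b5⟩
    · exfalso
      apply hy'
      rw [b5]
      exact ⟨m, h1, h2, C.mem (by omega)⟩
    · rcases Nat.lt_or_ge m n with h3 | h3
      · exfalso
        apply hy'
        rw [b5]
        exact ⟨m + 1, by omega, h3, C.mem (Nat.zero_le _)⟩
      · have h4 : m = n := le_antisymm h2 h3
        subst h4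
        exact Or.inr (Or.inr ⟨rfl, b4, b5⟩)
  · subst h
    rcases c3 with ⟨c4, c5⟩ | ⟨c4, c5⟩
    · exfalso
      apply hy'
      rw [c5]
      exact ⟨m, h1, h2, C.mem (by omega)⟩
    · rcases Nat.lt_or_ge n0 m with h3 | h3
      · exfalso
        apply hy'
        rw [c5]
        exact ⟨m - 1, by omega, by omega, C.mem le_rfl⟩
      · have h4 : m = n0 := le_antisymm h3 h1
        subst h4
        exact Or.inr (Or.inl ⟨rfl, c4, c5⟩)

/-- The outer vertices are outside. -/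
theorem out_low (H : Rn T P C E) {n0 n : ℕ} (h0 : 1 ≤ n0) (h : n0 ≤ n) (hn : n < E) (s : S) :
    C.Z (n0 - 1) s (C.h (n0 - 1) s) ∉ C.reg n0 n := by
  rintro ⟨m, h1, h2, s', r', h3, h4⟩
  have := (H.inj _ _ _ _ _ _ (by omega) (by omega) le_rfl h3 h4).1
  omega

theorem out_up (H : Rn T P C E) {n0 n : ℕ} (hn : n < E) (s : S) : C.Z (n + 1) s 0 ∉ C.reg n0 n := by
  rintro ⟨m, h1, h2, s', r', h3, h4⟩
  have := (H.inj _ _ _ _ _ _ (by omega) (by omega) (Nat.zero_le _) h3 h4).1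
  omega

/-- The path family of the blocks `n0 .. n` for a changed matching. -/
theorem fam [Finite Q] [Fintype S] (H : Rn T P C E) (hii : ∀ g, B.inv (B.inv g) = g) {n0 n : ℕ} (h0 : 1 ≤ n0)
    (hn : n < E) (hnn : n0 ≤ n) {N : Q → Q → Prop} (hN : Tri.Chg T P N) (hin : ∀ x y, N x y → x ∈ C.reg n0 n)
    {d : S × Bool → S × Bool} (hd : IsPair d)
    (hR : Real (Ed ((hN.mch H.mch).hf hii)) (C.reg n0 n) (fun s => C.Z n0 s 0) (fun s => C.Z n s (C.h n s)) d)
    {Z : Finset Q} (hZ : ∀ x, x ∈ Z ↔ x ∈ C.reg n0 n) : Nonempty (PFam B (prt C n0 n) d Z) := by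
  classical
  have hoff : ∀ x y, y ∉ C.reg n0 n → y ≠ P x → y ≠ Tri.chg P N x := by
    intro x y hy hy' h
    by_cases hx : ∃ z, N x z
    · obtain ⟨z, hz⟩ := hx
      rw [hN.eq hz] at h
      exact hy (h ▸ hin _ _ (hN.sym _ _ hz))
    · push Not at hx
      rw [Tri.chg_off hx] at h
      exact hy' h
  have hport : ∀ p : S × Bool, T.Adj (pt (fun s => C.Z n0 s 0) (fun s => C.Z n s (C.h n s)) p) (prt C n0 n p) ∧
      prt C n0 n p ∉ C.reg n0 n ∧ prt C n0 n p ≠ P (pt (fun s => C.Z n0 s 0) (fun s => C.Z n s (C.h n s)) p) := by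
    rintro ⟨s, _ | _⟩
    · have e : prt C n0 n (s, false) = C.Z (n0 - 1) s (C.h (n0 - 1) s) := by simp [prt]
      rw [pt_lo, e]
      obtain ⟨a1, a2⟩ := H.gate (n0 - 1) s (by omega)
      rw [show n0 - 1 + 1 = n0 by omega] at a1 a2
      refine ⟨a1.symm, H.out_low h0 hnn hn s, ?_⟩
      intro h
      apply a2
      have h3 := congrArg P h
      rwa [H.mch.inv] at h3
    · have e : prt C n0 n (s, true) = C.Z (n + 1) s 0 := by simp [prt]
      rw [pt_up, e]
      obtain ⟨a1, a2⟩ := H.gate n s hn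
      exact ⟨a1, H.out_up hn s, a2.symm⟩
  choose ig hig using fun p => (hport p).1
  have hpt : (fun p => pt (fun s => C.Z n0 s 0) (fun s => C.Z n s (C.h n s)) p * B.q (T.l (ig p))) = prt C n0 n := by
    funext p
    exact (hig p).symm
  rw [← hpt]
  have key : ∀ p, prt C n0 n p ≠ Tri.chg P N (pt (fun s => C.Z n0 s 0) (fun s => C.Z n s (C.h n s)) p) := fun p =>
    hoff _ _ (hport p).2.1 (hport p).2.2
  refine Real.pfam hZ hd hR (fun p => T.l (ig p)) (fun p => ?_) (fun p => ?_) ?_ ?_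
  · refine ((hN.mch H.mch).mem hii).2 ⟨ig p, rfl, ?_⟩
    rw [← hig p]
    exact key p
  · rw [← hig p]
    exact (hport p).2.1
  · intro p q hpq
    have h1 : prt C n0 n p = prt C n0 n q := by
      rw [hig p, hig q]
      have e1 := congrArg Prod.fst hpq
      have e2 := congrArg Prod.snd hpq
      dsimp only at e1 e2
      rw [e1, e2]
    obtain ⟨s, _ | _⟩ := p <;> obtain ⟨s', _ | _⟩ := q <;> simp only [prt, Bool.false_eq_true, if_false, if_true] at h1
    · have := (H.inj _ _ _ _ _ _ (by omega) (by omega) le_rfl le_rfl h1).2.1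
      rw [this]
    · have := (H.inj _ _ _ _ _ _ (by omega) (by omega) le_rfl (Nat.zero_le _) h1).1
      omega
    · have := (H.inj _ _ _ _ _ _ (by omega) (by omega) (Nat.zero_le _) le_rfl h1).1
      omega
    · have := (H.inj _ _ _ _ _ _ (by omega) (by omega) (Nat.zero_le _) (Nat.zero_le _) h1).2.1
      rw [this]
  · rintro x ⟨m, h1, h2, s, r, h3, rfl⟩ g hg hout
    obtain ⟨i, rfl, hi⟩ := ((hN.mch H.mch).mem hii).1 hg
    rcases H.nbr h0 hn h1 h2 h3 ⟨i, rfl⟩ hout with h | ⟨rfl, rfl, h⟩ | ⟨rfl, rfl, h⟩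
    · exfalso
      -- the old partner is inside
      by_cases hx : ∃ z, N (C.Z m s r) z
      · obtain ⟨z, hz⟩ := hx
        obtain ⟨w, hw⟩ := hN.cl _ _ hz
        exact hout (h ▸ hin _ _ hw)
      · push Not at hx
        apply hi
        rw [Tri.chg_off hx]
        exact h
    · refine ⟨(s, false), by rw [pt_lo], ?_⟩
      have e : prt C m n (s, false) = C.Z (m - 1) s (C.h (m - 1) s) := by simp [prt]
      have h4 := hig (s, false)
      rw [e, ← h, pt_lo] at h4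
      exact congrArg T.l (T.inj (mul_left_cancel h4))
    · refine ⟨(s, true), by rw [pt_up], ?_⟩
      have e : prt C n0 m (s, true) = C.Z (m + 1) s 0 := by simp [prt]
      have h4 := hig (s, true)
      rw [e, ← h, pt_up] at h4
      exact congrArg T.l (T.inj (mul_left_cancel h4))

theorem chg_bot (T : Tri B) (P : Q → Q) : Tri.Chg T P fun _ _ => False where
  fn _ _ _ h := h.elim
  sym _ _ h := h.elim
  adj _ _ h := h.elim
  cl _ _ h := h.elim

/-- The unchanged blocks `n0 .. n`. -/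
theorem idd [Finite Q] [Fintype S] (H : Rn T P C E) (hii : ∀ g, B.inv (B.inv g) = g) {n0 n : ℕ} (h0 : 1 ≤ n0)
    (hn : n < E) (hnn : n0 ≤ n) {Z : Finset Q} (hZ : ∀ x, x ∈ Z ↔ x ∈ C.reg n0 n) :
    Nonempty (PFam B (prt C n0 n) H64.idd Z) := by
  have hN := chg_bot T P
  refine H.fam hii h0 hn hnn hN (fun _ _ h => h.elim) idd_pair ?_ hZ
  have hE : ∀ x y, Ed ((hN.mch H.mch).hf hii) x y ↔ T.Adj x y ∧ y ≠ P x := by
    intro x y
    rw [(hN.mch H.mch).ed hii, Tri.chg_off (fun y h => h)]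
  have hline : ∀ m s, m ≤ E → ∀ r, r < C.h m s → Ed ((hN.mch H.mch).hf hii) (C.Z m s r) (C.Z m s (r + 1)) :=
    fun m s h1 r h2 => (hE _ _).2 ⟨(H.line m s r h1 h2).1, (H.line m s r h1 h2).2.symm⟩
  have hto : ∀ d, n0 + d ≤ n → ∀ s, ∀ r ≤ C.h (n0 + d) s,
      Cn (Ed ((hN.mch H.mch).hf hii)) (C.reg n0 n) (C.Z n0 s 0) (C.Z (n0 + d) s r) := by
    intro d
    induction d with
    | zero =>
      intro h1 s r hr
      rw [Nat.add_zero] at hr ⊢
      have h4 := seg (C := C) (E := Ed ((hN.mch H.mch).hf hii)) (m := n0) (s := s) 0 r (Nat.zero_le _) hr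
        fun t _ h3 => hline n0 s (by omega) t (by omega)
      exact h4.mono (fun v hv => (⟨n0, le_rfl, hnn, hv⟩ : v ∈ C.reg n0 n)) fun _ _ _ _ h => h
    | succ d ih =>
      intro h1 s r hr
      have h2 := ih (by omega) s (C.h (n0 + d) s) le_rfl
      obtain ⟨g1, g2⟩ := H.gate (n0 + d) s (by omega)
      have h3 : Cn (Ed ((hN.mch H.mch).hf hii)) (C.reg n0 n) (C.Z (n0 + d) s (C.h (n0 + d) s)) (C.Z (n0 + d + 1) s 0) :=
        Cn.of ((hE _ _).2 ⟨g1, g2.symm⟩) ⟨n0 + d, by omega, by omega, C.mem le_rfl⟩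
          ⟨n0 + d + 1, by omega, by omega, C.mem (Nat.zero_le _)⟩
      have h4 := (seg 0 r (Nat.zero_le _) hr fun t _ h3 => hline (n0 + d + 1) s (by omega) t (by
        have : t < r := h3
        have : r ≤ C.h (n0 + (d + 1)) s := hr
        rw [← add_assoc] at this
        omega)).mono
        (fun v hv => (⟨n0 + d + 1, by omega, by omega, hv⟩ : v ∈ C.reg n0 n)) fun _ _ _ _ h => h
      exact (h2.trans' h3).trans' h4
  obtain ⟨d, rfl⟩ : ∃ d, n = n0 + d := ⟨n - n0, by omega⟩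
  refine Real.of_idd (fun _ _ h => h.symm) (fun s => ⟨n0, le_rfl, hnn, C.mem (Nat.zero_le _)⟩)
    (fun s => ⟨n0 + d, by omega, le_rfl, C.mem le_rfl⟩) (fun s => hto d le_rfl s _ le_rfl) ?_
  rintro v ⟨m, h1, h2, s, r, h3, rfl⟩
  obtain ⟨e, rfl⟩ : ∃ e, m = n0 + e := ⟨m - n0, by omega⟩
  exact ⟨s, (hto e h2 s r h3).symm' fun _ _ h => h.symm⟩

end Rn

end Pool.Agent.Lib.MP_688fd0_co.SQ5.H22
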