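import Pool.Agent.Lib.MP_688fd0_co.SQ5.H22.Run
import Pool.Agent.Lib.MP_688fd0_co.SQ5.H76.Chart

/-!
MP_688fd0_co, type C2 (helper22), row GAD: the T-gadgets of a normal strip in the chart of a run (helper76's `Bd`, `Rg`).

`Wd` = a normal strip (distance 4) between the walls `Wd`, `Wd + 1`; the neighbour strips are arbitrary (distance at least 4).
Rungs: wall `Wd` in the phases 1 .. 4, wall `Wd + 1` in the phases 5, 6, 7, 0 (`Aw`). The hole line of such a rung is at the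
wall `Aw Wd (ph + m)` in block `m`, for all `m`. RESULT `GadR.gadget`: the blocks `m0 .. m0 + i`, `i` the first closing
(`CloG`), realise `win (ω m0) (ω (m0 + 1)) σ`, upper pair `{ω (m0 + i + 1), ω (m0 + i)}`, at most `3 (i + 1)` moved strands.
-/

set_option autoImplicit false

namespace Pool.Agent.Lib.MP_688fd0_co.SQ5.H22

open Function Equiv
open Pool.Agent.Lib.MP_688fd0_co.OSF Pool.Agent.Lib.MP_688fd0_co.SQ2 Pool.Agent.Lib.MP_688fd0_co.SQ3
open Pool.Agent.Lib.MP_688fd0_co.SQ5.H64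
open Pool.Agent.Lib.MP_688fd0_co.SQ5.H95 (HF)
open Pool.Agent.Lib.MP_688fd0_co.SQ5.H76 (L3 V nb nb_nb wl ow Bd Cov Geo Sd qq bw col thr thr_Z Z_over q_sq tri EqL)

universe u v

variable {Q : Type u} [Group Q] {B : Lb.{u, v} Q} {l : L3 → B.L} {L : AddSubgroup (ℤ × ℤ)}

/-! ### Steps over sites -/

section Ov

variable (c : Cov B l L) (D : Bd)

/-- The wall step. -/
theorem over_wall {y : Q} {κ s : ℤ} (hy : c.Over y (D.st κ s 0)) :
    c.Over (y * Bd.LL (qq B l) (D.b s)) (D.st (κ + if D.b s = true then 1 else -1) (s + 1) 0) := by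
  have h1 := hy.step (wl (D.b s))
  rw [D.nb_wall] at h1
  have e : (if D.b s = true then κ + 1 else κ - 1) = κ + if D.b s = true then 1 else -1 := by split_ifs <;> ring
  rw [e] at h1
  have h2 := h1.step .t
  rw [D.nb_up, mul_assoc] at h2
  exact h2

theorem ln_sk (κ s : ℤ) : D.ln (D.sk κ s) (s + 1) = D.ln κ s := by
  unfold Bd.ln
  rw [D.sp_sk]

/-- The sea step. -/
theorem over_sea {y : Q} {κ s : ℤ} (hy : c.Over y (D.st κ s 0)) (h2 : 2 ≤ D.hw (D.sp κ s))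
    (hs : D.b s = D.b (s + 1) → D.hw (D.sp κ s) = 2) :
    c.Over (y * Bd.KK (qq B l) (D.b s)) (D.st (D.sk κ s) (s + 1) (D.ln (D.sk κ s) (s + 1) - 1)) := by
  have h1 := hy.step (H76.ll (D.b s) 0)
  rw [D.nb_st] at h1
  have hl : 1 < D.ln κ s := by
    unfold Bd.ln
    omega
  have h3 := h1.step .t
  rw [D.nb_sea κ s (r := 0 + 1) rfl hl, mul_assoc] at h3
  have e : D.sj κ s (0 + 1) = D.ln (D.sk κ s) (s + 1) - 1 := by
    rw [ln_sk]
    unfold Bd.sj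
    split_ifs with h
    · have := hs h
      unfold Bd.ln
      omega
    · rfl
  rw [e] at h3
  exact h3

/-- From the last inner site over the wall. -/
theorem over_end {y : Q} {κ κ' s : ℤ} (hκ : κ' = κ + if D.b s = true then 1 else -1)
    (hy : c.Over y (D.st κ' s (D.ln κ' s - 1))) :
    c.Over (y * (B.q (l (ow (D.b s))) * B.q (l (wl (D.b s))))) (D.st κ s 0) := by
  have hl := D.ln_pos κ' s
  have h1 := hy.step (H76.ll (D.b s) (D.ln κ' s - 1))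
  rw [D.nb_st, Nat.sub_add_cancel hl] at h1
  have e1 : H76.ll (D.b s) (D.ln κ' s - 1) = ow (D.b s) := by
    unfold H76.ll
    rw [if_pos]
    unfold Bd.ln
    omega
  rw [e1] at h1
  have h2 := h1.step (wl (D.b s))
  have e2 : (if D.b s = true then κ + 1 else κ - 1) = κ' := by rw [hκ]; split_ifs <;> ring
  have h3 := D.nb_wall κ s
  rw [e2] at h3
  rw [← h3, nb_nb, mul_assoc] at h2
  exact h2

end Ov

/-! ### The hole line in the plane -/

/-- The wall of the hole line. -/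
def Aw (Wd x : ℤ) : ℤ := if x % 8 = 1 ∨ x % 8 = 2 ∨ x % 8 = 3 ∨ x % 8 = 4 then Wd else Wd + 1

theorem Aw_cases (Wd x : ℤ) : Aw Wd x = Wd ∨ Aw Wd x = Wd + 1 := by
  unfold Aw
  split_ifs
  · exact Or.inl rfl
  · exact Or.inr rfl

theorem mod8c (x : ℤ) : x % 8 = 0 ∨ x % 8 = 1 ∨ x % 8 = 2 ∨ x % 8 = 3 ∨ x % 8 = 4 ∨ x % 8 = 5 ∨ x % 8 = 6 ∨ x % 8 = 7 := by
  omega

/-- Everything about the phases. -/
theorem Aw_step (Wd x : ℤ) :
    (bw x = true → bw (x + 1) = true → Aw Wd x = Wd + 1 ∧ Aw Wd (x + 1) = Wd) ∧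
    (bw x = false → bw (x + 1) = false → Aw Wd x = Wd ∧ Aw Wd (x + 1) = Wd + 1) ∧
    (bw x ≠ bw (x + 1) → Aw Wd (x + 1) = Aw Wd x) ∧
    Wd + 1 ≤ Aw Wd x + col x ∧ Aw Wd x + col x ≤ Wd + 2 ∧
    Wd + 1 ≤ Aw Wd x + col x + (if bw x = true then 1 else -1) ∧
    Aw Wd x + col x + (if bw x = true then 1 else -1) ≤ Wd + 2 := by
  rcases mod8c x with h | h | h | h | h | h | h | h
  · have h' : (x + 1) % 8 = 1 := by omega
    simp [Aw, bw, col, h, h']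
  · have h' : (x + 1) % 8 = 2 := by omega
    simp [Aw, bw, col, h, h']
  · have h' : (x + 1) % 8 = 3 := by omega
    simp [Aw, bw, col, h, h']
  · have h' : (x + 1) % 8 = 4 := by omega
    simp [Aw, bw, col, h, h']
  · have h' : (x + 1) % 8 = 5 := by omega
    simp [Aw, bw, col, h, h']
  · have h' : (x + 1) % 8 = 6 := by omega
    simp [Aw, bw, col, h, h']
  · have h' : (x + 1) % 8 = 7 := by omega
    simp [Aw, bw, col, h, h']
  · have h' : (x + 1) % 8 = 0 := by omega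
    simp [Aw, bw, col, h, h']

/-! ### The region of a gadget -/

variable {M R : ℕ} {dc : ℕ → ℤ} {spc : ℕ → Prop} {G : ℤ}

/-- A run with phase `ph` in block 0, the normal strip `Wd`; the labels of the strands at the two walls of the strip. -/
structure GadR (g : Geo L M R dc spc G) (c : Cov B l L) (D : Bd) (s0 : ℤ) (E : ℕ) (K0 K1 κ0 κ1 ph d Wd : ℤ) : Prop where
  rg : Geo.Rg g D s0 E K0 K1 κ0 κ1
  b : ∀ m : ℤ, D.b (s0 + m) = bw (ph + m)
  cs : ∀ m : ℤ, D.cs (s0 + m) = d + col (ph + m)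
  w0 : D.hw Wd = 2
  w1 : 2 ≤ D.hw (Wd - 1)
  w2 : 2 ≤ D.hw (Wd + 1)
  lab0 : κ0 ≤ Wd + 1 + d
  lab1 : Wd + 2 + d ≤ κ1
  ne : ∀ K, Wd - 1 ≤ K → K ≤ Wd + 1 → ((B.q (l .a) * B.q (l .b)) ^ (D.hw K - 1) * B.q (l .t)) ^ 2 ≠ 1

namespace GadR

variable {g : Geo L M R dc spc G} {c : Cov B l L} {D : Bd} {s0 : ℤ} {E : ℕ} {K0 K1 κ0 κ1 ph d Wd : ℤ}
  (X : GadR g c D s0 E K0 K1 κ0 κ1 ph d Wd)

include X

/-- The strip of the hole line. -/
theorem sp (m : ℤ) : D.sp (Aw Wd (ph + m) + D.cs (s0 + m)) (s0 + m) =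
    Aw Wd (ph + m) - if bw (ph + m) = true then 1 else 0 := by
  unfold Bd.sp
  rw [X.b]
  ring

theorem hw2 (m : ℤ) : 2 ≤ D.hw (D.sp (Aw Wd (ph + m) + D.cs (s0 + m)) (s0 + m)) := by
  rw [X.sp]
  have h0 := X.w0
  have h1 := X.w1
  have h2 := X.w2
  rcases Aw_cases Wd (ph + m) with h | h <;> rw [h] <;> split_ifs
  · exact h1
  · rw [sub_zero]; omega
  · rw [add_sub_cancel_right]; omega
  · rw [sub_zero]; exact h2

theorem spw (m : ℤ) : Wd - 1 ≤ D.sp (Aw Wd (ph + m) + D.cs (s0 + m)) (s0 + m) ∧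
    D.sp (Aw Wd (ph + m) + D.cs (s0 + m)) (s0 + m) ≤ Wd + 1 := by
  rw [X.sp]
  rcases Aw_cases Wd (ph + m) with h | h <;> rw [h] <;> split_ifs <;> omega

theorem hws (m : ℤ) (h : D.b (s0 + m) = D.b (s0 + m + 1)) : D.hw (D.sp (Aw Wd (ph + m) + D.cs (s0 + m)) (s0 + m)) = 2 := by
  rw [X.sp]
  have e : s0 + m + 1 = s0 + (m + 1) := by ring
  have e' : ph + (m + 1) = ph + m + 1 := by ring
  rw [X.b, e, X.b, e'] at h
  obtain ⟨a1, a2, -⟩ := Aw_step Wd (ph + m)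
  cases hb : bw (ph + m)
  · rw [(a2 hb (by rw [← h, hb])).1, if_neg (by simp), sub_zero]
    exact X.w0
  · rw [(a1 hb (by rw [← h, hb])).1, if_pos rfl, add_sub_cancel_right]
    exact X.w0

/-- The label after one step of the hole line. -/
theorem lab (m : ℤ) : D.sk (Aw Wd (ph + m) + D.cs (s0 + m)) (s0 + m) =
    Aw Wd (ph + m + 1) + D.cs (s0 + m + 1) + if D.b (s0 + m + 1) = true then 1 else -1 := by
  have e : s0 + m + 1 = s0 + (m + 1) := by ring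
  have e' : ph + (m + 1) = ph + m + 1 := by ring
  obtain ⟨a1, a2, a3, -⟩ := Aw_step Wd (ph + m)
  unfold Bd.sk
  rw [D.hcs, e, X.b, X.b, e']
  cases hb : bw (ph + m) <;> cases hb' : bw (ph + m + 1)
  · obtain ⟨h1, h2⟩ := a2 hb hb'
    rw [h1, h2]
    simp
    ring
  · rw [a3 (by rw [hb, hb']; simp)]
    simp
    ring
  · rw [a3 (by rw [hb, hb']; simp)]
    simp
    ring
  · obtain ⟨h1, h2⟩ := a1 hb hb'
    rw [h1, h2]
    simp
    ring

/-- The white end of the hole line, next level. -/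
theorem over_next {y : Q} (m : ℤ) (hy : c.Over y (D.st (Aw Wd (ph + m) + D.cs (s0 + m)) (s0 + m) 0)) :
    c.Over (y * Bd.KK (qq B l) (D.b (s0 + m)) * (B.q (l (ow (D.b (s0 + m + 1)))) * B.q (l (wl (D.b (s0 + m + 1))))))
      (D.st (Aw Wd (ph + m + 1) + D.cs (s0 + m + 1)) (s0 + m + 1) 0) := by
  have h1 := over_sea c D hy (X.hw2 m) (X.hws m)
  exact over_end c D (X.lab m) h1

/-- The labels of the hole line. -/
theorem labA (m : ℤ) : κ0 ≤ Aw Wd (ph + m) + D.cs (s0 + m) ∧ Aw Wd (ph + m) + D.cs (s0 + m) ≤ κ1 := by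
  obtain ⟨-, -, -, a1, a2, -⟩ := Aw_step Wd (ph + m)
  have h0 := X.lab0
  have h1 := X.lab1
  rw [X.cs]
  omega

theorem labα (m : ℤ) : κ0 ≤ Aw Wd (ph + m) + D.cs (s0 + m) + (if D.b (s0 + m) = true then 1 else -1) ∧
    Aw Wd (ph + m) + D.cs (s0 + m) + (if D.b (s0 + m) = true then 1 else -1) ≤ κ1 := by
  obtain ⟨-, -, -, -, -, a1, a2⟩ := Aw_step Wd (ph + m)
  have h0 := X.lab0
  have h1 := X.lab1
  rw [X.cs, X.b]
  constructor <;> linarith

end GadR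

/-! ### Words -/

section Wd

open Pool.Agent.Lib.MP_688fd0_co.SQ5.H20 (LG KG SG B8)

theorem B8_bw (x : ℤ) : B8 x = bw x := by
  rcases mod8c x with h | h | h | h | h | h | h | h <;> simp [B8, bw, h]

variable (q : L3 → Q)

theorem LL_bw (x : ℤ) : Bd.LL q (bw x) = LG (q .a) (q .b) (q .t) x := by
  unfold Bd.LL LG wl
  rw [B8_bw]
  cases bw x <;> simp

theorem KK_bw (x : ℤ) : Bd.KK q (bw x) = KG (q .a) (q .b) (q .t) x := by
  unfold Bd.KK KG ow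
  rw [B8_bw]
  cases bw x <;> simp

theorem ow_wl (hq : ∀ i, q i * q i = 1) (x : ℤ) : q (ow (bw x)) * q (wl (bw x)) =
    KG (q .a) (q .b) (q .t) x * (LG (q .a) (q .b) (q .t) x)⁻¹ := by
  have hi : ∀ i, (q i)⁻¹ = q i := fun i => inv_eq_of_mul_eq_one_left (hq i)
  rw [← KK_bw, ← LL_bw]
  unfold Bd.KK Bd.LL
  rw [mul_inv_rev, hi, hi, mul_assoc, ← mul_assoc (q .t) (q .t), hq, one_mul]

/-- The white ends of the hole line. -/
def wE (a b t : Q) (x : ℤ) (v0 : Q) (j : ℕ) : Q := v0 * KG a b t x * H20.pr (SG a b t) (x + 1) j * (KG a b t (x + j))⁻¹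

theorem wE_zero (a b t : Q) (x : ℤ) (v0 : Q) : wE a b t x v0 0 = v0 := by
  unfold wE
  have e : x + ((0 : ℕ) : ℤ) = x := by simp
  rw [e]
  show v0 * KG a b t x * 1 * (KG a b t x)⁻¹ = v0
  rw [mul_one, mul_inv_cancel_right]

theorem wE_succ (a b t : Q) (x : ℤ) (v0 : Q) (j : ℕ) : wE a b t x v0 (j + 1) =
    wE a b t x v0 j * KG a b t (x + j) * (KG a b t (x + j + 1) * (LG a b t (x + j + 1))⁻¹) := by
  unfold wE
  have e1 : x + ((j + 1 : ℕ) : ℤ) = x + j + 1 := by push_cast; ring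
  have e2 : H20.pr (SG a b t) (x + 1) (j + 1) = H20.pr (SG a b t) (x + 1) j * SG a b t (x + j + 1) := by
    show H20.pr (SG a b t) (x + 1) j * SG a b t (x + 1 + j) = _
    congr 2
    ring
  rw [e1, e2, inv_mul_cancel_right]
  unfold SG
  group

/-- The closing condition of helper20. -/
def CloG (a b t : Q) (x : ℤ) (i : ℕ) : Prop := KG a b t x * H20.pr (SG a b t) (x + 1) i = H20.pr (LG a b t) x i * KG a b t (x + i)

theorem cloG_iff (a b t : Q) (x : ℤ) (v0 : Q) (i : ℕ) : wE a b t x v0 i = v0 * H20.pr (LG a b t) x i ↔ CloG a b t x i := by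
  unfold wE CloG
  rw [mul_inv_eq_iff_eq_mul, mul_assoc v0, mul_assoc v0, mul_right_inj]

/-- A group relation: the sea edges join different strands. -/
theorem sea_rel (hq : ∀ i, q i * q i = 1) (b : Bool) (k : ℕ) (hne : ((q .a * q .b) ^ k * q .t) ^ 2 ≠ 1) :
    ((q (wl b) * q (ow b)) ^ k * q .t) ^ 2 ≠ 1 := by
  cases b
  · intro h
    apply hne
    have hi : ∀ i, (q i)⁻¹ = q i := fun i => inv_eq_of_mul_eq_one_left (hq i)
    have h1 : (q (wl false) * q (ow false)) = (q .a * q .b)⁻¹ := by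
      rw [mul_inv_rev, hi, hi]
      simp [wl, ow]
    rw [h1, inv_pow] at h
    set z := (q .a * q .b) ^ k with hz
    have h2 : (z⁻¹ * q .t) * (z⁻¹ * q .t) = 1 := by rw [← pow_two]; exact h
    have h3 : (z * q .t) ^ 2 = (q .t * ((z⁻¹ * q .t) * (z⁻¹ * q .t))⁻¹ * q .t) := by
      rw [mul_inv_rev, mul_inv_rev, inv_inv, hi, pow_two]
      have : q .t * (q .t * z * (q .t * z)) * q .t = (q .t * q .t) * z * (q .t * z) * q .t := by group
      rw [this, hq, one_mul]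
      group
    rw [h3, h2, inv_one, mul_one, hq]
  · simpa [wl, ow] using hne

end Wd

/-! ### The gadget -/

section Ch

variable (c : Cov B l L) (D : Bd) (hi : ∀ i, B.inv (l i) = l i) {s0 κ0 κ1 : ℤ}

theorem cZ_succ (m : ℕ) (s : Sd c D s0 κ0 κ1) (r : ℕ) : (D.chart c s0 κ0 κ1).Z m s (r + 1) =
    (D.chart c s0 κ0 κ1).Z m s r * B.q (l (H76.ll (D.b (s0 + m)) r)) := by
  show s.1.2 * D.pos (qq B l) s0 s.1.1 m (r + 1) = s.1.2 * D.pos (qq B l) s0 s.1.1 m r * _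
  rw [D.pos_succ, ← mul_assoc]
  rfl

theorem cZ_up (m : ℕ) (s : Sd c D s0 κ0 κ1) : (D.chart c s0 κ0 κ1).Z (m + 1) s 0 =
    (D.chart c s0 κ0 κ1).Z m s ((D.chart c s0 κ0 κ1).h m s) * B.q (l .t) := by
  show s.1.2 * D.pos (qq B l) s0 s.1.1 ((m + 1 : ℕ) : ℤ) 0 = s.1.2 * D.pos (qq B l) s0 s.1.1 m (D.ln s.1.1 (s0 + m)) * _
  rw [Nat.cast_add, Nat.cast_one, D.pos_up, ← mul_assoc]
  rfl

/-- The word of a line. -/
theorem cZ_lw (m : ℕ) (s : Sd c D s0 κ0 κ1) (r : ℕ) : (D.chart c s0 κ0 κ1).Z m s r =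
    (D.chart c s0 κ0 κ1).Z m s 0 * Bd.lw (qq B l) (D.b (s0 + m)) r := by
  induction r with
  | zero => rw [Bd.lw_zero, mul_one]
  | succ r ih =>
    rw [cZ_succ, ih, Bd.lw_succ, mul_assoc]
    rfl

include hi in
theorem ex_at {κ : ℤ} (m : ℕ) {y : Q} (h0 : κ0 ≤ κ) (h1 : κ ≤ κ1) (hy : c.Over y (D.st κ (s0 + m) 0)) :
    ∃ s : Sd c D s0 κ0 κ1, s.1.1 = κ ∧ (D.chart c s0 κ0 κ1).Z m s 0 = y :=
  ⟨thr D c hi κ m 0 y h0 h1 hy, rfl, thr_Z D c hi h0 h1 hy⟩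

end Ch

/-- `q (wl b) (q (ow b) q (wl b)) ^ k ..` -/
theorem lw_even {q : L3 → Q} (b : Bool) (k : ℕ) : Bd.lw q b (2 * k) = (q (ow b) * q (wl b)) ^ k := by
  induction k with
  | zero => rw [pow_zero]; rfl
  | succ k ih =>
    have e : 2 * (k + 1) = 2 * k + 1 + 1 := by ring
    rw [e, Bd.lw_succ, Bd.lw_succ, ih, pow_succ]
    have h1 : H76.ll b (2 * k) = ow b := by unfold H76.ll; rw [if_pos (by omega)]
    have h2 : H76.ll b (2 * k + 1) = wl b := by unfold H76.ll; rw [if_neg (by omega)]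
    rw [h1, h2, mul_assoc]

namespace GadR

open Pool.Agent.Lib.MP_688fd0_co.SQ5.H20 (LG KG SG)

variable {g : Geo L M R dc spc G} {c : Cov B l L} {D : Bd} {s0 : ℤ} {E : ℕ} {K0 K1 κ0 κ1 ph d Wd : ℤ}
  (X : GadR g c D s0 E K0 K1 κ0 κ1 ph d Wd)

include X

/-- The wall of the rung. -/
theorem overV {m0 : ℕ} {v0 : Q} {J : ℤ} (hv : c.Over v0 (D.st (J + D.cs (s0 + m0)) (s0 + m0) 0)) (j : ℕ) :
    c.Over (v0 * H20.pr (LG (B.q (l .a)) (B.q (l .b)) (B.q (l .t))) (ph + m0) j)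
      (D.st (J + D.cs (s0 + (m0 + j : ℕ))) (s0 + (m0 + j : ℕ)) 0) := by
  induction j with
  | zero =>
    show c.Over (v0 * 1) _
    rw [mul_one]
    exact hv
  | succ j ih =>
    have h1 := over_wall c D ih
    have e : s0 + ((m0 + (j + 1) : ℕ) : ℤ) = s0 + (m0 + j : ℕ) + 1 := by push_cast; ring
    have e2 : ph + ((m0 + j : ℕ) : ℤ) = ph + m0 + j := by push_cast; ring
    rw [e, D.hcs]
    have e3 : J + (D.cs (s0 + (m0 + j : ℕ)) + if D.b (s0 + (m0 + j : ℕ)) = true then 1 else -1) =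
        J + D.cs (s0 + (m0 + j : ℕ)) + if D.b (s0 + (m0 + j : ℕ)) = true then 1 else -1 := by ring
    rw [e3]
    have e4 : v0 * H20.pr (LG (B.q (l .a)) (B.q (l .b)) (B.q (l .t))) (ph + m0) (j + 1) =
        v0 * H20.pr (LG (B.q (l .a)) (B.q (l .b)) (B.q (l .t))) (ph + m0) j * Bd.LL (qq B l) (D.b (s0 + (m0 + j : ℕ))) := by
      rw [X.b, e2, LL_bw, mul_assoc]
      rfl
    rw [e4]
    exact h1

/-- The hole line. -/
theorem overW (hi : ∀ i, B.inv (l i) = l i) {m0 : ℕ} {v0 : Q}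
    (hv : c.Over v0 (D.st (Aw Wd (ph + m0) + D.cs (s0 + m0)) (s0 + m0) 0)) (j : ℕ) :
    c.Over (wE (B.q (l .a)) (B.q (l .b)) (B.q (l .t)) (ph + m0) v0 j)
      (D.st (Aw Wd (ph + (m0 + j : ℕ)) + D.cs (s0 + (m0 + j : ℕ))) (s0 + (m0 + j : ℕ)) 0) := by
  induction j with
  | zero =>
    rw [wE_zero]
    exact hv
  | succ j ih =>
    have h1 := X.over_next _ ih
    have e : s0 + ((m0 + (j + 1) : ℕ) : ℤ) = s0 + (m0 + j : ℕ) + 1 := by push_cast; ring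
    have e2 : ph + ((m0 + (j + 1) : ℕ) : ℤ) = ph + (m0 + j : ℕ) + 1 := by push_cast; ring
    have e3 : ph + ((m0 + j : ℕ) : ℤ) = ph + m0 + j := by push_cast; ring
    have e4 : s0 + ((m0 + j : ℕ) : ℤ) + 1 = s0 + ((m0 + j : ℕ) + 1) := by ring
    have e5 : ph + (((m0 + j : ℕ) : ℤ) + 1) = ph + m0 + j + 1 := by push_cast; ring
    rw [e, e2]
    have e6 : wE (B.q (l .a)) (B.q (l .b)) (B.q (l .t)) (ph + m0) v0 (j + 1) =
        wE (B.q (l .a)) (B.q (l .b)) (B.q (l .t)) (ph + m0) v0 j * Bd.KK (qq B l) (D.b (s0 + (m0 + j : ℕ))) *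
          (B.q (l (ow (D.b (s0 + (m0 + j : ℕ) + 1)))) * B.q (l (wl (D.b (s0 + (m0 + j : ℕ) + 1))))) := by
      rw [wE_succ, X.b, e3, KK_bw, e4, X.b, e5]
      congr 1
      exact (ow_wl (qq B l) (fun i => q_sq hi i) (ph + m0 + j + 1)).symm
    rw [e6]
    exact h1

/-- The sea edge joins different strands. -/
theorem ne_sea (hi : ∀ i, B.inv (l i) = l i) {m : ℕ} {s : Sd c D s0 κ0 κ1}
    (hs : s.1.1 = Aw Wd (ph + m) + D.cs (s0 + m)) (hb : D.b (s0 + m) ≠ D.b (s0 + m + 1))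
    (h : (D.chart c s0 κ0 κ1).Z m s 1 * B.q (l .t) =
      (D.chart c s0 κ0 κ1).Z (m + 1) s ((D.chart c s0 κ0 κ1).h (m + 1) s - 1)) : False := by
  set q : L3 → Q := qq B l with hq
  have hqq : ∀ i, q i * q i = 1 := fun i => q_sq hi i
  have hqi : ∀ i, (q i)⁻¹ = q i := fun i => inv_eq_of_mul_eq_one_left (hqq i)
  obtain ⟨k, hk⟩ : ∃ k, D.hw (D.sp s.1.1 (s0 + m)) = k + 1 := ⟨D.hw (D.sp s.1.1 (s0 + m)) - 1, by
    have := X.hw2 m
    rw [hs]
    omega⟩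
  have hsk : D.sk s.1.1 (s0 + m) = s.1.1 := by
    unfold Bd.sk
    revert hb
    cases D.b (s0 + m) <;> cases D.b (s0 + m + 1) <;> simp
  have hln : D.ln s.1.1 (s0 + m) = 2 * k + 1 := by
    unfold Bd.ln
    omega
  have hln' : (D.chart c s0 κ0 κ1).h (m + 1) s - 1 = 2 * k := by
    show D.ln s.1.1 (s0 + ((m + 1 : ℕ) : ℤ)) - 1 = 2 * k
    have e : s0 + ((m + 1 : ℕ) : ℤ) = s0 + m + 1 := by push_cast; ring
    have h1 := ln_sk D s.1.1 (s0 + m)
    rw [hsk] at h1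
    rw [e, h1, hln]
    omega
  have hne := X.ne (D.sp s.1.1 (s0 + m)) (by rw [hs]; exact (X.spw m).1) (by rw [hs]; exact (X.spw m).2)
  rw [hk, Nat.add_sub_cancel] at hne
  have hne' := sea_rel q hqq (D.b (s0 + m)) k hne
  apply hne'
  rw [hln', cZ_lw c D m s 1, cZ_lw c D (m + 1) s (2 * k), cZ_up,
    cZ_lw c D m s ((D.chart c s0 κ0 κ1).h m s)] at h
  have e : s0 + ((m + 1 : ℕ) : ℤ) = s0 + m + 1 := by push_cast; ring
  have hh : (D.chart c s0 κ0 κ1).h m s = 2 * k + 1 := hln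
  rw [hh, e] at h
  have hb' : D.b (s0 + m + 1) = !D.b (s0 + m) := by
    revert hb
    cases D.b (s0 + m) <;> cases D.b (s0 + m + 1) <;> simp
  have hlw : Bd.lw (qq B l) (D.b (s0 + m + 1)) (2 * k) = (q (wl (D.b (s0 + m))) * q (ow (D.b (s0 + m)))) ^ k := by
    rw [lw_even, hb']
    cases D.b (s0 + m) <;> simp [wl, ow, hq]
  have hlw1 : Bd.lw (qq B l) (D.b (s0 + m)) 1 = q (ow (D.b (s0 + m))) := by
    show 1 * _ = _
    rw [one_mul]
    rfl
  have hlw2 : Bd.lw (qq B l) (D.b (s0 + m)) (2 * k + 1) =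
      q (ow (D.b (s0 + m))) * (q (wl (D.b (s0 + m))) * q (ow (D.b (s0 + m)))) ^ k := by
    have h1 : ∀ (x y : Q) (k : ℕ), (x * y) ^ k * x = x * (y * x) ^ k := by
      intro x y k
      induction k with
      | zero => simp
      | succ k ih =>
        rw [pow_succ', mul_assoc, ih, pow_succ']
        simp only [mul_assoc]
    rw [Bd.lw_succ, lw_even]
    have h2 : H76.ll (D.b (s0 + m)) (2 * k) = ow (D.b (s0 + m)) := by unfold H76.ll; rw [if_pos (by omega)]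
    rw [h2]
    exact h1 _ _ k
  rw [hlw, hlw1, hlw2] at h
  set z := (q (wl (D.b (s0 + m))) * q (ow (D.b (s0 + m)))) ^ k with hz
  set w0 := (D.chart c s0 κ0 κ1).Z m s 0 with hw0
  have h3 : w0 * q (ow (D.b (s0 + m))) * q .t = w0 * (q (ow (D.b (s0 + m))) * z) * q .t * z := h
  have h4 : q .t = z * q .t * z := by
    have e1 : w0 * (q (ow (D.b (s0 + m))) * z) * q .t * z = w0 * q (ow (D.b (s0 + m))) * (z * q .t * z) := by group
    rw [e1] at h3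
    exact mul_left_cancel h3
  rw [pow_two]
  calc z * q .t * (z * q .t) = z * q .t * z * q .t := by group
    _ = 1 := by rw [← h4, hqq]

/-- THE T-GADGET OF A RUNG. -/
theorem gadget [Finite Q] [DecidableEq (Sd c D s0 κ0 κ1)] (hl : Function.Injective l) (hi : ∀ i, B.inv (l i) = l i)
    (hq : Function.Injective (qq B l)) (hii : ∀ x, B.inv (B.inv x) = x) {m0 i : ℕ} {v0 : Q} {J : ℤ}
    (hJ : J = Aw Wd (ph + m0)) (hJ0 : κ0 ≤ J + d) (hJ1 : J + d + 2 ≤ κ1) (h0i : 0 < i) (hE : m0 + i < E)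
    (hv : c.Over v0 (D.st (J + D.cs (s0 + m0)) (s0 + m0) 0))
    (hclo : CloG (B.q (l .a)) (B.q (l .b)) (B.q (l .t)) (ph + m0) i) (hcl : Aw Wd (ph + (m0 + i : ℕ)) = J)
    (hfst : ∀ j : ℕ, 0 < j → j < i → Aw Wd (ph + (m0 + j : ℕ)) = J →
      ¬ CloG (B.q (l .a)) (B.q (l .b)) (B.q (l .t)) (ph + m0) j) :
    ∃ (ω : ℕ → Sd c D s0 κ0 κ1) (A : Set (Sd c D s0 κ0 κ1)) (σ : Perm (Sd c D s0 κ0 κ1)),
      (∀ j ≤ i + 1, (ω (m0 + j)).1.1 = J + D.cs (s0 + (m0 + j : ℕ)) ∧ (D.chart c s0 κ0 κ1).Z (m0 + j) (ω (m0 + j)) 0 =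
        v0 * H20.pr (LG (B.q (l .a)) (B.q (l .b)) (B.q (l .t))) (ph + m0) j) ∧
      A.ncard ≤ 3 * (i + 1) ∧ (∀ s, s ∉ A → σ s = s) ∧ ω m0 ∈ A ∧ ω (m0 + 1) ∈ A ∧ ω m0 ≠ ω (m0 + 1) ∧
      σ (ω m0) = ω (m0 + i + 1) ∧ σ (ω (m0 + 1)) = ω (m0 + i) ∧ IsPair (H64.win (ω m0) (ω (m0 + 1)) σ) ∧
      ∃ F' : HF B, (∀ x, x ∉ (D.chart c s0 κ0 κ1).reg m0 (m0 + i) → F'.H x = (g.F c hl hi hii).H x) ∧
        (∀ x, ∀ y ∈ F'.H x, ∃ j : L3, y = l j) ∧
        Real F'.Ed ((D.chart c s0 κ0 κ1).reg m0 (m0 + i)) (fun s => (D.chart c s0 κ0 κ1).Z m0 s 0)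
          (fun s => (D.chart c s0 κ0 κ1).Z (m0 + i) s ((D.chart c s0 κ0 κ1).h (m0 + i) s))
          (H64.win (ω m0) (ω (m0 + 1)) σ) := by
  classical
  subst hJ
  set J := Aw Wd (ph + m0) with hJ
  set Ch := D.chart c s0 κ0 κ1 with hCh
  set P := g.Pm c with hP
  have H : Rn (tri l hi hq) P Ch E := X.rg.rn c hi hq
  have hrg := X.rg
  have hov := X.overV (J := J) hv
  have how := X.overW hi hv
  -- the wall path
  have hexω : ∀ m, ∃ s : Sd c D s0 κ0 κ1, ∀ j, m = m0 + j → s.1.1 = J + D.cs (s0 + (m0 + j : ℕ)) ∧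
      Ch.Z (m0 + j) s 0 = v0 * H20.pr (LG (B.q (l .a)) (B.q (l .b)) (B.q (l .t))) (ph + m0) j := by
    intro m
    have key : ∀ j, ∃ s : Sd c D s0 κ0 κ1, s.1.1 = J + D.cs (s0 + (m0 + j : ℕ)) ∧
        Ch.Z (m0 + j) s 0 = v0 * H20.pr (LG (B.q (l .a)) (B.q (l .b)) (B.q (l .t))) (ph + m0) j := by
      intro j
      have h1 := H76.col_nonneg (ph + (m0 + j : ℕ))
      have h2 := H76.col_le (ph + (m0 + j : ℕ))
      have h3 := X.cs (m0 + j : ℕ)
      exact ex_at c D hi (m0 + j) (by rw [h3]; linarith) (by rw [h3]; linarith) (hov j)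
    rcases Nat.lt_or_ge m m0 with h | h
    · obtain ⟨s, -⟩ := key 0
      exact ⟨s, fun j hj => by omega⟩
    · obtain ⟨s, hs⟩ := key (m - m0)
      refine ⟨s, fun j hj => ?_⟩
      have : m - m0 = j := by omega
      rw [this] at hs
      exact hs
  choose ω hω using hexω
  have hω' : ∀ j, (ω (m0 + j)).1.1 = J + D.cs (s0 + (m0 + j : ℕ)) ∧
      Ch.Z (m0 + j) (ω (m0 + j)) 0 = v0 * H20.pr (LG (B.q (l .a)) (B.q (l .b)) (B.q (l .t))) (ph + m0) j :=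
    fun j => hω (m0 + j) j rfl
  have hωm : ∀ m, m0 ≤ m → (ω m).1.1 = J + D.cs (s0 + m) ∧
      Ch.Z m (ω m) 0 = v0 * H20.pr (LG (B.q (l .a)) (B.q (l .b)) (B.q (l .t))) (ph + m0) (m - m0) := by
    intro m hm
    obtain ⟨j, rfl⟩ := Nat.exists_eq_add_of_le hm
    rw [Nat.add_sub_cancel_left]
    exact hω' j
  -- the hole line
  have hexa : ∀ m, ∃ s : Sd c D s0 κ0 κ1, m0 ≤ m → s.1.1 = Aw Wd (ph + m) + D.cs (s0 + m) ∧
      Ch.Z m s 0 = wE (B.q (l .a)) (B.q (l .b)) (B.q (l .t)) (ph + m0) v0 (m - m0) := by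
    intro m
    rcases Nat.lt_or_ge m m0 with h | h
    · exact ⟨ω m0, fun h' => by omega⟩
    · obtain ⟨j, rfl⟩ := Nat.exists_eq_add_of_le h
      obtain ⟨h1, h2⟩ := X.labA (m0 + j : ℕ)
      obtain ⟨s, hs⟩ := ex_at c D hi (m0 + j) h1 h2 (how j)
      refine ⟨s, fun _ => ?_⟩
      rw [Nat.add_sub_cancel_left]
      exact hs
  choose a ha using hexa
  -- the partners
  have hexα : ∀ m, ∃ s : Sd c D s0 κ0 κ1, m0 ≤ m → m ≤ E →
      s.1.1 = Aw Wd (ph + m) + D.cs (s0 + m) + (if D.b (s0 + m) = true then 1 else -1) ∧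
      P (Ch.Z m (a m) 0) = Ch.Z m s (Ch.h m s) := by
    intro m
    by_cases h : m0 ≤ m ∧ m ≤ E
    · obtain ⟨h1, h2⟩ := X.labα m
      have h3 := (ha m h.1).1
      obtain ⟨hy, h4⟩ := hrg.wall c hi h.2 (a m)
        (κ' := Aw Wd (ph + m) + D.cs (s0 + m) + (if D.b (s0 + m) = true then 1 else -1))
        (by rw [h3]; split_ifs <;> ring) h1 h2
      exact ⟨_, fun _ _ => ⟨rfl, h4⟩⟩
    · exact ⟨ω m0, fun h1 h2 => absurd ⟨h1, h2⟩ h⟩
  choose α hα using hexα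
  -- basic facts
  have hPz : ∀ m (s : Sd c D s0 κ0 κ1), m ≤ E → P (Ch.Z m s 0) = Ch.Z m s 0 * B.q (l (wl (D.b (s0 + m)))) := by
    intro m s hm
    show Ch.Z m s 0 * B.q (l (g.mt c (Ch.Z m s 0))) = _
    rw [hrg.mt_zero c s.2.1 s.2.2.1 hm (Z_over D c hi m s 0)]
  have huniq : ∀ m (s s' : Sd c D s0 κ0 κ1), m ≤ E → Ch.Z m s 0 = Ch.Z m s' 0 → s = s' := by
    intro m s s' hm h
    exact (H.inj m s 0 m s' 0 hm hm (Nat.zero_le _) (Nat.zero_le _) h).2.1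
  have hx : ∀ m, m0 ≤ m → ph + (m : ℤ) = ph + m0 + ((m - m0 : ℕ) : ℤ) := by
    intro m hm
    push_cast [Nat.cast_sub hm]
    ring
  have hom : ∀ m, m0 ≤ m → m < E → P (Ch.Z m (ω m) 0) = Ch.Z m (ω (m + 1)) (Ch.h m (ω (m + 1))) := by
    intro m h1 h2
    rw [hPz m _ h2.le]
    have h3 := (hωm (m + 1) (by omega)).2
    rw [cZ_up, show m + 1 - m0 = m - m0 + 1 by omega] at h3
    have h4 : v0 * H20.pr (LG (B.q (l .a)) (B.q (l .b)) (B.q (l .t))) (ph + m0) (m - m0 + 1) =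
        Ch.Z m (ω m) 0 * (B.q (l (wl (D.b (s0 + m)))) * B.q (l .t)) := by
      rw [(hωm m h1).2, X.b, hx m h1, mul_assoc v0]
      congr 1
      show H20.pr _ (ph + m0) (m - m0) * LG _ _ _ (ph + m0 + ((m - m0 : ℕ) : ℤ)) = _
      congr 1
      exact (LL_bw (qq B l) _).symm
    rw [h4, ← mul_assoc] at h3
    exact (mul_right_cancel h3).symm
  have hoddh : ∀ m (s : Sd c D s0 κ0 κ1), 1 ≤ Ch.h m s ∧ H76.ll (D.b (s0 + m)) (Ch.h m s - 1) = ow (D.b (s0 + m)) := by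
    intro m s
    have h1 := D.ln_pos s.1.1 (s0 + m)
    refine ⟨h1, ?_⟩
    unfold H76.ll
    rw [if_pos]
    show (D.ln s.1.1 (s0 + m) - 1) % 2 = 0
    unfold Bd.ln
    omega
  have h3a : ∀ m, m0 ≤ m → 3 ≤ Ch.h m (a m) := by
    intro m hm
    show 3 ≤ D.ln (a m).1.1 (s0 + m)
    have h1 := X.hw2 m
    rw [← (ha m hm).1] at h1
    unfold Bd.ln
    omega
  have hwE : ∀ m, m0 ≤ m → Ch.Z (m + 1) (a (m + 1)) 0 = Ch.Z m (a m) 0 * (B.q (l (ow (D.b (s0 + m)))) * B.q (l .t)) *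
      (B.q (l (ow (D.b (s0 + (m + 1 : ℕ))))) * B.q (l (wl (D.b (s0 + (m + 1 : ℕ)))))) := by
    intro m hm
    have e1 : ph + ((m + 1 : ℕ) : ℤ) = ph + m0 + ((m - m0 : ℕ) : ℤ) + 1 := by
      push_cast [Nat.cast_sub hm]
      ring
    rw [(ha (m + 1) (by omega)).2, (ha m hm).2, show m + 1 - m0 = m - m0 + 1 by omega, wE_succ, X.b, X.b, hx m hm, e1]
    have k1 : KG (B.q (l .a)) (B.q (l .b)) (B.q (l .t)) (ph + m0 + ((m - m0 : ℕ) : ℤ)) =
        B.q (l (ow (bw (ph + m0 + ((m - m0 : ℕ) : ℤ))))) * B.q (l .t) := (KK_bw (qq B l) _).symm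
    have k2 : KG (B.q (l .a)) (B.q (l .b)) (B.q (l .t)) (ph + m0 + ((m - m0 : ℕ) : ℤ) + 1) *
        (LG (B.q (l .a)) (B.q (l .b)) (B.q (l .t)) (ph + m0 + ((m - m0 : ℕ) : ℤ) + 1))⁻¹ =
        B.q (l (ow (bw (ph + m0 + ((m - m0 : ℕ) : ℤ) + 1)))) * B.q (l (wl (bw (ph + m0 + ((m - m0 : ℕ) : ℤ) + 1)))) :=
      (ow_wl (qq B l) (fun i => q_sq hi i) _).symm
    rw [k1, k2]
  have hwal : ∀ m, m0 ≤ m → m ≤ E → P (Ch.Z m (a m) 0) = Ch.Z m (α m) (Ch.h m (α m)) := fun m h1 h2 => (hα m h1 h2).2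
  have hlast : ∀ m, m0 ≤ m → m < E → Ch.Z (m + 1) (α (m + 1)) (Ch.h (m + 1) (α (m + 1)) - 1) =
      Ch.Z m (a m) 0 * (B.q (l (ow (D.b (s0 + m)))) * B.q (l .t)) := by
    intro m h1 h2
    obtain ⟨o1, o2⟩ := hoddh (m + 1) (α (m + 1))
    have h3 := hwal (m + 1) (by omega) h2
    rw [hPz (m + 1) _ h2, hwE m h1] at h3
    have h4 := cZ_succ c D (m + 1) (α (m + 1)) (Ch.h (m + 1) (α (m + 1)) - 1)
    rw [Nat.sub_add_cancel o1, o2, ← hCh, ← h3] at h4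
    have h5 : ∀ x y z : Q, z * z = 1 → x * (y * z) * z = x * y := by
      intro x y z hz
      rw [mul_assoc, mul_assoc, hz, mul_one]
    rw [h5 _ _ _ (q_sq hi _)] at h4
    exact (mul_right_cancel h4).symm
  have hsea : ∀ m, m0 ≤ m → m < E → P (Ch.Z m (a m) 1) = Ch.Z (m + 1) (α (m + 1)) (Ch.h (m + 1) (α (m + 1)) - 1) := by
    intro m h1 h2
    rw [hlast m h1 h2]
    have h3 := h3a m h1
    show Ch.Z m (a m) 1 * B.q (l (g.mt c (Ch.Z m (a m) 1))) = _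
    rw [hrg.mt_mid c (a m).2.1 (a m).2.2.1 h2.le (Z_over D c hi m (a m) 1) Nat.one_pos (by
      show 1 < Ch.h m (a m)
      omega)]
    have h4 := cZ_succ c D m (a m) 0
    rw [← hCh] at h4
    rw [h4, mul_assoc]
    rfl
  have hf : ∀ m : ℕ, D.cs (s0 + (m + 1 : ℕ)) = D.cs (s0 + m) + if D.b (s0 + m) = true then 1 else -1 := by
    intro m
    have e : s0 + ((m + 1 : ℕ) : ℤ) = s0 + m + 1 := by push_cast; ring
    rw [e, D.hcs]
  have hαlab : ∀ m, m0 ≤ m → m < E → (α (m + 1)).1.1 = D.sk (a m).1.1 (s0 + m) := by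
    intro m h1 h2
    have h3 := X.lab m
    have e : s0 + ((m + 1 : ℕ) : ℤ) = s0 + m + 1 := by push_cast; ring
    have e' : ph + ((m + 1 : ℕ) : ℤ) = ph + m + 1 := by push_cast; ring
    rw [(hα (m + 1) (by omega) h2).1, (ha m h1).1, h3, e, e']
  have a0 : a m0 = ω m0 := by
    refine huniq m0 _ _ (by omega) ?_
    rw [(ha m0 le_rfl).2, (hωm m0 le_rfl).2, Nat.sub_self, wE_zero]
    exact (mul_one _).symm
  have hclo' : ∀ j, m0 + j ≤ E → (a (m0 + j) = ω (m0 + j) ↔ Aw Wd (ph + (m0 + j : ℕ)) = J ∧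
      CloG (B.q (l .a)) (B.q (l .b)) (B.q (l .t)) (ph + m0) j) := by
    intro j hj
    have h1 := ha (m0 + j) (Nat.le_add_right _ _)
    have h2 := hωm (m0 + j) (Nat.le_add_right _ _)
    rw [Nat.add_sub_cancel_left] at h1 h2
    constructor
    · intro h
      rw [h] at h1
      refine ⟨?_, ?_⟩
      · have h3 := h1.1.symm.trans h2.1
        linarith
      · rw [← cloG_iff _ _ _ _ v0, ← h1.2, h2.2]
    · rintro ⟨-, h⟩
      refine huniq _ _ _ hj ?_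
      rw [h1.2, h2.2, cloG_iff]
      exact h
  have hN : Gd (hlT Ch ω a α) P Ch m0 (m0 + i) (fun m s => s.1.1 - D.cs (s0 + m))
      (fun m => - if D.b (s0 + m) = true then 1 else -1) := by
    have hj : ∀ m, m0 < m → m ≤ m0 + i → 2 ≤ Ch.h m (α m) := by
      intro m h1 h2
      obtain ⟨m', rfl⟩ : ∃ m', m = m' + 1 := ⟨m - 1, by omega⟩
      show 2 ≤ D.ln (α (m' + 1)).1.1 (s0 + ((m' + 1 : ℕ) : ℤ))
      have e : s0 + ((m' + 1 : ℕ) : ℤ) = s0 + m' + 1 := by push_cast; ring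
      rw [hαlab m' (by omega) (by omega), e, ln_sk]
      have := h3a m' (by omega)
      exact le_trans (by norm_num) this
    refine
      { lt := by omega
        a0 := a0
        i0 := rfl
        sea := fun m h1 h2 => hsea m h1 (by omega)
        wall := fun m h1 h2 => hom m h1 (by omega)
        stp := fun m h1 h2 => Or.inr ⟨?_, rfl, hwal m h1.le (by omega), ?_, ?_⟩
        end1 := ?_
        end2 := ?_
        end3 := ?_
        jpos := fun m h1 h2 => ?_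
        ipos := fun m h1 h2 => ⟨le_rfl, ?_⟩
        kap := fun m s => ?_
        kom := fun m h1 h2 => ?_
        kse := fun m h1 h2 => ?_
        f0 := fun m => ?_
        ne := fun m h1 h2 => ?_ }
    · show Ch.h m (α m) - 1 + 1 = Ch.h m (α m)
      have := hj m h1 h2.le
      omega
    · show a m ≠ ω m
      intro h
      obtain ⟨j, rfl⟩ := Nat.exists_eq_add_of_le h1.le
      obtain ⟨k1, k2⟩ := (hclo' j (by omega)).1 h
      exact hfst j (by omega) (by omega) k1 k2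
    · show (α m).1.1 - D.cs (s0 + m) = (a m).1.1 - D.cs (s0 + m) - -(if D.b (s0 + m) = true then 1 else -1)
      rw [(hα m h1.le (by omega)).1, (ha m h1.le).1]
      ring
    · show Ch.h (m0 + i) (α (m0 + i)) - 1 + 1 = Ch.h (m0 + i) (α (m0 + i))
      have := hj (m0 + i) (by omega) le_rfl
      omega
    · show P (Ch.Z (m0 + i) (ω (m0 + i)) 0) = Ch.Z (m0 + i) (α (m0 + i)) (Ch.h (m0 + i) (α (m0 + i)))
      rw [← (hclo' i hE.le).2 ⟨hcl, hclo⟩]
      exact hwal _ (by omega) (by omega)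
    · show (α (m0 + i)).1.1 - D.cs (s0 + (m0 + i : ℕ)) = (ω (m0 + i)).1.1 - D.cs (s0 + (m0 + i : ℕ)) -
        -(if D.b (s0 + (m0 + i : ℕ)) = true then 1 else -1)
      rw [(hα (m0 + i) (by omega) (by omega)).1, (hω' i).1, hcl]
      ring
    · show 1 ≤ Ch.h m (α m) - 1 ∧ Ch.h m (α m) - 1 < Ch.h m (α m)
      have := hj m h1 h2
      omega
    · show 1 < Ch.h m (a m)
      have := h3a m h1
      omega
    · show s.1.1 - D.cs (s0 + (m + 1 : ℕ)) = s.1.1 - D.cs (s0 + m) + -(if D.b (s0 + m) = true then 1 else -1)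
      rw [hf]
      ring
    · show (ω (m + 1)).1.1 - D.cs (s0 + m) = (ω m).1.1 - D.cs (s0 + m) - -(if D.b (s0 + m) = true then 1 else -1)
      rw [(hωm (m + 1) (by omega)).1, (hωm m h1).1, hf]
      ring
    · show (-(if D.b (s0 + (m + 1 : ℕ)) = true then (1 : ℤ) else -1) = -(if D.b (s0 + m) = true then 1 else -1) ∧
          (α (m + 1)).1.1 - D.cs (s0 + (m + 1 : ℕ)) = (a m).1.1 - D.cs (s0 + (m + 1 : ℕ)) -
            -(if D.b (s0 + (m + 1 : ℕ)) = true then 1 else -1)) ∨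
        (-(if D.b (s0 + (m + 1 : ℕ)) = true then (1 : ℤ) else -1) = - -(if D.b (s0 + m) = true then 1 else -1) ∧
          (α (m + 1)).1.1 - D.cs (s0 + (m + 1 : ℕ)) = (a m).1.1 - D.cs (s0 + (m + 1 : ℕ)))
      rw [hαlab m h1 (by omega)]
      have e : s0 + ((m + 1 : ℕ) : ℤ) = s0 + m + 1 := by push_cast; ring
      unfold Bd.sk
      rw [e]
      cases D.b (s0 + m) <;> cases D.b (s0 + m + 1)
      · exact Or.inl ⟨by simp, by simp; ring⟩
      · exact Or.inr ⟨by simp, by simp⟩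
      · exact Or.inr ⟨by simp, by simp⟩
      · exact Or.inl ⟨by simp, by simp; ring⟩
    · show -(if D.b (s0 + m) = true then (1 : ℤ) else -1) ≠ 0
      split_ifs <;> norm_num
    · show α (m + 1) ≠ a m
      intro h
      have e : s0 + ((m + 1 : ℕ) : ℤ) = s0 + m + 1 := by push_cast; ring
      have h3 := hαlab m h1 (by omega)
      rw [h] at h3
      have hb : D.b (s0 + m) ≠ D.b (s0 + m + 1) := by
        intro hb
        unfold Bd.sk at h3
        rw [← hb] at h3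
        cases hbb : D.b (s0 + m) <;> rw [hbb] at h3 <;> simp at h3
        omega
      have h4 := hlast m h1 (by omega)
      rw [h] at h4
      refine X.ne_sea hi (ha m h1).1 hb ?_
      rw [← hCh, h4]
      have h5 := cZ_succ c D m (a m) 0
      rw [← hCh] at h5
      rw [h5, mul_assoc]
      rfl
  -- the moved strands
  set A : Set (Sd c D s0 κ0 κ1) := (ω '' Set.Icc m0 (m0 + i)) ∪ ((a '' Set.Icc m0 (m0 + i)) ∪ (α '' Set.Icc m0 (m0 + i)))
    with hA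
  have hsup : Trail.Ok.Sup (hlT Ch ω a α) A m0 (m0 + i) :=
    ⟨fun m h1 h2 => Or.inl ⟨m, ⟨h1, h2⟩, rfl⟩, fun m h1 h2 => Or.inr (Or.inr ⟨m, ⟨h1.le, h2⟩, rfl⟩),
      fun m h1 h2 => Or.inr (Or.inl ⟨m, ⟨h1, h2.le⟩, rfl⟩)⟩
  have hcard : A.ncard ≤ 3 * (i + 1) := by
    have hI : (Set.Icc m0 (m0 + i)).ncard = i + 1 := by
      rw [← Finset.coe_Icc, Set.ncard_coe_finset, Nat.card_Icc]
      omega
    have him : ∀ f : ℕ → Sd c D s0 κ0 κ1, (f '' Set.Icc m0 (m0 + i)).ncard ≤ i + 1 := fun f => by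
      rw [← hI]
      exact Set.ncard_image_le (Set.finite_Icc _ _)
    have h1 := him ω
    have h2 := him a
    have h3 := him α
    have h4 := Set.ncard_union_le (ω '' Set.Icc m0 (m0 + i)) ((a '' Set.Icc m0 (m0 + i)) ∪ (α '' Set.Icc m0 (m0 + i)))
    have h5 := Set.ncard_union_le (a '' Set.Icc m0 (m0 + i)) (α '' Set.Icc m0 (m0 + i))
    rw [hA]
    omega
  obtain ⟨σ, s1, s2, s3, s4⟩ := hN.real H hE hii hsup
  have hne : ω m0 ≠ ω (m0 + 1) := (hN.ω_ne le_rfl (by omega : m0 < m0 + i)).symm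
  have hαω : α (m0 + i) = ω (m0 + i + 1) := by
    have h1 := hwal (m0 + i) (by omega) (by omega)
    rw [(hclo' i hE.le).2 ⟨hcl, hclo⟩, hom (m0 + i) (by omega) (by omega)] at h1
    exact (H.inj _ _ _ _ _ _ hE.le hE.le le_rfl le_rfl h1).2.1.symm
  refine ⟨ω, A, σ, fun j _ => hω' j, hcard, s1, Or.inl ⟨m0, ⟨le_rfl, by omega⟩, rfl⟩,
    Or.inl ⟨m0 + 1, ⟨by omega, by omega⟩, rfl⟩, hne, ?_, s3, win_pair hne σ, ?_⟩
  · rw [← hαω]
    exact s2
  · have hNN := hN.chg H hE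
    refine ⟨(hNN.mch H.mch).hf hii, fun x hx => ?_, ?_, s4⟩
    · rw [hNN.H_off H.mch hii, ← g.mch_hf c hl hi hq hii]
      rintro y ⟨m, s, r, m', s', r', h1, rfl, rfl⟩
      obtain ⟨v1, v2, v3⟩ := Gd.NI.val hN H hE h1
      exact hx ⟨m, v1, v2, Ch.mem v3⟩
    · rintro x y ⟨j, hj, -⟩
      exact ⟨_, hj⟩

end GadR

end Pool.Agent.Lib.MP_688fd0_co.SQ5.H22
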