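import Pool.Agent.Lib.MP_688fd0_co.SQ5.H22.GadP

/-!
MP_688fd0_co, type C2 (helper22): the T-gadget in the Cayley graph of three involutive letters, second part. `Gd.pfam`.
-/

set_option autoImplicit false

namespace Pool.Agent.Lib.MP_688fd0_co.SQ5.H22

open Function Equiv
open Pool.Agent.Lib.MP_688fd0_co.OSF Pool.Agent.Lib.MP_688fd0_co.SQ2 Pool.Agent.Lib.MP_688fd0_co.SQ3
open Pool.Agent.Lib.MP_688fd0_co.SQ5.H64 Pool.Agent.Lib.MP_688fd0_co.SQ5.H95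

universe u v

variable {Q : Type u} [Group Q] {B : Lb.{u, v} Q} {S : Type*}

/-- The trail of the two holes from the rung at block `n0` to the cup at block `n`, for the matching `P`. -/
structure Gd (R : Trail S) (P : Q → Q) (C : Chart Q S) (n0 n : ℕ) (κ : ℕ → S → ℤ) (f : ℕ → ℤ) : Prop where
  lt : n0 < n
  a0 : R.a n0 = R.ω n0
  i0 : R.i n0 = 1
  sea : ∀ m, n0 ≤ m → m < n → P (C.Z m (R.a m) (R.i m)) = C.Z (m + 1) (R.α (m + 1)) (R.j (m + 1))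
  wall : ∀ m, n0 ≤ m → m < n → P (C.Z m (R.ω m) 0) = C.Z m (R.ω (m + 1)) (C.h m (R.ω (m + 1)))
  stp : ∀ m, n0 < m → m < n → (R.j m + 1 < C.h m (R.α m) ∧ R.a m = R.α m ∧ R.i m = R.j m + 1) ∨
    (R.j m + 1 = C.h m (R.α m) ∧ R.i m = 1 ∧ P (C.Z m (R.a m) 0) = C.Z m (R.α m) (C.h m (R.α m)) ∧
      R.a m ≠ R.ω m ∧ κ m (R.α m) = κ m (R.a m) - f m)
  end1 : R.j n + 1 = C.h n (R.α n)
  end2 : P (C.Z n (R.ω n) 0) = C.Z n (R.α n) (C.h n (R.α n))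
  end3 : κ n (R.α n) = κ n (R.ω n) - f n
  jpos : ∀ m, n0 < m → m ≤ n → 1 ≤ R.j m ∧ R.j m < C.h m (R.α m)
  ipos : ∀ m, n0 ≤ m → m < n → 1 ≤ R.i m ∧ R.i m < C.h m (R.a m)
  kap : ∀ m s, κ (m + 1) s = κ m s + f m
  kom : ∀ m, n0 ≤ m → m < n → κ m (R.ω (m + 1)) = κ m (R.ω m) - f m
  kse : ∀ m, n0 ≤ m → m < n →
    (f (m + 1) = f m ∧ κ (m + 1) (R.α (m + 1)) = κ (m + 1) (R.a m) - f (m + 1)) ∨
    (f (m + 1) = - f m ∧ κ (m + 1) (R.α (m + 1)) = κ (m + 1) (R.a m))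
  f0 : ∀ m, f m ≠ 0
  /-- the sea edges join different strands -/
  ne : ∀ m, n0 ≤ m → m < n → R.α (m + 1) ≠ R.a m

/-- The new pairs, indices. -/
def NI (R : Trail S) (h : ℕ → S → ℕ) (n0 n : ℕ) (m : ℕ) (s : S) (r : ℕ) (m' : ℕ) (s' : S) (r' : ℕ) : Prop :=
  (n0 ≤ m ∧ m < n ∧ s = R.ω (m + 1) ∧ r = h m s ∧ m' = m + 1 ∧ s' = s ∧ r' = 0) ∨
  (n0 < m ∧ m ≤ n ∧ s = R.ω m ∧ r = 0 ∧ m' + 1 = m ∧ s' = s ∧ r' = h m' s) ∨
  (m = n0 ∧ s = R.ω m ∧ r = 0 ∧ m' = m ∧ s' = s ∧ r' = 1) ∨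
  (m = n0 ∧ s = R.ω m ∧ r = 1 ∧ m' = m ∧ s' = s ∧ r' = 0) ∨
  (n0 < m ∧ m ≤ n ∧ s = R.α m ∧ r = R.j m ∧ m' = m ∧ s' = s ∧ r' = r + 1) ∨
  (n0 < m ∧ m ≤ n ∧ s = R.α m ∧ r = R.j m + 1 ∧ m' = m ∧ s' = s ∧ r' + 1 = r) ∨
  (n0 < m ∧ m < n ∧ R.j m + 1 = h m (R.α m) ∧ s = R.a m ∧ r = 0 ∧ m' = m ∧ s' = s ∧ r' = 1) ∨
  (n0 < m ∧ m < n ∧ R.j m + 1 = h m (R.α m) ∧ s = R.a m ∧ r = 1 ∧ m' = m ∧ s' = s ∧ r' = 0)

/-- The new pairs. -/
def New (R : Trail S) (C : Chart Q S) (n0 n : ℕ) (x y : Q) : Prop :=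
  ∃ m s r m' s' r', NI R C.h n0 n m s r m' s' r' ∧ x = C.Z m s r ∧ y = C.Z m' s' r'

open Classical in
/-- The partner. -/
noncomputable def nu (R : Trail S) (h : ℕ → S → ℕ) (n0 n : ℕ) (m : ℕ) (s : S) (r : ℕ) : ℕ × S × ℕ :=
  if r = 0 then (if s = R.ω m then (if m = n0 then (m, s, 1) else (m - 1, s, h (m - 1) s)) else (m, s, 1))
  else if s = R.ω (m + 1) ∧ r = h m s ∧ m < n then (m + 1, s, 0)
  else if m = n0 then (m, s, 0)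
  else if s = R.α m then (if r = R.j m then (m, s, r + 1) else (m, s, r - 1))
  else (m, s, 0)

namespace Gd

variable {R : Trail S} {P : Q → Q} {C : Chart Q S} {n0 n : ℕ} {κ : ℕ → S → ℤ} {f : ℕ → ℤ}

theorem ω_ne (G : Gd R P C n0 n κ f) {m : ℕ} (h1 : n0 ≤ m) (h2 : m < n) : R.ω (m + 1) ≠ R.ω m := by
  intro h
  have := G.kom m h1 h2
  rw [h] at this
  have := G.f0 m
  omega

/-- In a wall step `a` and `α` are different. -/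
theorem a_ne (G : Gd R P C n0 n κ f) {m : ℕ} (h1 : n0 < m) (h2 : m < n) (h3 : R.j m + 1 = C.h m (R.α m)) :
    R.i m = 1 ∧ P (C.Z m (R.a m) 0) = C.Z m (R.α m) (C.h m (R.α m)) ∧ R.a m ≠ R.ω m ∧ R.a m ≠ R.α m := by
  rcases G.stp m h1 h2 with h | ⟨_, b1, b2, b3, b4⟩
  · exact absurd h.1 (by omega)
  · refine ⟨b1, b2, b3, fun h => ?_⟩
    rw [h] at b4
    have := G.f0 m
    omega

section

variable {T : Tri B} {E : ℕ}

theorem ωα (G : Gd R P C n0 n κ f) (H : Rn T P C E) (hE : n < E) {m : ℕ} (h1 : n0 < m) (h2 : m < n)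
    (h3 : R.j m + 1 = C.h m (R.α m)) : R.ω (m + 1) ≠ R.α m := by
  obtain ⟨-, b2, b3, -⟩ := G.a_ne h1 h2 h3
  intro h
  have h4 := G.wall m (by omega) h2
  rw [h, ← b2] at h4
  have h5 := congrArg P h4
  rw [H.mch.inv, H.mch.inv] at h5
  exact b3 (H.inj _ _ _ _ _ _ (by omega) (by omega) (Nat.zero_le _) (Nat.zero_le _) h5).2.1.symm

/-- The partner is unique. -/
theorem nu_eq (G : Gd R P C n0 n κ f) (H : Rn T P C E) (hE : n < E) {m : ℕ} {s : S} {r m' : ℕ} {s' : S} {r' : ℕ}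
    (h : NI R C.h n0 n m s r m' s' r') : (m', s', r') = nu R C.h n0 n m s r := by
  unfold nu
  rcases h with ⟨h1, h2, h3, h4, h5, h6, h7⟩ | ⟨h1, h2, h3, h4, h5, h6, h7⟩ | ⟨h1, h2, h3, h4, h5, h6⟩ |
    ⟨h1, h2, h3, h4, h5, h6⟩ | ⟨h1, h2, h3, h4, h5, h6, h7⟩ | ⟨h1, h2, h3, h4, h5, h6, h7⟩ |
    ⟨h0, h1, h2, h3, h4, h5, h6, h7⟩ | ⟨h0, h1, h2, h3, h4, h5, h6, h7⟩
  · have h8 := H.hpos m s (by omega)
    rw [if_neg (by omega), if_pos ⟨h3, h4, h2⟩, h5, h6, h7]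
  · rw [if_pos h4, if_pos h3, if_neg (by omega), h6, h7, show m' = m - 1 by omega]
  · rw [if_pos h3, if_pos h2, if_pos h1, h4, h5, h6]
  · have h8 : s ≠ R.ω (m + 1) := by
      rw [h2]
      have := G.lt
      exact (G.ω_ne (by omega) (by omega)).symm
    rw [if_neg (by omega), if_neg (fun h => h8 h.1), if_pos h1, h4, h5, h6]
  · obtain ⟨j1, j2⟩ := G.jpos m h1 h2
    have h8 : ¬ (s = R.ω (m + 1) ∧ r = C.h m s ∧ m < n) := by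
      rintro ⟨-, h8, -⟩
      rw [h3] at h8
      omega
    rw [if_neg (by omega), if_neg h8, if_neg (by omega), if_pos h3, if_pos h4, h5, h6, h7]
  · obtain ⟨j1, j2⟩ := G.jpos m h1 h2
    have h8 : ¬ (s = R.ω (m + 1) ∧ r = C.h m s ∧ m < n) := by
      rintro ⟨a1, a2, a3⟩
      rw [h3] at a2
      exact G.ωα H hE h1 a3 (by omega) (by rw [← a1, h3])
    rw [if_neg (by omega), if_neg h8, if_neg (by omega), if_pos h3, if_neg (by omega), h5, h6,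
      show r' = r - 1 by omega]
  · obtain ⟨-, -, b3, -⟩ := G.a_ne h0 h1 h2
    rw [if_pos h4, if_neg (by rw [h3]; exact b3), h5, h6, h7]
  · obtain ⟨b1, -, -, b4⟩ := G.a_ne h0 h1 h2
    have h8 : ¬ (s = R.ω (m + 1) ∧ r = C.h m s ∧ m < n) := by
      rintro ⟨-, a2, -⟩
      have := (G.ipos m h0.le h1).2
      rw [h3] at a2
      omega
    rw [if_neg (by omega), if_neg h8, if_neg (by omega), if_neg (by rw [h3]; exact b4), h5, h6, h7]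

theorem NI.sym {h : ℕ → S → ℕ} {m : ℕ} {s : S} {r m' : ℕ} {s' : S} {r' : ℕ}
    (hn : NI R h n0 n m s r m' s' r') : NI R h n0 n m' s' r' m s r := by
  rcases hn with ⟨h1, h2, h3, h4, h5, h6, h7⟩ | ⟨h1, h2, h3, h4, h5, h6, h7⟩ | ⟨h1, h2, h3, h4, h5, h6⟩ |
    ⟨h1, h2, h3, h4, h5, h6⟩ | ⟨h1, h2, h3, h4, h5, h6, h7⟩ | ⟨h1, h2, h3, h4, h5, h6, h7⟩ |
    ⟨h0, h1, h2, h3, h4, h5, h6, h7⟩ | ⟨h0, h1, h2, h3, h4, h5, h6, h7⟩
  · subst h5 h6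
    exact Or.inr (Or.inl ⟨by omega, by omega, h3, h7, rfl, rfl, h4⟩)
  · subst h5 h6
    exact Or.inl ⟨by omega, by omega, h3, h7, rfl, rfl, h4⟩
  · subst h4 h5
    exact Or.inr (Or.inr (Or.inr (Or.inl ⟨h1, h2, h6, rfl, rfl, h3⟩)))
  · subst h4 h5
    exact Or.inr (Or.inr (Or.inl ⟨h1, h2, h6, rfl, rfl, h3⟩))
  · subst h5 h6
    exact Or.inr (Or.inr (Or.inr (Or.inr (Or.inr (Or.inl ⟨h1, h2, h3, by omega, rfl, rfl, by omega⟩)))))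
  · subst h5 h6
    exact Or.inr (Or.inr (Or.inr (Or.inr (Or.inl ⟨h1, h2, h3, by omega, rfl, rfl, by omega⟩))))
  · subst h5 h6
    exact Or.inr (Or.inr (Or.inr (Or.inr (Or.inr (Or.inr (Or.inr ⟨h0, h1, h2, h3, h7, rfl, rfl, h4⟩))))))
  · subst h5 h6
    exact Or.inr (Or.inr (Or.inr (Or.inr (Or.inr (Or.inr (Or.inl ⟨h0, h1, h2, h3, h7, rfl, rfl, h4⟩))))))

/-- The indices of a new pair are in the region. -/
theorem NI.val (G : Gd R P C n0 n κ f) (H : Rn T P C E) (hE : n < E) {m : ℕ} {s : S} {r m' : ℕ} {s' : S} {r' : ℕ}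
    (hn : NI R C.h n0 n m s r m' s' r') : n0 ≤ m ∧ m ≤ n ∧ r ≤ C.h m s := by
  have hlt := G.lt
  rcases hn with ⟨h1, h2, h3, h4, h5, h6, h7⟩ | ⟨h1, h2, h3, h4, h5, h6, h7⟩ | ⟨h1, h2, h3, h4, h5, h6⟩ |
    ⟨h1, h2, h3, h4, h5, h6⟩ | ⟨h1, h2, h3, h4, h5, h6, h7⟩ | ⟨h1, h2, h3, h4, h5, h6, h7⟩ |
    ⟨h0, h1, h2, h3, h4, h5, h6, h7⟩ | ⟨h0, h1, h2, h3, h4, h5, h6, h7⟩
  · exact ⟨h1, h2.le, h4.le⟩
  · exact ⟨h1.le, h2, by omega⟩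
  · exact ⟨h1.ge, by omega, by omega⟩
  · have := H.hpos m s (by omega)
    exact ⟨h1.ge, by omega, by omega⟩
  · obtain ⟨j1, j2⟩ := G.jpos m h1 h2
    rw [← h3] at j2
    exact ⟨h1.le, h2, by omega⟩
  · obtain ⟨j1, j2⟩ := G.jpos m h1 h2
    rw [← h3] at j2
    exact ⟨h1.le, h2, by omega⟩
  · exact ⟨h0.le, h1.le, by omega⟩
  · have := H.hpos m s (by omega)
    exact ⟨h0.le, h1.le, by omega⟩

theorem New.reg (G : Gd R P C n0 n κ f) (H : Rn T P C E) (hE : n < E) {x y : Q} (h : New R C n0 n x y) :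
    x ∈ C.reg n0 n := by
  obtain ⟨m, s, r, m', s', r', hn, rfl, rfl⟩ := h
  obtain ⟨h1, h2, h3⟩ := NI.val G H hE hn
  exact ⟨m, h1, h2, C.mem h3⟩

/-- New pairs are edges of the old 2-factor. -/
theorem New.adj (G : Gd R P C n0 n κ f) (H : Rn T P C E) (hE : n < E) {x y : Q} (h : New R C n0 n x y) :
    T.Adj x y := by
  have hlt := G.lt
  obtain ⟨m, s, r, m', s', r', hn, rfl, rfl⟩ := h
  rcases hn with ⟨h1, h2, h3, h4, h5, h6, h7⟩ | ⟨h1, h2, h3, h4, h5, h6, h7⟩ | ⟨h1, h2, h3, h4, h5, h6⟩ |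
    ⟨h1, h2, h3, h4, h5, h6⟩ | ⟨h1, h2, h3, h4, h5, h6, h7⟩ | ⟨h1, h2, h3, h4, h5, h6, h7⟩ |
    ⟨h0, h1, h2, h3, h4, h5, h6, h7⟩ | ⟨h0, h1, h2, h3, h4, h5, h6, h7⟩
  · rw [h4, h5, h6, h7]
    exact (H.gate m s (by omega)).1
  · rw [h4, ← h5, h6, h7]
    exact (H.gate m' s (by omega)).1.symm
  · rw [h3, h4, h5, h6]
    have := H.hpos m s (by omega)
    exact (H.line m s 0 (by omega) (by omega)).1
  · rw [h3, h4, h5, h6]
    have := H.hpos m s (by omega)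
    exact (H.line m s 0 (by omega) (by omega)).1.symm
  · obtain ⟨j1, j2⟩ := G.jpos m h1 h2
    rw [← h3] at j2
    rw [h5, h6, h7]
    exact (H.line m s r (by omega) (by omega)).1
  · obtain ⟨j1, j2⟩ := G.jpos m h1 h2
    rw [← h3] at j2
    rw [h5, h6, ← h7]
    exact (H.line m s r' (by omega) (by omega)).1.symm
  · rw [h4, h5, h6, h7]
    have := H.hpos m s (by omega)
    exact (H.line m s 0 (by omega) (by omega)).1
  · rw [h4, h5, h6, h7]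
    have := H.hpos m s (by omega)
    exact (H.line m s 0 (by omega) (by omega)).1.symm

/-- The vertices of the two paths have new partners. -/
theorem dom_w (G : Gd R P C n0 n κ f) {m : ℕ} (h1 : n0 ≤ m) (h2 : m ≤ n) : ∃ m' s' r',
    NI R C.h n0 n m (R.ω m) 0 m' s' r' ∧ ((m' + 1 = m ∧ n0 < m) ∨ (m' = m ∧ m = n0 ∧ s' = R.ω m ∧ r' = 1)) := by
  rcases Nat.lt_or_ge n0 m with h | h
  · exact ⟨m - 1, R.ω m, C.h (m - 1) (R.ω m), Or.inr (Or.inl ⟨h, h2, rfl, rfl, by omega, rfl, rfl⟩), Or.inl ⟨by omega, h⟩⟩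
  · have h3 : m = n0 := by omega
    exact ⟨m, R.ω m, 1, Or.inr (Or.inr (Or.inl ⟨h3, rfl, rfl, rfl, rfl, rfl⟩)), Or.inr ⟨rfl, h3, rfl, rfl⟩⟩

theorem dom_b (G : Gd R P C n0 n κ f) {m : ℕ} (h1 : n0 ≤ m) (h2 : m < n) : ∃ m' s' r',
    NI R C.h n0 n m (R.ω (m + 1)) (C.h m (R.ω (m + 1))) m' s' r' ∧ m' = m + 1 :=
  ⟨m + 1, R.ω (m + 1), 0, Or.inl ⟨h1, h2, rfl, rfl, rfl, rfl, rfl⟩, rfl⟩

theorem dom_j (G : Gd R P C n0 n κ f) {m : ℕ} (h1 : n0 < m) (h2 : m ≤ n) : ∃ m' s' r',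
    NI R C.h n0 n m (R.α m) (R.j m) m' s' r' ∧ m' = m :=
  ⟨m, R.α m, R.j m + 1, Or.inr (Or.inr (Or.inr (Or.inr (Or.inl ⟨h1, h2, rfl, rfl, rfl, rfl, rfl⟩)))), rfl⟩

theorem dom_j' (G : Gd R P C n0 n κ f) {m : ℕ} (h1 : n0 < m) (h2 : m ≤ n) : ∃ m' s' r',
    NI R C.h n0 n m (R.α m) (R.j m + 1) m' s' r' ∧ m' = m :=
  ⟨m, R.α m, R.j m, Or.inr (Or.inr (Or.inr (Or.inr (Or.inr (Or.inl ⟨h1, h2, rfl, rfl, rfl, rfl, rfl⟩))))), rfl⟩

theorem dom_i (G : Gd R P C n0 n κ f) {m : ℕ} (h1 : n0 ≤ m) (h2 : m < n) : ∃ m' s' r',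
    NI R C.h n0 n m (R.a m) (R.i m) m' s' r' ∧ m' = m := by
  rcases Nat.lt_or_ge n0 m with h | h
  · rcases G.stp m h h2 with ⟨b1, b2, b3⟩ | ⟨b1, b2, _⟩
    · rw [b2, b3]
      exact G.dom_j' h h2.le
    · rw [b2]
      exact ⟨m, R.a m, 0, Or.inr (Or.inr (Or.inr (Or.inr (Or.inr (Or.inr (Or.inr ⟨h, h2, b1, rfl, rfl, rfl, rfl, rfl⟩)))))),
        rfl⟩
  · have h3 : m = n0 := by omega
    subst h3
    rw [G.a0, G.i0]
    exact ⟨m, R.ω m, 0, Or.inr (Or.inr (Or.inr (Or.inl ⟨rfl, rfl, rfl, rfl, rfl, rfl⟩))), rfl⟩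

/-- The domain of the new pairs is closed under `P`. -/
theorem New.cl (G : Gd R P C n0 n κ f) (H : Rn T P C E) {x y : Q} (h : New R C n0 n x y) :
    ∃ z, New R C n0 n (P x) z := by
  have hlt := G.lt
  have hi : ∀ x y, P x = y → P y = x := fun x y h => by rw [← h, H.mch.inv]
  have put : ∀ {m : ℕ} {s : S} {r : ℕ} {w : Q}, P w = C.Z m s r → (∃ m' s' r', NI R C.h n0 n m s r m' s' r') →
      ∃ z, New R C n0 n (P w) z := by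
    rintro m s r w hw ⟨m', s', r', hn⟩
    exact ⟨C.Z m' s' r', m, s, r, m', s', r', hn, hw, rfl⟩
  have drop : ∀ {m : ℕ} {s : S} {r : ℕ} {p : ℕ → S → ℕ → Prop},
      (∃ m' s' r', NI R C.h n0 n m s r m' s' r' ∧ p m' s' r') → ∃ m' s' r', NI R C.h n0 n m s r m' s' r' := by
    rintro m s r p ⟨m', s', r', h, _⟩
    exact ⟨m', s', r', h⟩
  -- the partner of the vertex `R.i m`
  have hia : ∀ m, n0 ≤ m → m < n → ∃ z, New R C n0 n (P (C.Z m (R.a m) (R.i m))) z := fun m h1 h2 =>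
    put (G.sea m h1 h2) (by
      obtain ⟨m', s', r', h, _⟩ := G.dom_j (m := m + 1) (by omega) (by omega)
      exact ⟨m', s', r', h⟩)
  obtain ⟨m, s, r, m', s', r', hn, rfl, rfl⟩ := h
  rcases hn with ⟨h1, h2, h3, h4, h5, h6, h7⟩ | ⟨h1, h2, h3, h4, h5, h6, h7⟩ | ⟨h1, h2, h3, h4, h5, h6⟩ |
    ⟨h1, h2, h3, h4, h5, h6⟩ | ⟨h1, h2, h3, h4, h5, h6, h7⟩ | ⟨h1, h2, h3, h4, h5, h6, h7⟩ |
    ⟨h0, h1, h2, h3, h4, h5, h6, h7⟩ | ⟨h0, h1, h2, h3, h4, h5, h6, h7⟩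
  · rw [h4, h3]
    exact put (hi _ _ (G.wall m h1 h2)) (by
      obtain ⟨m', s', r', h, _⟩ := G.dom_w h1 h2.le
      exact ⟨m', s', r', h⟩)
  · rw [h4, h3]
    rcases Nat.lt_or_ge m n with h | h
    · exact put (G.wall m h1.le h) (by
        obtain ⟨m', s', r', h, _⟩ := G.dom_b h1.le h
        exact ⟨m', s', r', h⟩)
    · have h8 : m = n := le_antisymm h2 h
      subst h8
      refine put G.end2 ?_
      rw [← G.end1]
      obtain ⟨m', s', r', h, _⟩ := G.dom_j' h1 h2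
      exact ⟨m', s', r', h⟩
  · rw [h3, h2]
    exact put (G.wall m h1.ge (by omega)) (by
      obtain ⟨m', s', r', h, _⟩ := G.dom_b (m := m) h1.ge (by omega)
      exact ⟨m', s', r', h⟩)
  · subst h1
    have h8 := hia m le_rfl (by omega)
    rw [G.a0, G.i0] at h8
    rw [h3, h2]
    exact h8
  · rw [h4, h3]
    have h8 := G.sea (m - 1) (by omega) (by omega)
    rw [show m - 1 + 1 = m by omega] at h8
    exact put (hi _ _ h8) (by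
      obtain ⟨m', s', r', h, _⟩ := G.dom_i (m := m - 1) (by omega) (by omega)
      exact ⟨m', s', r', h⟩)
  · rw [h4, h3]
    rcases Nat.lt_or_ge m n with h | h
    · rcases G.stp m h1 h with ⟨b1, b2, b3⟩ | ⟨b1, b2, b3, _⟩
      · have h8 := hia m h1.le h
        rwa [b2, b3] at h8
      · rw [b1]
        exact put (hi _ _ b3) ⟨m, R.a m, 1, Or.inr (Or.inr (Or.inr (Or.inr (Or.inr (Or.inr (Or.inl
          ⟨h1, h, b1, rfl, rfl, rfl, rfl, rfl⟩))))))⟩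
    · have h8 : m = n := le_antisymm h2 h
      subst h8
      rw [G.end1]
      exact put (hi _ _ G.end2) (by
        obtain ⟨m', s', r', h, _⟩ := G.dom_w h1.le h2
        exact ⟨m', s', r', h⟩)
  · rw [h4, h3]
    obtain ⟨-, b2, -⟩ := G.a_ne h0 h1 h2
    refine put b2 ?_
    rw [← h2]
    obtain ⟨m', s', r', h, _⟩ := G.dom_j' h0 h1.le
    exact ⟨m', s', r', h⟩
  · rw [h4, h3]
    obtain ⟨b1, -, -⟩ := G.a_ne h0 h1 h2
    have h8 := hia m h0.le h1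
    rwa [b1] at h8

theorem chg (G : Gd R P C n0 n κ f) (H : Rn T P C E) (hE : n < E) : Tri.Chg T P (New R C n0 n) where
  fn x y y' h h' := by
    obtain ⟨m, s, r, m₁, s₁, r₁, hn, hx, rfl⟩ := h
    obtain ⟨m₀, s₀, r₀, m₂, s₂, r₂, hn', hx', rfl⟩ := h'
    obtain ⟨v1, v2, v3⟩ := NI.val G H hE hn
    obtain ⟨w1, w2, w3⟩ := NI.val G H hE hn'
    obtain ⟨rfl, rfl, rfl⟩ := H.inj _ _ _ _ _ _ (by omega) (by omega) v3 w3 (hx.symm.trans hx')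
    have h1 := (G.nu_eq H hE hn).trans (G.nu_eq H hE hn').symm
    simp only [Prod.mk.injEq] at h1
    obtain ⟨rfl, rfl, rfl⟩ := h1
    rfl
  sym x y h := by
    obtain ⟨m, s, r, m', s', r', hn, rfl, rfl⟩ := h
    exact ⟨m', s', r', m, s, r, NI.sym hn, rfl, rfl⟩
  adj x y h := New.adj G H hE h
  cl x y h := New.cl G H h

end

end Gd

end Pool.Agent.Lib.MP_688fd0_co.SQ5.H22
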