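import Pool.Agent.Lib.MP_688fd0_co.SQ5.H22.Gad

/-!
MP_688fd0_co, type C2 (helper22): the T-gadget in the Cayley graph of three involutive letters, result.

`Gd.real`: the matching changed along the two hole paths realises, in the blocks `n0 .. n`, the diagram
`win (ω n0) (ω (n0 + 1)) σ` with upper pair `{α n, ω n}`, and `σ` moves only the strands of the gadget.
`Rn.real_idd`: the unchanged matching realises `idd`.
-/

set_option autoImplicit false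

namespace Pool.Agent.Lib.MP_688fd0_co.SQ5.H22

open Function Equiv
open Pool.Agent.Lib.MP_688fd0_co.OSF Pool.Agent.Lib.MP_688fd0_co.SQ2 Pool.Agent.Lib.MP_688fd0_co.SQ3
open Pool.Agent.Lib.MP_688fd0_co.SQ5.H64 Pool.Agent.Lib.MP_688fd0_co.SQ5.H95

universe u v

variable {Q : Type u} [Group Q] {B : Lb.{u, v} Q} {S : Type*} {T : Tri B}

/-- Edges of the new 2-factor which are not new pairs and not old pairs. -/
theorem Tri.Chg.ed_of_not {P : Q → Q} {N : Q → Q → Prop} (hN : Tri.Chg T P N) (hP : T.Mch P)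
    (hii : ∀ g, B.inv (B.inv g) = g) {x y : Q} (h1 : T.Adj x y) (h2 : ¬ N x y) (h3 : P x ≠ y) :
    Ed ((hN.mch hP).hf hii) x y := by
  rw [(hN.mch hP).ed hii]
  refine ⟨h1, fun h => ?_⟩
  by_cases hx : ∃ z, N x z
  · obtain ⟨z, hz⟩ := hx
    rw [hN.eq hz] at h
    exact h2 (h ▸ hz)
  · push Not at hx
    rw [Tri.chg_off hx] at h
    exact h3 h.symm

/-- Old pairs of changed vertices are edges of the new 2-factor. -/
theorem Tri.Chg.ed_of_new {P : Q → Q} {N : Q → Q → Prop} (hN : Tri.Chg T P N) (hP : T.Mch P)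
    (hii : ∀ g, B.inv (B.inv g) = g) {x y z : Q} (h1 : P x = y) (h2 : N x z) (h3 : z ≠ y) :
    Ed ((hN.mch hP).hf hii) x y := by
  rw [(hN.mch hP).ed hii]
  refine ⟨h1 ▸ hP.adj x, fun h => ?_⟩
  rw [hN.eq h2] at h
  exact h3 h.symm

/-- The labels at a vertex which is not changed. -/
theorem Tri.Chg.H_off {P : Q → Q} {N : Q → Q → Prop} (hN : Tri.Chg T P N) (hP : T.Mch P)
    (hii : ∀ g, B.inv (B.inv g) = g) {x : Q} (hx : ∀ y, ¬ N x y) : ((hN.mch hP).hf hii).H x = (hP.hf hii).H x := by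
  ext g
  rw [(hN.mch hP).mem hii, hP.mem hii, Tri.chg_off hx]

namespace Gd

variable {R : Trail S} {P : Q → Q} {C : Chart Q S} {n0 n : ℕ} {κ : ℕ → S → ℤ} {f : ℕ → ℤ} {E : ℕ}

/-- A new pair with known first vertex. -/
theorem New.at (G : Gd R P C n0 n κ f) (H : Rn T P C E) (hE : n < E) {m : ℕ} {s : S} {r : ℕ} (hm : m ≤ n)
    (hr : r ≤ C.h m s) {y : Q} (h : New R C n0 n (C.Z m s r) y) : ∃ m' s' r', NI R C.h n0 n m s r m' s' r' ∧
      y = C.Z m' s' r' := by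
  obtain ⟨m₁, s₁, r₁, m', s', r', hn, hx, hy⟩ := h
  obtain ⟨v1, v2, v3⟩ := NI.val G H hE hn
  obtain ⟨rfl, rfl, rfl⟩ := H.inj _ _ _ _ _ _ (by omega) (by omega) hr v3 hx
  exact ⟨m', s', r', hn, hy⟩

theorem New.at' (G : Gd R P C n0 n κ f) (H : Rn T P C E) (hE : n < E) {m : ℕ} {s : S} {r m' : ℕ} {s' : S} {r' : ℕ}
    (hm : m ≤ n) (hr : r ≤ C.h m s) (hm' : m' ≤ n) (hr' : r' ≤ C.h m' s')
    (h : New R C n0 n (C.Z m s r) (C.Z m' s' r')) : NI R C.h n0 n m s r m' s' r' := by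
  obtain ⟨m₁, s₁, r₁, hn, hy⟩ := New.at G H hE hm hr h
  obtain ⟨v1, v2, v3⟩ := NI.val G H hE (NI.sym hn)
  obtain ⟨rfl, rfl, rfl⟩ := H.inj _ _ _ _ _ _ (by omega) (by omega) hr' v3 hy
  exact hn

/-- All conditions on the changed 2-factor. -/
theorem ok (G : Gd R P C n0 n κ f) (H : Rn T P C E) (hE : n < E) (hii : ∀ g, B.inv (B.inv g) = g) :
    R.Ok C (Ed (((G.chg H hE).mch H.mch).hf hii)) n0 n κ f := by
  have hlt := G.lt
  have hN := G.chg H hE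
  have old : ∀ {m : ℕ} {s : S} {r m' : ℕ} {s' : S} {r' m₁ : ℕ} {s₁ : S} {r₁ : ℕ},
      P (C.Z m s r) = C.Z m' s' r' → m' ≤ n → r' ≤ C.h m' s' → NI R C.h n0 n m s r m₁ s₁ r₁ →
      (m₁ ≠ m' ∨ s₁ ≠ s') → Ed ((hN.mch H.mch).hf hii) (C.Z m s r) (C.Z m' s' r') := by
    intro m s r m' s' r' m₁ s₁ r₁ h1 h2 h3 h4 h5
    refine hN.ed_of_new H.mch hii h1 ⟨m, s, r, m₁, s₁, r₁, h4, rfl, rfl⟩ fun h => ?_
    obtain ⟨v1, v2, v3⟩ := NI.val G H hE (NI.sym h4)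
    obtain ⟨e1, e2, -⟩ := H.inj _ _ _ _ _ _ (by omega) (by omega) v3 h3 h
    rcases h5 with h5 | h5
    · exact h5 e1
    · exact h5 e2
  refine
    { sym := fun _ _ h => h.symm
      lt := hlt
      a0 := G.a0
      i0 := G.i0
      line := ?_
      gate := ?_
      sea := ?_
      wall := ?_
      stp := ?_
      end1 := G.end1
      end2 := ?_
      end3 := G.end3
      jpos := G.jpos
      ipos := fun m h1 h2 => ⟨(G.ipos m h1 h2).1, (G.ipos m h1 h2).2.le⟩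
      kap := G.kap
      kom := G.kom
      kse := G.kse
      f0 := G.f0
      ne := G.ne }
  · intro m s r h1 h2 h3 h4
    obtain ⟨a1, a2⟩ := H.line m s r (by omega) h3
    refine hN.ed_of_not H.mch hii a1 (fun h => h4 ?_) a2
    have h5 := New.at' G H hE h2 h3.le h2 (show r + 1 ≤ C.h m s from h3) h
    rcases h5 with ⟨k1, k2, k3, k4, k5, k6, k7⟩ | ⟨k1, k2, k3, k4, k5, k6, k7⟩ | ⟨k1, k2, k3, k4, k5, k6⟩ |
      ⟨k1, k2, k3, k4, k5, k6⟩ | ⟨k1, k2, k3, k4, k5, k6, k7⟩ | ⟨k1, k2, k3, k4, k5, k6, k7⟩ |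
      ⟨k0, k1, k2, k3, k4, k5, k6, k7⟩ | ⟨k0, k1, k2, k3, k4, k5, k6, k7⟩
    · omega
    · omega
    · exact Or.inl ⟨k1, by rw [k2, k1], k3⟩
    · omega
    · exact Or.inr (Or.inl ⟨k1, k3, k4⟩)
    · omega
    · exact Or.inr (Or.inr ⟨k0, k1, k2, k3, k4⟩)
    · omega
  · intro m s h1 h2 h3
    obtain ⟨a1, a2⟩ := H.gate m s (by omega)
    refine hN.ed_of_not H.mch hii a1 (fun h => ?_) a2
    have h5 := New.at' G H hE h2.le le_rfl (show m + 1 ≤ n from h2) (Nat.zero_le _) h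
    rcases h5 with ⟨k1, k2, k3, k4, k5, k6, k7⟩ | ⟨k1, k2, k3, k4, k5, k6, k7⟩ | ⟨k1, k2, k3, k4, k5, k6⟩ |
      ⟨k1, k2, k3, k4, k5, k6⟩ | ⟨k1, k2, k3, k4, k5, k6, k7⟩ | ⟨k1, k2, k3, k4, k5, k6, k7⟩ |
      ⟨k0, k1, k2, k3, k4, k5, k6, k7⟩ | ⟨k0, k1, k2, k3, k4, k5, k6, k7⟩
    · exact h3 k3
    all_goals omega
  · intro m h1 h2
    obtain ⟨m₁, s₁, r₁, h3, h4⟩ := G.dom_i h1 h2
    exact old (G.sea m h1 h2) h2 (G.jpos (m + 1) (by omega) h2).2.le h3 (Or.inl (by omega))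
  · intro m h1 h2
    obtain ⟨m₁, s₁, r₁, h3, h4⟩ := G.dom_w h1 h2.le
    refine old (G.wall m h1 h2) h2.le le_rfl h3 ?_
    rcases h4 with ⟨h4, h5⟩ | ⟨h4, h5, h6, -⟩
    · exact Or.inl (by omega)
    · exact Or.inr (by rw [h6]; exact (G.ω_ne h1 h2).symm)
  · intro m h1 h2
    rcases G.stp m h1 h2 with h | ⟨b1, b2, b3, b4, b5⟩
    · exact Or.inl h
    · obtain ⟨-, -, -, b6⟩ := G.a_ne h1 h2 b1
      refine Or.inr ⟨b1, b2, ?_, b4, G.ωα H hE h1 h2 b1, b5⟩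
      exact old (m₁ := m) (s₁ := R.a m) (r₁ := 1) b3 h2.le le_rfl
        (Or.inr (Or.inr (Or.inr (Or.inr (Or.inr (Or.inr (Or.inl ⟨h1, h2, b1, rfl, rfl, rfl, rfl, rfl⟩))))))) (Or.inr b6)
  · obtain ⟨m₁, s₁, r₁, h3, h4⟩ := G.dom_w hlt.le le_rfl
    refine old G.end2 le_rfl le_rfl h3 ?_
    rcases h4 with ⟨h4, h5⟩ | ⟨h4, h5, h6, -⟩
    · exact Or.inl (by omega)
    · omega

/-- THE T-GADGET for a matching. -/
theorem real [DecidableEq S] [Finite S] (G : Gd R P C n0 n κ f) (H : Rn T P C E) (hE : n < E)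
    (hii : ∀ g, B.inv (B.inv g) = g) {A : Set S} (hA : Trail.Ok.Sup R A n0 n) : ∃ σ : Perm S,
    (∀ s, s ∉ A → σ s = s) ∧ σ (R.ω n0) = R.α n ∧ σ (R.ω (n0 + 1)) = R.ω n ∧
    Real (Ed (((G.chg H hE).mch H.mch).hf hii)) (C.reg n0 n) (fun s => C.Z n0 s 0) (fun s => C.Z n s (C.h n s))
      (win (R.ω n0) (R.ω (n0 + 1)) σ) :=
  (G.ok H hE hii).real hA

end Gd

end Pool.Agent.Lib.MP_688fd0_co.SQ5.H22
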