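import Pool.Agent.Lib.MP_688fd0_co.SQ5.H22.RealP

/-!
MP_688fd0_co, type C2 (helper22): the 2-factor of a perfect matching of the Cayley graph of three involutive letters, and
the change of the matching along alternating cycles.
-/

set_option autoImplicit false

namespace Pool.Agent.Lib.MP_688fd0_co.SQ5.H22

open Pool.Agent.Lib.MP_688fd0_co.OSF Pool.Agent.Lib.MP_688fd0_co.SQ2 Pool.Agent.Lib.MP_688fd0_co.SQ3
open Pool.Agent.Lib.MP_688fd0_co.SQ5.H64 Pool.Agent.Lib.MP_688fd0_co.SQ5.H95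

universe u v

variable {Q : Type u} [Group Q] {B : Lb.{u, v} Q}

/-- Three involutive letters. -/
structure Tri (B : Lb.{u, v} Q) where
  l : Fin 3 → B.L
  inv : ∀ i, B.inv (l i) = l i
  inj : Function.Injective fun i => B.q (l i)

namespace Tri

variable (T : Tri B)

theorem l_inj : Function.Injective T.l := fun i j h => T.inj (by show B.q (T.l i) = B.q (T.l j); rw [h])

theorem sq (i : Fin 3) (x : Q) : x * B.q (T.l i) * B.q (T.l i) = x := by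
  have h : B.q (T.l i) = (B.q (T.l i))⁻¹ := by
    rw [← B.q_inv, T.inv]
  nth_rw 2 [h]
  rw [mul_inv_cancel_right]

/-- Neighbours. -/
def Adj (x y : Q) : Prop := ∃ i, y = x * B.q (T.l i)

theorem Adj.symm {T : Tri B} {x y : Q} (h : T.Adj x y) : T.Adj y x := by
  obtain ⟨i, rfl⟩ := h
  exact ⟨i, (T.sq i x).symm⟩

theorem Adj.ne {T : Tri B} {x y : Q} (h : T.Adj x y) : x ≠ y := by
  obtain ⟨i, rfl⟩ := h
  intro h1
  exact B.ne_one _ (mul_eq_left.1 h1.symm)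

/-- Three different neighbours are all. -/
theorem Adj.three {T : Tri B} {x y₁ y₂ y₃ : Q} (h₁ : T.Adj x y₁) (h₂ : T.Adj x y₂) (h₃ : T.Adj x y₃) (n₁₂ : y₁ ≠ y₂)
    (n₁₃ : y₁ ≠ y₃) (n₂₃ : y₂ ≠ y₃) {y : Q} (h : T.Adj x y) : y = y₁ ∨ y = y₂ ∨ y = y₃ := by
  obtain ⟨i₁, rfl⟩ := h₁
  obtain ⟨i₂, rfl⟩ := h₂
  obtain ⟨i₃, rfl⟩ := h₃
  obtain ⟨i, rfl⟩ := h
  have a : i₁ ≠ i₂ := fun h => n₁₂ (by rw [h])
  have b : i₁ ≠ i₃ := fun h => n₁₃ (by rw [h])
  have c : i₂ ≠ i₃ := fun h => n₂₃ (by rw [h])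
  have key : ∀ i₁ i₂ i₃ i : Fin 3, i₁ ≠ i₂ → i₁ ≠ i₃ → i₂ ≠ i₃ → i = i₁ ∨ i = i₂ ∨ i = i₃ := by decide
  rcases key i₁ i₂ i₃ i a b c with h | h | h
  · exact Or.inl (by rw [h])
  · exact Or.inr (Or.inl (by rw [h]))
  · exact Or.inr (Or.inr (by rw [h]))

/-- A perfect matching. -/
structure Mch (P : Q → Q) : Prop where
  inv : ∀ x, P (P x) = x
  adj : ∀ x, T.Adj x (P x)

variable {T}

/-- The 2-factor of the complement. -/
def Mch.hf {P : Q → Q} (hP : T.Mch P) (hii : ∀ g, B.inv (B.inv g) = g) : HF B where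
  H x := {g | ∃ i, g = T.l i ∧ x * B.q (T.l i) ≠ P x}
  ex x := by
    obtain ⟨i₀, h0⟩ := hP.adj x
    have key : ∀ i₀ : Fin 3, ∃ i₁ i₂ : Fin 3, i₁ ≠ i₂ ∧ ∀ j, j ≠ i₀ ↔ (j = i₁ ∨ j = i₂) := by decide
    obtain ⟨i₁, i₂, h1, h2⟩ := key i₀
    refine ⟨T.l i₁, T.l i₂, fun h => h1 (T.l_inj h), fun g => ?_⟩
    have h3 : ∀ i, x * B.q (T.l i) ≠ P x ↔ i ≠ i₀ := by
      intro i
      rw [h0]
      exact ⟨fun h h' => h (by rw [h']), fun h h' => h (T.inj (mul_left_cancel h'))⟩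
    constructor
    · rintro ⟨i, rfl, hi⟩
      rcases (h2 i).1 ((h3 i).1 hi) with h | h
      · exact Or.inl (by rw [h])
      · exact Or.inr (by rw [h])
    · rintro (rfl | rfl)
      · exact ⟨i₁, rfl, (h3 _).2 ((h2 _).2 (Or.inl rfl))⟩
      · exact ⟨i₂, rfl, (h3 _).2 ((h2 _).2 (Or.inr rfl))⟩
  sym x g := by
    rintro ⟨i, rfl, hi⟩
    refine ⟨i, T.inv i, ?_⟩
    rw [T.sq]
    intro h
    apply hi
    have h1 := congrArg P h
    rw [hP.inv] at h1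
    exact h1.symm
  ii := hii

theorem Mch.ed {P : Q → Q} (hP : T.Mch P) (hii : ∀ g, B.inv (B.inv g) = g) {x y : Q} :
    Ed (hP.hf hii) x y ↔ T.Adj x y ∧ y ≠ P x := by
  constructor
  · rintro ⟨_, ⟨i, rfl, hi⟩, rfl⟩
    exact ⟨⟨i, rfl⟩, hi⟩
  · rintro ⟨⟨i, rfl⟩, h⟩
    exact ⟨T.l i, ⟨i, rfl, h⟩, rfl⟩

theorem Mch.mem {P : Q → Q} (hP : T.Mch P) (hii : ∀ g, B.inv (B.inv g) = g) {x : Q} {g : B.L} :
    g ∈ (hP.hf hii).H x ↔ ∃ i, g = T.l i ∧ x * B.q (T.l i) ≠ P x := Iff.rfl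

/-- New pairs `N`: a partial matching whose domain is closed under `P`. -/
structure Chg (T : Tri B) (P : Q → Q) (N : Q → Q → Prop) : Prop where
  fn : ∀ x y y', N x y → N x y' → y = y'
  sym : ∀ x y, N x y → N y x
  adj : ∀ x y, N x y → T.Adj x y
  cl : ∀ x y, N x y → ∃ z, N (P x) z

open Classical in
/-- The changed matching. -/
noncomputable def chg (P : Q → Q) (N : Q → Q → Prop) (x : Q) : Q := if h : ∃ y, N x y then h.choose else P x

theorem Chg.eq {P : Q → Q} {N : Q → Q → Prop} (h : Chg T P N) {x y : Q} (hxy : N x y) : chg P N x = y := by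
  unfold chg
  rw [dif_pos ⟨y, hxy⟩]
  exact h.fn _ _ _ (⟨y, hxy⟩ : ∃ y, N x y).choose_spec hxy

theorem chg_off {P : Q → Q} {N : Q → Q → Prop} {x : Q} (hx : ∀ y, ¬ N x y) : chg P N x = P x := by
  unfold chg
  rw [dif_neg]
  rintro ⟨y, hy⟩
  exact hx y hy

theorem Chg.mch {P : Q → Q} {N : Q → Q → Prop} (h : Chg T P N) (hP : T.Mch P) : T.Mch (chg P N) where
  inv x := by
    by_cases hx : ∃ y, N x y
    · obtain ⟨y, hy⟩ := hx
      rw [h.eq hy, h.eq (h.sym _ _ hy)]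
    · push Not at hx
      have h1 : ∀ y, ¬ N (P x) y := by
        intro y hy
        obtain ⟨z, hz⟩ := h.cl _ _ hy
        rw [hP.inv] at hz
        exact hx z hz
      rw [chg_off hx, chg_off h1, hP.inv]
  adj x := by
    by_cases hx : ∃ y, N x y
    · obtain ⟨y, hy⟩ := hx
      rw [h.eq hy]
      exact h.adj _ _ hy
    · push Not at hx
      rw [chg_off hx]
      exact hP.adj x

end Tri

end Pool.Agent.Lib.MP_688fd0_co.SQ5.H22
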