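import Pool.Agent.Lib.MP_688fd0_co.SQ5.H95.Fam
import Pool.Agent.Lib.MP_688fd0_co.SQ5.H22.Real

/-!
MP_688fd0_co, type C2 (helper22): a region of a 2-factor of the Cayley graph which realises a diagram has a path family.
-/

set_option autoImplicit false

namespace Pool.Agent.Lib.MP_688fd0_co.SQ5.H22

open Pool.Agent.Lib.MP_688fd0_co.OSF Pool.Agent.Lib.MP_688fd0_co.SQ2 Pool.Agent.Lib.MP_688fd0_co.SQ3
open Pool.Agent.Lib.MP_688fd0_co.SQ5.H64 Pool.Agent.Lib.MP_688fd0_co.SQ5.H95

universe u v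

variable {Q : Type u} [Group Q] {B : Lb.{u, v} Q}

/-- The edges of a 2-factor. -/
def Ed (F : HF B) (x y : Q) : Prop := ∃ g ∈ F.H x, y = x * B.q g

theorem Ed.symm {F : HF B} {x y : Q} (h : Ed F x y) : Ed F y x := by
  obtain ⟨g, hg, rfl⟩ := h
  refine ⟨B.inv g, F.sym _ _ hg, ?_⟩
  rw [B.q_inv, mul_inv_cancel_right]

section

variable {F : HF B} {W : Q → Prop} [Finite Q]

/-- The pairing of the arcs from connectivity. -/
theorem O_of_con (d d' : F.E W) (hne : d ≠ d') (hc : Cn (Ed F) {x | ¬ W x} (F.vt d.1) (F.vt d'.1)) : F.O d = d' := by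
  have hlen := F.len_spec d
  have hW : ∀ j ≤ F.len d, ¬ W (F.vt (F.stp^[j] (F.ot d.1))) := F.vt_out (e := F.ot d.1) d.2.1 hlen.2
  have hpr : ∀ i, F.ot (F.stp^[i + 1] (F.ot d.1)) = F.pr (F.stp^[i] (F.ot d.1)) := by
    intro i
    rw [Function.iterate_succ_apply']
    unfold HF.stp
    rw [F.ot_ot]
  have key : ∀ z, Cn (Ed F) {x | ¬ W x} (F.vt d.1) z → ∃ i ≤ F.len d, F.vt (F.stp^[i] (F.ot d.1)) = z := by
    intro z hz
    induction hz with
    | refl => exact ⟨0, Nat.zero_le _, rfl⟩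
    | @tail b c _ hs ih =>
      obtain ⟨i, hi, hb⟩ := ih
      obtain ⟨⟨g, hg, rfl⟩, -, hcR⟩ := hs
      have hcR' : ¬ W (b * B.q g) := hcR
      rcases F.two_darts (d := F.stp^[i] (F.ot d.1)) (d' := ⟨(b, g), hg⟩) hb.symm with h1 | h1
      · have hi' : i < F.len d := by
          rcases Nat.lt_or_ge i (F.len d) with h2 | h2
          · exact h2
          · exfalso
            have h3 : i = F.len d := le_antisymm hi h2
            have h4 := hlen.1
            rw [← h3, ← h1] at h4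
            rcases h4 with h4 | h4
            · rw [h1] at h4
              exact hW i hi h4
            · exact hcR' h4
        refine ⟨i + 1, hi', ?_⟩
        rw [Function.iterate_succ_apply', ← h1]
        rfl
      · cases i with
        | zero =>
          exfalso
          have h2 : (⟨(b, g), hg⟩ : F.X) = d.1 := h1.trans (F.ot_ot _)
          have h3 := d.2.2
          rw [← h2] at h3
          exact hcR' h3
        | succ i =>
          rw [hpr] at h1
          refine ⟨i, by omega, ?_⟩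
          have h2 : F.stp^[i] (F.ot d.1) = F.pr ⟨(b, g), hg⟩ := by rw [h1, F.pr_pr]
          rw [h2]
          rfl
  obtain ⟨i, hi, hz⟩ := key _ hc
  rcases F.two_darts (d := F.stp^[i] (F.ot d.1)) (d' := d'.1) hz.symm with h1 | h1
  · have h2 : F.In W (F.stp^[i] (F.ot d.1)) := by rw [← h1]; exact Or.inr d'.2.2
    have h3 : i = F.len d := by
      rcases Nat.lt_or_ge i (F.len d) with h4 | h4
      · exact absurd h2 (hlen.2 i h4)
      · exact le_antisymm hi h4
    refine Subtype.ext ?_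
    show F.stp^[F.len d] (F.ot d.1) = d'.1
    rw [← h3, h1]
  · exfalso
    cases i with
    | zero => exact hne (Subtype.ext (h1.trans (F.ot_ot _)).symm)
    | succ i =>
      rw [hpr] at h1
      have h2 : F.In W (F.stp^[i] (F.ot d.1)) := by rw [← F.in_pr, ← h1]; exact Or.inr d'.2.2
      exact hlen.2 i (by omega) h2

theorem itr_mid (x : Q) (g : B.L) (l : List B.L) (h : B.L) :
    itr B x (g :: (l ++ [h])) = B.verts (x * B.q g) l := by
  unfold itr
  show (x :: src B (x * B.q g) (l ++ [h])).tail = _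
  rw [List.tail_cons, verts_eq]
  have key : ∀ (l : List B.L) (y : Q), src B y (l ++ [h]) = src B y l ++ [B.fin y l] := by
    intro l
    induction l with
    | nil => intro y; rfl
    | cons a l ih =>
      intro y
      show y :: src B (y * B.q a) (l ++ [h]) = y :: src B (y * B.q a) l ++ [B.fin (y * B.q a) l]
      rw [ih]
      rfl
  exact key l _

open Classical in
/-- A region that realises a diagram has a path family. -/
theorem Real.pfam {S : Type*} [Fintype S] {Rg : Set Q} {Z : Finset Q} (hZ : ∀ x, x ∈ Z ↔ x ∈ Rg) {lo up : S → Q}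
    {d : S × Bool → S × Bool} (hd : IsPair d) (hR : Real (Ed F) Rg lo up d) (g : S × Bool → B.L)
    (hg : ∀ p, g p ∈ F.H (pt lo up p)) (hout : ∀ p, pt lo up p * B.q (g p) ∉ Rg)
    (hinj : Function.Injective fun p => (pt lo up p, g p))
    (hall : ∀ x ∈ Rg, ∀ h ∈ F.H x, x * B.q h ∉ Rg → ∃ p, x = pt lo up p ∧ h = g p) :
    Nonempty (PFam B (fun p => pt lo up p * B.q (g p)) d Z) := by
  have _i : Fintype Q := Fintype.ofFinite Q
  let W : Q → Prop := fun x => x ∉ Rg
  have hmem : ∀ p, pt lo up p ∈ Rg := by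
    rintro ⟨s, _ | _⟩
    · rw [pt_lo]; exact hR.mlo s
    · rw [pt_up]; exact hR.mup s
  have hport : ∀ p, F.Port W ⟨(pt lo up p, g p), hg p⟩ := fun p => ⟨fun h => h (hmem p), hout p⟩
  let φ : S × Bool → F.E W := fun p => ⟨⟨(pt lo up p, g p), hg p⟩, hport p⟩
  have hφi : Function.Injective φ := by
    intro p q h
    apply hinj
    exact congrArg (fun e : F.E W => e.1.1) h
  have hφs : Function.Surjective φ := by
    rintro ⟨⟨⟨x, h⟩, hh⟩, hp⟩
    have h1 : x ∈ Rg := not_not.1 hp.1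
    obtain ⟨p, rfl, rfl⟩ := hall x h1 h hh hp.2
    exact ⟨p, rfl⟩
  let ψ : S × Bool ≃ F.E W := Equiv.ofBijective φ ⟨hφi, hφs⟩
  have _j : Fintype (F.E W) := Fintype.ofEquiv _ ψ
  have hWR : {x | ¬ W x} = Rg := by
    ext x
    exact not_not
  have hO : ∀ p, F.O (φ p) = φ (d p) := by
    intro p
    refine O_of_con (φ p) (φ (d p)) (fun h => hd.2 p (hφi h).symm) ?_
    rw [hWR]
    exact hR.con p
  have hcomp : ∀ x, ¬ W x → ∃ y, W y ∧ F.C x y := by
    intro x hx
    have hx' : x ∈ Rg := not_not.1 hx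
    obtain ⟨p, hp⟩ := hR.all x hx'
    refine ⟨_, hout p, ?_⟩
    have h1 : ∀ y, Cn (Ed F) Rg x y → F.C x y := by
      intro y hy
      induction hy with
      | refl => exact Relation.ReflTransGen.refl
      | tail _ hs ih => exact ih.tail hs.1
    exact (h1 _ hp).tail ⟨_, hg p, rfl⟩
  have hY : ∀ x, x ∈ Z ↔ ¬ W x := fun x => (hZ x).trans not_not.symm
  let N := F.net Z hY hcomp
  have hlast : ∀ p, B.fin (pt lo up p) (F.wl (F.len (φ p)) (F.ot (φ p).1)) = pt lo up (d p) := by
    intro p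
    have h1 := N.fin_out (φ p)
    have h2 : B.fin (F.vt (φ p).1) (F.wl (F.len (φ p)) (F.ot (φ p).1)) = F.vt (F.O (φ p)).1 := h1
    rw [hO] at h2
    exact h2
  have hstart : ∀ p, pt lo up p * B.q (g p) * B.q (B.inv (g p)) = pt lo up p := fun p => by
    rw [B.q_inv, mul_inv_cancel_right]
  have hitr : ∀ p, itr B (pt lo up p * B.q (g p)) (B.inv (g p) :: (F.wl (F.len (φ p)) (F.ot (φ p).1) ++ [g (d p)])) =
      B.verts (pt lo up p) (F.wl (F.len (φ p)) (F.ot (φ p).1)) := by
    intro p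
    rw [itr_mid, hstart]
  refine ⟨⟨fun p => B.inv (g p) :: (F.wl (F.len (φ p)) (F.ot (φ p).1) ++ [g (d p)]), fun p => List.cons_ne_nil _ _,
    fun p => ?_, fun p => ?_, ?_⟩⟩
  · show B.fin (pt lo up p * B.q (g p) * B.q (B.inv (g p))) (F.wl (F.len (φ p)) (F.ot (φ p).1) ++ [g (d p)]) = _
    rw [hstart, fin_append, hlast]
    rfl
  · rw [hitr, hitr]
    have h1 := N.rev_out (φ p)
    have h2 : N.O (φ p) = φ (d p) := hO p
    rw [h2] at h1
    exact h1
  · have h1 := N.cov
    have h2 : ∑ p, (B.verts (N.pt (φ p)) (N.out (φ p)) : Multiset Q) = 2 • Z.val :=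
      (Equiv.sum_comp ψ (fun e => (B.verts (N.pt e) (N.out e) : Multiset Q))).trans h1
    rw [← h2]
    refine Finset.sum_congr rfl fun p _ => ?_
    rw [hitr]
    rfl

end

end Pool.Agent.Lib.MP_688fd0_co.SQ5.H22
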