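import Pool.Agent.Lib.MP_688fd0_co.SQ5.H22.GadR

/-!
MP_688fd0_co, type C2 (helper22), row GAD: T-gadgets in the layers of a run.

`Pl`: the plane facts of a chart (walls and sea edges). `Hl`: the hole path `B` = `ω` (along one wall), the hole line `A` = `a`
(sea edge from position 1, wall step); first closing at `n`. `Hl.gd`: this is a T-gadget (`Gd`). `Shf`: the run is invariant
under the translation by `q` blocks (left multiplication by `g`). RESULT `Hl.win`: the window `win (ω n0) (ω (n0 + 1)) σ` with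
upper pair `{ω n, ω (n + 1)}` is realised in EVERY layer `[a + k q, b + k q]` of the run, with one `σ`.
-/

set_option autoImplicit false

namespace Pool.Agent.Lib.MP_688fd0_co.SQ5.H22

open Function Equiv
open Pool.Agent.Lib.MP_688fd0_co.OSF Pool.Agent.Lib.MP_688fd0_co.SQ2 Pool.Agent.Lib.MP_688fd0_co.SQ3
open Pool.Agent.Lib.MP_688fd0_co.SQ5.H64 Pool.Agent.Lib.MP_688fd0_co.SQ5.H95

universe u v

section Gen

variable {V V' S : Type*}

/-- Transport. -/
theorem Cn.map {E : V → V → Prop} {E' : V' → V' → Prop} {Rg : Set V} {Rg' : Set V'} (φ : V → V')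
    (hR : ∀ x ∈ Rg, φ x ∈ Rg') (hE : ∀ x y, x ∈ Rg → y ∈ Rg → E x y → E' (φ x) (φ y)) {x y : V} (h : Cn E Rg x y) :
    Cn E' Rg' (φ x) (φ y) := by
  induction h with
  | refl => exact Cn.rfl' _
  | tail _ hs ih => exact ih.trans' (Cn.of (hE _ _ hs.2.1 hs.2.2 hs.1) (hR _ hs.2.1) (hR _ hs.2.2))

/-- Transport of realisations. -/
theorem Real.map {E : V → V → Prop} {E' : V' → V' → Prop} {Rg : Set V} {Rg' : Set V'} {lo up : S → V} {lo' up' : S → V'}
    {d : S × Bool → S × Bool} (h : Real E Rg lo up d) (φ : V → V') (hR : ∀ x ∈ Rg, φ x ∈ Rg')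
    (hR' : ∀ y ∈ Rg', ∃ x ∈ Rg, φ x = y) (hE : ∀ x y, x ∈ Rg → y ∈ Rg → E x y → E' (φ x) (φ y))
    (hlo : ∀ s, lo' s = φ (lo s)) (hup : ∀ s, up' s = φ (up s)) : Real E' Rg' lo' up' d := by
  have hpt : ∀ p, pt lo' up' p = φ (pt lo up p) := by
    rintro ⟨s, _ | _⟩
    · rw [pt_lo, pt_lo, hlo]
    · rw [pt_up, pt_up, hup]
  refine ⟨fun s => ?_, fun s => ?_, fun p => ?_, fun v hv => ?_⟩
  · rw [hlo]
    exact hR _ (h.mlo s)
  · rw [hup]
    exact hR _ (h.mup s)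
  · rw [hpt, hpt]
    exact (h.con p).map φ hR hE
  · obtain ⟨x, hx, rfl⟩ := hR' v hv
    obtain ⟨p, hp⟩ := h.all x hx
    exact ⟨p, by rw [hpt]; exact hp.map φ hR hE⟩

/-- Straight strands below and above. -/
theorem Real.ext {E : V → V → Prop} (hE : ∀ x y, E x y → E y x) {Rg Rg' : Set V} {lo up lo' up' : S → V}
    {d : S × Bool → S × Bool} (h : Real E Rg lo up d) (hR : Rg ⊆ Rg') (mlo : ∀ s, lo' s ∈ Rg') (mup : ∀ s, up' s ∈ Rg')
    (hlo : ∀ s, Cn E Rg' (lo' s) (lo s)) (hup : ∀ s, Cn E Rg' (up s) (up' s))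
    (hall : ∀ v ∈ Rg', v ∉ Rg → ∃ s, Cn E Rg' v (lo s) ∨ Cn E Rg' v (up s)) : Real E Rg' lo' up' d := by
  have hpt : ∀ p, Cn E Rg' (pt lo up p) (pt lo' up' p) := by
    rintro ⟨s, _ | _⟩
    · rw [pt_lo, pt_lo]
      exact Cn.symm' hE (hlo s)
    · rw [pt_up, pt_up]
      exact hup s
  refine ⟨mlo, mup, fun p => ?_, fun v hv => ?_⟩
  · exact ((Cn.symm' hE (hpt p)).trans' ((h.con p).mono hR fun _ _ _ _ h => h)).trans' (hpt (d p))
  · by_cases h1 : v ∈ Rg
    · obtain ⟨p, hp⟩ := h.all v h1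
      exact ⟨p, (hp.mono hR fun _ _ _ _ h => h).trans' (hpt p)⟩
    · obtain ⟨s, h2 | h2⟩ := hall v hv h1
      · refine ⟨(s, false), h2.trans' ?_⟩
        have := hpt (s, false)
        rwa [pt_lo] at this
      · refine ⟨(s, true), h2.trans' ?_⟩
        have := hpt (s, true)
        rwa [pt_up] at this

/-- A strand without cut in the blocks `c .. c + d`. -/
theorem Chart.col (C : Chart V S) {E : V → V → Prop} {a b c : ℕ} {s : S} (hac : a ≤ c) (d : ℕ) (hb : c + d ≤ b)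
    (hl : ∀ m, c ≤ m → m ≤ c + d → ∀ r, r < C.h m s → E (C.Z m s r) (C.Z m s (r + 1)))
    (hg : ∀ m, c ≤ m → m < c + d → E (C.Z m s (C.h m s)) (C.Z (m + 1) s 0)) {r : ℕ} (hr : r ≤ C.h (c + d) s) :
    Cn E (C.reg a b) (C.Z c s 0) (C.Z (c + d) s r) := by
  have hline : ∀ m, c ≤ m → m ≤ c + d → ∀ r r', r ≤ r' → r' ≤ C.h m s →
      Cn E (C.reg a b) (C.Z m s r) (C.Z m s r') := by
    intro m h1 h2 r r' h3 h4
    exact (seg (C := C) (E := E) (m := m) (s := s) r r' h3 h4 fun t _ h6 => hl m h1 h2 t (by omega)).mono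
      (fun v hv => (⟨m, by omega, by omega, hv⟩ : v ∈ C.reg a b)) fun _ _ _ _ h => h
  induction d generalizing r with
  | zero => exact hline c le_rfl le_rfl 0 r (Nat.zero_le _) hr
  | succ d ih =>
    have h1 := ih (by omega) (fun m h1 h2 => hl m h1 (by omega)) (fun m h1 h2 => hg m h1 (by omega))
      (r := C.h (c + d) s) le_rfl (fun m h1 h2 => hline m h1 (by omega))
    have h2 : Cn E (C.reg a b) (C.Z (c + d) s (C.h (c + d) s)) (C.Z (c + d + 1) s 0) :=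
      Cn.of (hg (c + d) (by omega) (by omega)) ⟨c + d, by omega, by omega, C.mem le_rfl⟩
        ⟨c + d + 1, by omega, by omega, C.mem (Nat.zero_le _)⟩
    exact (h1.trans' h2).trans' (hline (c + d + 1) (by omega) (by omega) 0 r (Nat.zero_le _) hr)

end Gen

variable {Q : Type u} [Group Q] {B : Lb.{u, v} Q} {S : Type*} {T : Tri B}

/-- From the blocks of the gadget to the layer. -/
theorem Rn.layer {P : Q → Q} {C : Chart Q S} {E : ℕ} (H : Rn T P C E) (hii : ∀ g, B.inv (B.inv g) = g) {a b n0 n : ℕ}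
    (ha : a ≤ n0) (hn : n0 ≤ n) (hb : n ≤ b) (hE : b ≤ E) {N : Q → Q → Prop} (hN : Tri.Chg T P N)
    (hin : ∀ x y, N x y → x ∈ C.reg n0 n) {d : S × Bool → S × Bool}
    (hR : Real (Ed ((hN.mch H.mch).hf hii)) (C.reg n0 n) (fun s => C.Z n0 s 0) (fun s => C.Z n s (C.h n s)) d) :
    Real (Ed ((hN.mch H.mch).hf hii)) (C.reg a b) (fun s => C.Z a s 0) (fun s => C.Z b s (C.h b s)) d := by
  have hout : ∀ m s r, m ≤ E → r ≤ C.h m s → (m < n0 ∨ n < m) → C.Z m s r ∉ C.reg n0 n := by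
    rintro m s r h1 h2 h3 ⟨m', h4, h5, s', r', h6, h7⟩
    have := (H.inj _ _ _ _ _ _ h1 (by omega) h2 h6 h7).1
    omega
  have hline : ∀ m s, m ≤ E → (m < n0 ∨ n < m) → ∀ r, r < C.h m s →
      Ed ((hN.mch H.mch).hf hii) (C.Z m s r) (C.Z m s (r + 1)) := by
    intro m s h1 h2 r h3
    obtain ⟨a1, a2⟩ := H.line m s r h1 h3
    exact hN.ed_of_not H.mch hii a1 (fun h => hout m s r h1 h3.le h2 (hin _ _ h)) a2
  have hgate : ∀ m s, m < E → (m < n0 ∨ n ≤ m) → Ed ((hN.mch H.mch).hf hii) (C.Z m s (C.h m s)) (C.Z (m + 1) s 0) := by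
    intro m s h1 h2
    obtain ⟨a1, a2⟩ := H.gate m s h1
    refine hN.ed_of_not H.mch hii a1 (fun h => ?_) a2
    rcases h2 with h2 | h2
    · exact hout m s _ h1.le le_rfl (Or.inl h2) (hin _ _ h)
    · exact hout (m + 1) s 0 h1 (Nat.zero_le _) (Or.inr (by omega)) (hin _ _ (hN.sym _ _ h))
  have hlow : ∀ s, ∀ m, a ≤ m → m < n0 → ∀ r, r ≤ C.h m s → Cn (Ed ((hN.mch H.mch).hf hii)) (C.reg a b) (C.Z a s 0) (C.Z m s r) := by
    intro s m h1 h2 r h3
    obtain ⟨d, rfl⟩ : ∃ d, m = a + d := ⟨m - a, by omega⟩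
    exact C.col le_rfl d (by omega) (fun m' h4 h5 r' h6 => hline m' s (by omega) (Or.inl (by omega)) r' h6)
      (fun m' h4 h5 => hgate m' s (by omega) (Or.inl (by omega))) h3
  have hlo : ∀ s, Cn (Ed ((hN.mch H.mch).hf hii)) (C.reg a b) (C.Z a s 0) (C.Z n0 s 0) := by
    intro s
    rcases Nat.lt_or_ge a n0 with h | h
    · have h1 := hlow s (n0 - 1) (by omega) (by omega) _ le_rfl
      refine h1.trans' ?_
      have h2 := hgate (n0 - 1) s (by omega) (Or.inl (by omega))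
      rw [show n0 - 1 + 1 = n0 by omega] at h2
      exact Cn.of h2 ⟨n0 - 1, by omega, by omega, C.mem le_rfl⟩ ⟨n0, by omega, by omega, C.mem (Nat.zero_le _)⟩
    · have : a = n0 := le_antisymm ha h
      rw [this]
      exact Cn.rfl' _
  have hup0 : ∀ s, n < b → Cn (Ed ((hN.mch H.mch).hf hii)) (C.reg a b) (C.Z n s (C.h n s)) (C.Z (n + 1) s 0) := by
    intro s h
    exact Cn.of (hgate n s (by omega) (Or.inr le_rfl)) ⟨n, by omega, by omega, C.mem le_rfl⟩
      ⟨n + 1, by omega, by omega, C.mem (Nat.zero_le _)⟩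
  have hupp : ∀ s, ∀ m, n < m → m ≤ b → ∀ r, r ≤ C.h m s →
      Cn (Ed ((hN.mch H.mch).hf hii)) (C.reg a b) (C.Z n s (C.h n s)) (C.Z m s r) := by
    intro s m h1 h2 r h3
    obtain ⟨d, rfl⟩ : ∃ d, m = n + 1 + d := ⟨m - (n + 1), by omega⟩
    exact (hup0 s (by omega)).trans' (C.col (by omega) d h2
      (fun m' h4 h5 r' h6 => hline m' s (by omega) (Or.inr (by omega)) r' h6)
      (fun m' h4 h5 => hgate m' s (by omega) (Or.inr (by omega))) h3)
  refine hR.ext (fun _ _ h => h.symm) ?_ ?_ ?_ hlo ?_ ?_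
  · rintro v ⟨m, h1, h2, h3⟩
    exact ⟨m, by omega, by omega, h3⟩
  · exact fun s => ⟨a, le_rfl, by omega, C.mem (Nat.zero_le _)⟩
  · exact fun s => ⟨b, by omega, le_rfl, C.mem le_rfl⟩
  · intro s
    rcases Nat.lt_or_ge n b with h | h
    · exact hupp s b h le_rfl _ le_rfl
    · have : n = b := le_antisymm hb h
      rw [this]
      exact Cn.rfl' _
  · rintro v ⟨m, h1, h2, s, r, h3, rfl⟩ hv
    rcases Nat.lt_or_ge m n0 with h4 | h4
    · exact ⟨s, Or.inl ((Cn.symm' (fun _ _ h => h.symm) (hlow s m h1 h4 r h3)).trans' (hlo s))⟩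
    · rcases Nat.lt_or_ge n m with h5 | h5
      · exact ⟨s, Or.inr (Cn.symm' (fun _ _ h => h.symm) (hupp s m h5 h2 r h3))⟩
      · exact absurd ⟨m, h4, h5, s, r, h3, rfl⟩ hv

/-- The unchanged layer. -/
theorem Rn.real_idd {P : Q → Q} {C : Chart Q S} {E : ℕ} (H : Rn T P C E) (hii : ∀ g, B.inv (B.inv g) = g) {a b : ℕ}
    (hab : a ≤ b) (hE : b ≤ E) :
    Real (Ed (H.mch.hf hii)) (C.reg a b) (fun s => C.Z a s 0) (fun s => C.Z b s (C.h b s)) H64.idd := by
  have hE' : ∀ x y, T.Adj x y → P x ≠ y → Ed (H.mch.hf hii) x y := fun x y h1 h2 => (H.mch.ed hii).2 ⟨h1, h2.symm⟩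
  have hto : ∀ m, a ≤ m → m ≤ b → ∀ s, ∀ r ≤ C.h m s, Cn (Ed (H.mch.hf hii)) (C.reg a b) (C.Z a s 0) (C.Z m s r) := by
    intro m h1 h2 s r h3
    obtain ⟨d, rfl⟩ : ∃ d, m = a + d := ⟨m - a, by omega⟩
    refine C.col le_rfl d h2 (fun m' h4 h5 r' h6 => ?_) (fun m' h4 h5 => ?_) h3
    · obtain ⟨a1, a2⟩ := H.line m' s r' (by omega) h6
      exact hE' _ _ a1 a2
    · obtain ⟨a1, a2⟩ := H.gate m' s (by omega)
      exact hE' _ _ a1 a2
  refine Real.of_idd (fun _ _ h => h.symm) (fun s => ⟨a, le_rfl, hab, C.mem (Nat.zero_le _)⟩)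
    (fun s => ⟨b, hab, le_rfl, C.mem le_rfl⟩) (fun s => hto b hab le_rfl s _ le_rfl) ?_
  rintro v ⟨m, h1, h2, s, r, h3, rfl⟩
  exact ⟨s, (hto m h1 h2 s r h3).symm' fun _ _ h => h.symm⟩

/-- The plane facts of a chart: `κ m s` = position of the strand `s` at level `m`, `f m` = direction of the letter. -/
structure Pl (P : Q → Q) (C : Chart Q S) (E : ℕ) (κ : ℕ → S → ℤ) (f : ℕ → ℤ) : Prop where
  kap : ∀ m s, κ (m + 1) s = κ m s + f m
  f0 : ∀ m, f m ≠ 0
  wal : ∀ m s s', m ≤ E → P (C.Z m s 0) = C.Z m s' (C.h m s') → κ m s' = κ m s - f m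
  sea : ∀ m s r s' r', m < E → r ≤ C.h m s → r' ≤ C.h (m + 1) s' → P (C.Z m s r) = C.Z (m + 1) s' r' →
    s' ≠ s ∧ ((f (m + 1) = f m ∧ κ (m + 1) s' = κ (m + 1) s - f (m + 1)) ∨
      (f (m + 1) = - f m ∧ κ (m + 1) s' = κ (m + 1) s))

/-- One step of the hole line from the strand `x` (level `m`) over the line `y` to the strand `z` (level `m + 1`). -/
structure Stp (P : Q → Q) (C : Chart Q S) (m : ℕ) (x y z : S) : Prop where
  h0 : 2 ≤ C.h m x
  h1 : 2 ≤ C.h (m + 1) y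
  sea : P (C.Z m x 1) = C.Z (m + 1) y (C.h (m + 1) y - 1)
  wal : P (C.Z (m + 1) z 0) = C.Z (m + 1) y (C.h (m + 1) y)

/-- The two holes from the rung at level `n0` to the first closing at level `n`. -/
structure Hl (P : Q → Q) (C : Chart Q S) (ω a α : ℕ → S) (n0 n : ℕ) : Prop where
  lt : n0 < n
  a0 : a n0 = ω n0
  an : a n = ω n
  om : ∀ m, n0 ≤ m → m ≤ n → P (C.Z m (ω m) 0) = C.Z m (ω (m + 1)) (C.h m (ω (m + 1)))
  st : ∀ m, n0 ≤ m → m < n → Stp P C m (a m) (α (m + 1)) (a (m + 1))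
  op : ∀ m, n0 < m → m < n → a m ≠ ω m

/-- The trail. -/
def hlT (C : Chart Q S) (ω a α : ℕ → S) : Trail S := ⟨ω, α, a, fun _ => 1, fun m => C.h m (α m) - 1⟩

namespace Hl

variable {P : Q → Q} {C : Chart Q S} {E : ℕ} {κ : ℕ → S → ℤ} {f : ℕ → ℤ} {ω a α : ℕ → S} {n0 n : ℕ}

omit [Group Q] in
theorem gd (h : Hl P C ω a α n0 n) (L : Pl P C E κ f) (hE : n ≤ E) : Gd (hlT C ω a α) P C n0 n κ f := by
  have hlt := h.lt
  have hα : ∀ m, n0 < m → m ≤ n → 2 ≤ C.h m (α m) := by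
    intro m h1 h2
    have := (h.st (m - 1) (by omega) (by omega)).h1
    rwa [show m - 1 + 1 = m by omega] at this
  have hw : ∀ m, n0 < m → m ≤ n → P (C.Z m (a m) 0) = C.Z m (α m) (C.h m (α m)) := by
    intro m h1 h2
    have := (h.st (m - 1) (by omega) (by omega)).wal
    rwa [show m - 1 + 1 = m by omega] at this
  refine
    { lt := hlt
      a0 := h.a0
      i0 := rfl
      sea := fun m h1 h2 => (h.st m h1 h2).sea
      wall := fun m h1 h2 => h.om m h1 h2.le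
      stp := fun m h1 h2 => Or.inr ⟨?_, rfl, hw m h1 h2.le, h.op m h1 h2, L.wal m _ _ (by omega) (hw m h1 h2.le)⟩
      end1 := ?_
      end2 := ?_
      end3 := ?_
      jpos := fun m h1 h2 => ?_
      ipos := fun m h1 h2 => ⟨le_rfl, (h.st m h1 h2).h0⟩
      kap := L.kap
      kom := fun m h1 h2 => L.wal m _ _ (by omega) (h.om m h1 h2.le)
      kse := fun m h1 h2 => ?_
      f0 := L.f0
      ne := fun m h1 h2 => ?_ }
  · show C.h m (α m) - 1 + 1 = C.h m (α m)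
    have := hα m h1 h2.le
    omega
  · show C.h n (α n) - 1 + 1 = C.h n (α n)
    have := hα n hlt le_rfl
    omega
  · show P (C.Z n (ω n) 0) = C.Z n (α n) (C.h n (α n))
    rw [← h.an]
    exact hw n hlt le_rfl
  · show κ n (α n) = κ n (ω n) - f n
    refine L.wal n _ _ hE ?_
    rw [← h.an]
    exact hw n hlt le_rfl
  · show 1 ≤ C.h m (α m) - 1 ∧ C.h m (α m) - 1 < C.h m (α m)
    have := hα m h1 h2
    omega
  · have s1 := h.st m h1 h2
    exact (L.sea m _ _ _ _ (by omega) (by have := s1.h0; omega) (by omega) s1.sea).2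
  · have s1 := h.st m h1 h2
    exact (L.sea m _ _ _ _ (by omega) (by have := s1.h0; omega) (by omega) s1.sea).1

end Hl

/-! ### Translations -/

/-- The run is invariant under the translation by `q` blocks. -/
structure Shf (P : Q → Q) (C : Chart Q S) (E q : ℕ) (g : Q) : Prop where
  Z : ∀ m s r, m + q ≤ E → C.Z (m + q) s r = g * C.Z m s r
  h : ∀ m s, m + q ≤ E → C.h (m + q) s = C.h m s
  P : ∀ m s r, m + q ≤ E → r ≤ C.h m s → P (g * C.Z m s r) = g * P (C.Z m s r)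

theorem Shf.pow {P : Q → Q} {C : Chart Q S} {E q : ℕ} {g : Q} (hS : Shf P C E q g) (k : ℕ) :
    Shf P C E (k * q) (g ^ k) := by
  induction k with
  | zero =>
    rw [Nat.zero_mul, pow_zero]
    exact ⟨fun m s r _ => by rw [one_mul]; rfl, fun m s _ => rfl, fun m s r _ _ => by rw [one_mul, one_mul]⟩
  | succ k ih =>
    refine ⟨fun m s r h => ?_, fun m s h => ?_, fun m s r h hr => ?_⟩
    · have e : m + (k + 1) * q = m + k * q + q := by ring
      rw [e, hS.Z _ _ _ (by omega), ih.Z _ _ _ (by omega), pow_succ', mul_assoc]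
    · have e : m + (k + 1) * q = m + k * q + q := by ring
      rw [e, hS.h _ _ (by omega), ih.h _ _ (by omega)]
    · have e : m + (k + 1) * q = m + k * q + q := by ring
      have h1 := hS.P (m + k * q) s r (by omega) (by rw [ih.h _ _ (by omega)]; exact hr)
      rw [ih.Z _ _ _ (by omega)] at h1
      rw [pow_succ', mul_assoc, h1, ih.P _ _ _ (by omega) hr, mul_assoc]

/-- The translated new pairs. -/
def shN (g : Q) (N : Q → Q → Prop) (x y : Q) : Prop := N (g⁻¹ * x) (g⁻¹ * y)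

theorem Tri.adj_mul {x y : Q} (g : Q) (h : T.Adj x y) : T.Adj (g * x) (g * y) := by
  obtain ⟨i, rfl⟩ := h
  exact ⟨i, by rw [mul_assoc]⟩

theorem Shf.chg {P : Q → Q} {C : Chart Q S} {E q : ℕ} {g : Q} (hS : Shf P C E q g) {a b : ℕ} (hE : b + q ≤ E)
    {N : Q → Q → Prop} (hN : Tri.Chg T P N) (hin : ∀ x y, N x y → x ∈ C.reg a b) : Tri.Chg T P (shN g N) where
  fn x y y' h h' := mul_left_cancel (hN.fn _ _ _ h h')
  sym x y h := hN.sym _ _ h
  adj x y h := by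
    have h1 := Tri.adj_mul g (hN.adj _ _ h)
    rwa [mul_inv_cancel_left, mul_inv_cancel_left] at h1
  cl x y h := by
    obtain ⟨z, hz⟩ := hN.cl _ _ h
    refine ⟨g * z, ?_⟩
    obtain ⟨m, h1, h2, s, r, h3, h4⟩ := hin _ _ h
    have h5 := hS.P m s r (by omega) h3
    rw [← h4, mul_inv_cancel_left] at h5
    show N (g⁻¹ * P x) (g⁻¹ * (g * z))
    rw [h5, inv_mul_cancel_left, inv_mul_cancel_left]
    exact hz

theorem Shf.real {P : Q → Q} {C : Chart Q S} {E q : ℕ} {g : Q} (hS : Shf P C E q g) (H : Rn T P C E)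
    (hii : ∀ g, B.inv (B.inv g) = g) {a b : ℕ} (hE : b + q ≤ E) {N : Q → Q → Prop} (hN : Tri.Chg T P N)
    (hN' : Tri.Chg T P (shN g N)) {d : S × Bool → S × Bool} (hab : a ≤ b)
    (hR : Real (Ed ((hN.mch H.mch).hf hii)) (C.reg a b) (fun s => C.Z a s 0) (fun s => C.Z b s (C.h b s)) d) :
    Real (Ed ((hN'.mch H.mch).hf hii)) (C.reg (a + q) (b + q)) (fun s => C.Z (a + q) s 0)
      (fun s => C.Z (b + q) s (C.h (b + q) s)) d := by
  refine hR.map (fun x => g * x) ?_ ?_ ?_ ?_ ?_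
  · rintro x ⟨m, h1, h2, s, r, h3, rfl⟩
    refine ⟨m + q, by omega, by omega, s, r, ?_, (hS.Z m s r (by omega)).symm⟩
    rw [hS.h m s (by omega)]
    exact h3
  · rintro y ⟨m, h1, h2, s, r, h3, rfl⟩
    obtain ⟨m', rfl⟩ : ∃ m', m = m' + q := ⟨m - q, by omega⟩
    rw [hS.h m' s (by omega)] at h3
    exact ⟨C.Z m' s r, ⟨m', by omega, by omega, s, r, h3, rfl⟩, (hS.Z m' s r (by omega)).symm⟩
  · rintro x y ⟨m, h1, h2, s, r, h3, rfl⟩ _ hxy
    obtain ⟨k1, k2⟩ := ((hN.mch H.mch).ed hii).1 hxy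
    refine ((hN'.mch H.mch).ed hii).2 ⟨Tri.adj_mul g k1, fun h => k2 ?_⟩
    by_cases hx : ∃ z, N (C.Z m s r) z
    · obtain ⟨z, hz⟩ := hx
      have h4 : shN g N (g * C.Z m s r) (g * z) := by
        show N (g⁻¹ * (g * C.Z m s r)) (g⁻¹ * (g * z))
        rwa [inv_mul_cancel_left, inv_mul_cancel_left]
      rw [hN'.eq h4] at h
      rw [hN.eq hz]
      exact mul_left_cancel h
    · push Not at hx
      have h4 : ∀ z, ¬ shN g N (g * C.Z m s r) z := by
        intro z hz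
        have h5 : N (g⁻¹ * (g * C.Z m s r)) (g⁻¹ * z) := hz
        rw [inv_mul_cancel_left] at h5
        exact hx _ h5
      rw [Tri.chg_off h4, hS.P m s r (by omega) h3] at h
      rw [Tri.chg_off hx]
      exact mul_left_cancel h
  · exact fun s => hS.Z a s 0 (by omega)
  · intro s
    rw [hS.h b s hE]
    exact hS.Z b s _ hE

/-- The diagrams which are realised in every layer `[a + k q, b + k q]` of the run. -/
def LayD {P : Q → Q} {C : Chart Q S} {E : ℕ} (H : Rn T P C E) (hii : ∀ g, B.inv (B.inv g) = g) (a b q : ℕ) :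
    Set (S × Bool → S × Bool) :=
  {d | IsPair d ∧ ∀ k, b + k * q < E → ∃ F' : HF B,
    (∀ x, x ∉ C.reg (a + k * q) (b + k * q) → F'.H x = (H.mch.hf hii).H x) ∧
    (∀ x, ∀ l ∈ F'.H x, ∃ i, l = T.l i) ∧
    Real (Ed F') (C.reg (a + k * q) (b + k * q)) (fun s => C.Z (a + k * q) s 0)
      (fun s => C.Z (b + k * q) s (C.h (b + k * q) s)) d}

theorem LayD.idd {P : Q → Q} {C : Chart Q S} {E : ℕ} (H : Rn T P C E) (hii : ∀ g, B.inv (B.inv g) = g) {a b q : ℕ}
    (hab : a ≤ b) : H64.idd ∈ LayD H hii a b q := by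
  refine ⟨idd_pair, fun k hk => ⟨H.mch.hf hii, fun _ _ => rfl, ?_, H.real_idd hii (Nat.add_le_add_right hab _) hk.le⟩⟩
  rintro x l ⟨i, hi, -⟩
  exact ⟨i, hi⟩

/-- A changed matching gives the diagram in every layer. -/
theorem LayD.of {P : Q → Q} {C : Chart Q S} {E : ℕ} (H : Rn T P C E) (hii : ∀ g, B.inv (B.inv g) = g) {a b q : ℕ} {g : Q}
    (hab : a ≤ b) (hS : Shf P C E q g) {N : Q → Q → Prop} (hN : Tri.Chg T P N) (hin : ∀ x y, N x y → x ∈ C.reg a b)
    {d : S × Bool → S × Bool} (hd : IsPair d)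
    (hR : Real (Ed ((hN.mch H.mch).hf hii)) (C.reg a b) (fun s => C.Z a s 0) (fun s => C.Z b s (C.h b s)) d) :
    d ∈ LayD H hii a b q := by
  refine ⟨hd, fun k hk => ?_⟩
  have hSk := hS.pow k
  have hN' := hSk.chg (T := T) (a := a) (b := b) hk.le hN hin
  refine ⟨(hN'.mch H.mch).hf hii, fun x hx => ?_, ?_, hSk.real H hii hk.le hN hN' hab hR⟩
  · refine hN'.H_off H.mch hii fun y hy => hx ?_
    obtain ⟨m, h1, h2, s, r, h3, h4⟩ := hin _ _ hy
    refine ⟨m + k * q, by omega, by omega, s, r, ?_, ?_⟩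
    · rw [hSk.h m s (by omega)]
      exact h3
    · rw [hSk.Z m s r (by omega), ← h4, mul_inv_cancel_left]
  · rintro x l ⟨i, hi, -⟩
    exact ⟨i, hi⟩

namespace Hl

variable {P : Q → Q} {C : Chart Q S} {E : ℕ} {κ : ℕ → S → ℤ} {f : ℕ → ℤ} {ω a α : ℕ → S} {n0 n : ℕ}

/-- At the closing the line of the hole `A` is the next strand of the wall. -/
theorem αn (h : Hl P C ω a α n0 n) (H : Rn T P C E) (hE : n ≤ E) : α n = ω (n + 1) := by
  have hlt := h.lt
  have h1 := (h.st (n - 1) (by omega) (by omega)).wal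
  rw [show n - 1 + 1 = n by omega, h.an, h.om n hlt.le le_rfl] at h1
  exact (H.inj _ _ _ _ _ _ hE hE le_rfl le_rfl h1).2.1.symm

/-- THE T-GADGET IN ALL LAYERS. -/
theorem win [DecidableEq S] [Finite S] (h : Hl P C ω a α n0 n) (L : Pl P C E κ f) (H : Rn T P C E)
    (hii : ∀ g, B.inv (B.inv g) = g) {lo hi q : ℕ} {g : Q} (hS : Shf P C E q g) (ha : lo ≤ n0) (hb : n ≤ hi) (hE : hi < E)
    {A : Set S} (hA : ∀ m, n0 ≤ m → m ≤ n → ω m ∈ A ∧ a m ∈ A ∧ α m ∈ A) : ∃ σ : Perm S,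
    (∀ s, s ∉ A → σ s = s) ∧ σ (ω n0) = ω (n + 1) ∧ σ (ω (n0 + 1)) = ω n ∧ ω n0 ≠ ω (n0 + 1) ∧
    H64.win (ω n0) (ω (n0 + 1)) σ ∈ LayD H hii lo hi q := by
  have hlt := h.lt
  have G := h.gd L (E := E) (by omega)
  have hsup : Trail.Ok.Sup (hlT C ω a α) A n0 n :=
    ⟨fun m h1 h2 => (hA m h1 h2).1, fun m h1 h2 => (hA m h1.le h2).2.2, fun m h1 h2 => (hA m h1 h2.le).2.1⟩
  obtain ⟨σ, s1, s2, s3, s4⟩ := G.real H (by omega) hii hsup
  have hne : ω n0 ≠ ω (n0 + 1) := (G.ω_ne le_rfl hlt).symm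
  refine ⟨σ, s1, ?_, s3, hne, ?_⟩
  · rw [← h.αn H (by omega)]
    exact s2
  · have hN := G.chg H (show n < E by omega)
    have hin : ∀ x y, New (hlT C ω a α) C n0 n x y → x ∈ C.reg n0 n := by
      rintro x y ⟨m, s, r, m', s', r', h1, rfl, rfl⟩
      obtain ⟨v1, v2, v3⟩ := Gd.NI.val G H (show n < E by omega) h1
      exact ⟨m, v1, v2, C.mem v3⟩
    have hR := Rn.layer H hii ha hlt.le hb hE.le hN hin s4
    refine LayD.of H hii (by omega) hS hN (fun x y hxy => ?_) (win_pair hne σ) hR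
    obtain ⟨m, h1, h2, h3⟩ := hin x y hxy
    exact ⟨m, by omega, by omega, h3⟩

end Hl

end Pool.Agent.Lib.MP_688fd0_co.SQ5.H22
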